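import Pool.Agent.Lib.NP.Core

/-!
# From convexity to the first order inequality

Sketch. Put `p s = ∑ i, w i * ∏ l, ((1 - s) * g (a i l) + s * f (a i l))`. It has derivative
`∑ i, w i * ∑ l, (f (a i l) - g (a i l)) * ∏ l' ∈ univ.erase l, g (a i l')` at `0`
(`HasDerivAt.fun_finset_prod`, `HasDerivAt.sum`), equal to the left side of `FirstOrder` minus
`card ι * ∑ i, w i * ∏ l, g (a i l)` (`Finset.mul_prod_erase`). By hypothesis
`(p s - p 0) / s ≤ p 1 - p 0` for `0 < s ≤ 1`; let `s → 0+`.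
-/

set_option autoImplicit false

open Finset Filter

namespace Pool.Agent.NP

theorem firstOrder_of_convex {I ι : Type} [Fintype I] [Fintype ι] [DecidableEq ι] (w : I → ℝ)
    (a : I → ι → ℕ)
    (h : ∀ f g : ℕ → ℝ, (∀ n, 0 ≤ f n) → (∀ n, 0 ≤ g n) → ∀ s : ℝ, 0 ≤ s → s ≤ 1 →
      ∑ i, w i * ∏ l, ((1 - s) * g (a i l) + s * f (a i l))
        ≤ (1 - s) * ∑ i, w i * ∏ l, g (a i l) + s * ∑ i, w i * ∏ l, f (a i l)) :
    FirstOrder w a := by
  classical
  intro f g hf hg
  set p : ℝ → ℝ := fun s => ∑ i, w i * ∏ l, ((1 - s) * g (a i l) + s * f (a i l)) with hp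
  set D : ℝ := ∑ i, w i * ∑ l, (∏ l' ∈ univ.erase l, g (a i l')) * (f (a i l) - g (a i l)) with hD
  have hp0 : p 0 = ∑ i, w i * ∏ l, g (a i l) := by simp [hp]
  have hp1 : p 1 = ∑ i, w i * ∏ l, f (a i l) := by simp [hp]
  have hlin : ∀ x y : ℝ, HasDerivAt (fun s : ℝ => (1 - s) * x + s * y) (y - x) 0 := by
    intro x y
    have h1 : HasDerivAt (fun s : ℝ => (1 - s) * x + s * y) (-1 * x + 1 * y) 0 :=
      (((hasDerivAt_id (0 : ℝ)).const_sub 1).mul_const x).add ((hasDerivAt_id (0 : ℝ)).mul_const y)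
    have e : -1 * x + 1 * y = y - x := by ring
    rwa [e] at h1
  have hder : HasDerivAt p D 0 := by
    refine HasDerivAt.fun_sum fun i _ => HasDerivAt.const_mul (w i) ?_
    have h1 := HasDerivAt.fun_finsetProd (u := (univ : Finset ι)) (x := (0 : ℝ))
      (f := fun l s => (1 - s) * g (a i l) + s * f (a i l))
      (f' := fun l => f (a i l) - g (a i l)) (fun l _ => hlin _ _)
    simpa using h1
  have hle : ∀ s : ℝ, 0 < s → s ≤ 1 → s⁻¹ • (p (0 + s) - p 0) ≤ p 1 - p 0 := by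
    intro s hs0 hs1
    have h1 := h f g hf hg s hs0.le hs1
    rw [← hp0, ← hp1] at h1
    change p s ≤ _ at h1
    rw [zero_add, smul_eq_mul, inv_mul_le_iff₀ hs0]
    nlinarith
  have hDle : D ≤ p 1 - p 0 := by
    refine le_of_tendsto hder.tendsto_slope_zero_right ?_
    filter_upwards [Ioc_mem_nhdsGT (zero_lt_one : (0 : ℝ) < 1)] with s hs
    exact hle s hs.1 hs.2
  have hDeq : D = ∑ i, w i * ∑ l, f (a i l) * ∏ l' ∈ univ.erase l, g (a i l')
      - (Fintype.card ι : ℝ) * ∑ i, w i * ∏ l, g (a i l) := by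
    rw [hD, Finset.mul_sum, ← Finset.sum_sub_distrib]
    refine Finset.sum_congr rfl fun i _ => ?_
    have h1 : ∑ l, (∏ l' ∈ univ.erase l, g (a i l')) * (f (a i l) - g (a i l)) =
        ∑ l, f (a i l) * ∏ l' ∈ univ.erase l, g (a i l') - (Fintype.card ι : ℝ) * ∏ l, g (a i l) := by
      have h2 : ∀ l, (∏ l' ∈ univ.erase l, g (a i l')) * (f (a i l) - g (a i l)) =
          f (a i l) * ∏ l' ∈ univ.erase l, g (a i l') - ∏ l, g (a i l) := by
        intro l
        rw [← Finset.mul_prod_erase univ (fun l => g (a i l)) (Finset.mem_univ l)]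
        ring
      simp only [h2]
      rw [Finset.sum_sub_distrib, Finset.sum_const, Finset.card_univ, nsmul_eq_mul]
    rw [h1]
    ring
  rw [hDeq, hp0, hp1] at hDle
  linarith

end Pool.Agent.NP
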