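import Pool.Agent.Lib.NP.Main
import Pool.Agent.Lib.HLB.GridProp

/-!
# Positive proportion of the copies of a weakly norming pattern
-/

set_option autoImplicit false

open Finset Filter

namespace Pool.Agent.NP

open Pool.Agent.HL Pool.Agent.Lib.Sieve4 Pool.Agent.HLB Pool.Agent.HLD

open scoped Classical in
/-- Positive proportion from an average lower bound and individual upper bounds, weights. -/
lemma prop_genericW {α : Type} (I : Finset α) (s c v : α → ℝ) (adm : α → Prop) {K ρ X N r : ℝ}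
    (hK : 0 < K) (hρ0 : 0 < ρ) (hρ : ρ < 1) (hX : 0 < X) (hN : 0 < N) (hr0 : 0 ≤ r)
    (hs : ∀ a ∈ I, 0 ≤ s a) (hv : ∀ a ∈ I, 0 ≤ v a) (hup : ∀ a ∈ I, adm a → c a ≤ K * s a * X)
    (hin : ∀ a ∈ I, ¬ adm a → c a ≤ r * v a)
    (h1 : (1 - (1 - ρ) / 4) * (X * ∑ a ∈ I, s a) ≤ ∑ a ∈ I, c a)
    (h2 : (1 - (1 - ρ) / 4) * (X * N) ≤ ∑ a ∈ I, c a)
    (hcard : ∑ a ∈ I, v a ≤ N) (hx2 : 8 * r / (1 - ρ) ≤ X) (hx2' : 4 * r ≤ X) :
    ∃ G ⊆ I, (∀ a ∈ G, adm a ∧ ρ * s a * X ≤ c a) ∧
      (1 - ρ) / (4 * K) * ∑ a ∈ I, s a ≤ ∑ a ∈ G, s a ∧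
      N ≤ 4 * (K + ρ) * ∑ a ∈ I, s a := by
  have hρ' : 0 < 1 - ρ := by linarith only [hρ]
  set SS1 : ℝ := ∑ a ∈ I, s a with hSS1
  set CC : ℝ := ∑ a ∈ I, c a with hCC
  have hSS0 : 0 ≤ SS1 := Finset.sum_nonneg hs
  set P : α → Prop := fun a => adm a ∧ ρ * s a * X ≤ c a with hP
  set SG : ℝ := ∑ a ∈ I.filter P, s a with hSG
  have hub : CC ≤ K * X * SG + ρ * X * SS1 + r * N := by
    have hpt : ∀ a ∈ I, c a ≤ (if P a then K * X * s a else 0) + ρ * X * s a + r * v a := by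
      intro a ha
      have hSI0 := hs a ha
      have hρS : 0 ≤ ρ * X * s a := by positivity
      have hrv : 0 ≤ r * v a := mul_nonneg hr0 (hv a ha)
      by_cases hadm : adm a
      · by_cases hPa : P a
        · rw [if_pos hPa]
          have h4 := hup a ha hadm
          have h5 : K * s a * X = K * X * s a := by ring
          linarith only [hρS, hrv, h4]
        · rw [if_neg hPa]
          have h6 : ¬ ρ * s a * X ≤ c a := fun h => hPa ⟨hadm, h⟩
          push Not at h6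
          have h7 : ρ * s a * X = ρ * X * s a := by ring
          linarith only [hrv, h6]
      · have h9 := hin a ha hadm
        have h10 : 0 ≤ (if P a then K * X * s a else 0) := by
          split_ifs
          · (clear * - hK hX hSI0; positivity)
          · exact le_refl _
        linarith only [hρS, h9, h10]
    have hsum := Finset.sum_le_sum hpt
    rw [Finset.sum_add_distrib, Finset.sum_add_distrib, ← Finset.mul_sum,
      ← Finset.sum_filter, ← Finset.mul_sum, ← Finset.mul_sum] at hsum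
    have h11 : r * ∑ a ∈ I, v a ≤ r * N := mul_le_mul_of_nonneg_left hcard hr0
    linarith only [hsum, h11]
  have hsmall : r * N ≤ (1 - ρ) / 8 * (X * N) := by
    have h12 : r ≤ (1 - ρ) / 8 * X := by
      have := mul_le_mul_of_nonneg_left hx2 (by positivity : 0 ≤ (1 - ρ) / 8)
      have e : (1 - ρ) / 8 * (8 * r / (1 - ρ)) = r := by field_simp
      linarith only [this, e]
    calc r * N ≤ ((1 - ρ) / 8 * X) * N := by gcongr
      _ = _ := by ring
  have hXA : 0 < X * N := by positivity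
  have hSG0 : 0 ≤ SG := Finset.sum_nonneg fun a ha => hs a (mem_filter.mp ha).1
  have hq : (1 - (1 - ρ) / 4) * (X * N) ≥ (1/2) * (X * N) := by
    have : (1:ℝ)/2 ≤ 1 - (1 - ρ) / 4 := by linarith only [hρ0, hρ]
    exact mul_le_mul_of_nonneg_right this hXA.le
  have hsmall2 : r * N ≤ (1 - ρ) / 4 * CC := by
    have : X * N ≤ 2 * CC := by linarith only [h2, hq]
    calc r * N ≤ (1 - ρ) / 8 * (X * N) := hsmall
      _ ≤ (1 - ρ) / 8 * (2 * CC) := by gcongr
      _ = _ := by ring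
  have hA1 : (1 - (1 - ρ) / 4) * CC ≤ K * X * SG + ρ * X * SS1 := by linarith only [hub, hsmall2]
  have hA2 : (1 - (1 - ρ) / 4) * ((1 - (1 - ρ) / 4) * (X * SS1)) ≤ (1 - (1 - ρ) / 4) * CC :=
    mul_le_mul_of_nonneg_left h1 (by linarith only [hρ0, hρ])
  have hA3 : (1 - ρ) / 4 * (X * SS1) ≤ K * X * SG := by
    have hXS : 0 ≤ X * SS1 := by (clear * - hX hSS0; positivity)
    have h13 : (1 - (1 - ρ) / 4) * ((1 - (1 - ρ) / 4) * (X * SS1))
        ≥ (1 - (1 - ρ) / 2) * (X * SS1) := by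
      have : (1 - (1 - ρ) / 4) * (1 - (1 - ρ) / 4) ≥ 1 - (1 - ρ) / 2 := by nlinarith only [hρ]
      nlinarith only [hρ0, hρ, hXS, this]
    have h14 : (1 - (1 - ρ) / 2) * (X * SS1) - ρ * X * SS1 = (1 - ρ) / 2 * (X * SS1) := by ring
    have h15 : (1 - ρ) / 4 * (X * SS1) ≤ (1 - ρ) / 2 * (X * SS1) := by
      refine mul_le_mul_of_nonneg_right ?_ hXS
      linarith only [hρ]
    linarith only [hub, hsmall2, hA2, h13, h15]
  have hB1 : (1 - ρ) / (4 * K) * SS1 ≤ SG := by
    rw [div_mul_eq_mul_div, div_le_iff₀ (by (clear * - hK; positivity))]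
    have h16 : X * ((1 - ρ) * SS1) ≤ X * (SG * (4 * K)) := by nlinarith only [hA3]
    exact le_of_mul_le_mul_left h16 hX
  have hB2 : N ≤ 4 * (K + ρ) * SS1 := by
    have hSGle : SG ≤ SS1 := Finset.sum_le_sum_of_subset_of_nonneg (Finset.filter_subset _ _)
      fun a ha _ => hs a ha
    have h17 : (1/2) * (X * N) ≤ (K + ρ) * X * SS1 + r * N := by
      have : K * X * SG ≤ K * X * SS1 := by gcongr
      linarith only [h2, hub, hq, this]
    have h18 : r * N ≤ (1/4) * (X * N) := by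
      have : r ≤ (1/4) * X := by linarith only [hx2']
      calc r * N ≤ ((1/4) * X) * N := by gcongr
        _ = _ := by ring
    have h19 : X * N ≤ X * (4 * (K + ρ) * SS1) := by nlinarith only [hsmall, hq, h17]
    exact le_of_mul_le_mul_left h19 hX
  exact ⟨I.filter P, Finset.filter_subset _ _, fun a ha => (mem_filter.mp ha).2, hB1, hB2⟩

variable {d : ℕ} {V : Fin d → Type} [∀ j, Fintype (V j)] [∀ j, DecidableEq (V j)]

open scoped Classical in
/-- Positive proportion for arrays. -/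
theorem array_proportion (hSW : SW) {H : Finset ((j : Fin d) → V j)} (hne : H.Nonempty)
    (hH : WeaklyNorming H) (Δ : Fin d → ℕ) (hΔ : ∀ j v, (H.filter (fun e => e j = v)).card ≤ Δ j)
    {ρ : ℝ} (hρ0 : 0 < ρ) (hρ : ρ < 1) :
    ∃ C δ : ℝ, 0 < C ∧ 0 < δ ∧ ∀ K0 : ℕ, ∀ᶠ x : ℕ in atTop,
      ∀ (X : Fin d → Type) [∀ j, Fintype (X j)]
      (w : (j : Fin d) → X j → ℝ) (φ : ((j : Fin d) → X j) → ℕ), (∀ j u, 0 ≤ w j u) →
      (∀ u, (φ u : ℝ) ≤ x * Real.log x ^ K0) →
      (∀ (j : Fin d) (u : (j : Fin d) → X j),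
        C * Real.log x ^ Δ j * ∑ y : X j, (if φ (Function.update u j y) = φ u then w j y else 0)
          ≤ ∑ y, w j y) →
      ∃ G ⊆ (univ : Finset ((j : Fin d) → V j → X j)).filter
            (fun t => Function.Injective (sh H φ t)),
        (∀ t ∈ G, (∀ p : ℕ, p.Prime → nuI (sh H φ t) p < p) ∧
          ρ * SI (sh H φ t) * (x / Real.log x ^ H.card) ≤ cnt (sh H φ t) x) ∧
        δ * ∑ t ∈ (univ : Finset ((j : Fin d) → V j → X j)).filter
            (fun t => Function.Injective (sh H φ t)), wt w t * SI (sh H φ t)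
          ≤ ∑ t ∈ G, wt w t * SI (sh H φ t) ∧
        δ * ∑ t : (j : Fin d) → V j → X j, wt w t ≤ ∑ t ∈ G, wt w t * SI (sh H φ t) := by
  set r : ℕ := H.card with hr
  have hr1 : 1 ≤ r := hne.card_pos
  obtain ⟨K, hK, hKup⟩ := tuple_upperI r hr1
  have hρ' : 0 < 1 - ρ := by linarith
  have hrR : (1:ℝ) ≤ (r : ℝ) := by exact_mod_cast hr1
  set C : ℝ := 4 * (r : ℝ) ^ 2 / (1 - ρ) with hCdef
  have hC : 0 < C := by positivity
  have hmain := array_lower hSW hne hH Δ hΔ (ε := (1 - ρ) / 8) (by linarith only [hρ])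
  refine ⟨C, (1 - ρ) / (4 * K) / max 1 (4 * (K + ρ)), hC, by positivity, fun K0 => ?_⟩
  filter_upwards [hmain K0, (tendsto_x_div_log_pow r).eventually_ge_atTop (8 * r / (1 - ρ)),
    (tendsto_x_div_log_pow r).eventually_ge_atTop (4 * r), eventually_ge_atTop 3]
    with x hx1 hx2 hx2' hx3
  intro X _ w φ hw hφ hline
  have hx3R : (3:ℝ) ≤ x := by exact_mod_cast hx3
  have hlog : 0 < Real.log x := Real.log_pos (by linarith only [hρ0, hρ, hx3R])
  have hxpos : (0:ℝ) < x := by linarith only [hρ0, hρ, hx3R]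
  have hwt : ∀ t : (j : Fin d) → V j → X j, 0 ≤ wt w t := wt_nonneg' hw
  have hcardI : Fintype.card {e // e ∈ H} = r := Fintype.card_coe H
  obtain ⟨h1, h2⟩ := hx1 X w φ hw hφ (1 / C) (by (clear * - hne hρ; positivity)) (by
    intro j u
    have h := hline j u
    rw [one_div, inv_mul_eq_div, le_div_iff₀ hC]
    linarith only [h])
  have hfac : 1 - (1 - ρ) / 4 ≤ 1 - (1 - ρ) / 8 - (r : ℝ) * (r - 1) / 2 * (1 / C) := by
    have h3 : (r : ℝ) * (r - 1) / 2 * (1 / C) ≤ (1 - ρ) / 8 := by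
      rw [hCdef, one_div_div]
      have h4 : (r : ℝ) * (r - 1) / 2 * ((1 - ρ) / (4 * (r : ℝ) ^ 2))
          = (1 - ρ) / 8 * ((r - 1) / r) := by
        field_simp
        ring
      rw [h4]
      have h5 : ((r : ℝ) - 1) / r ≤ 1 := by
        rw [div_le_one (by (clear * - hne; positivity))]
        linarith only [hρ0, hρ]
      have h6 : (0:ℝ) ≤ (1 - ρ) / 8 := by linarith only [hρ]
      calc (1 - ρ) / 8 * ((r - 1) / r) ≤ (1 - ρ) / 8 * 1 := mul_le_mul_of_nonneg_left h5 h6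
        _ = _ := mul_one _
    linarith only [h3]
  replace h1 := le_trans (mul_le_mul_of_nonneg_right hfac (by
    refine mul_nonneg (by (clear * - hx3 hlog; positivity)) (Finset.sum_nonneg fun t ht => mul_nonneg (hwt t)
      (SI_nonneg _ (mem_filter.mp ht).2)))) h1
  replace h2 := le_trans (mul_le_mul_of_nonneg_right hfac (by
    refine mul_nonneg (by (clear * - hx3 hlog; positivity)) (Finset.sum_nonneg fun t _ => hwt t))) h2
  set I := (univ : Finset ((j : Fin d) → V j → X j)).filter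
    (fun t => Function.Injective (sh H φ t)) with hI
  set Wt : ℝ := ∑ t : (j : Fin d) → V j → X j, wt w t with hWt
  have hWt0 : 0 ≤ Wt := Finset.sum_nonneg fun t _ => hwt t
  rcases hWt0.eq_or_lt with hW0 | hWpos
  · -- all weights vanish
    have hz : ∀ t : (j : Fin d) → V j → X j, wt w t = 0 := fun t =>
      (Finset.sum_eq_zero_iff_of_nonneg fun t _ => hwt t).mp (hWt ▸ hW0.symm) t (mem_univ t)
    refine ⟨∅, Finset.empty_subset _, fun t ht => absurd ht (Finset.notMem_empty t), ?_, ?_⟩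
    · rw [Finset.sum_empty, Finset.sum_eq_zero fun t _ => by rw [hz t, zero_mul], mul_zero]
    · rw [← hW0, mul_zero, Finset.sum_empty]
  set J := I.filter (fun t => 0 < wt w t) with hJ
  have hJI : ∀ f : ((j : Fin d) → V j → X j) → ℝ,
      ∑ t ∈ I, wt w t * f t = ∑ t ∈ J, wt w t * f t := by
    intro f
    refine (Finset.sum_subset (Finset.filter_subset _ _) fun t ht1 ht2 => ?_).symm
    rw [mem_filter, not_and] at ht2
    have h3 : wt w t = 0 := le_antisymm (not_lt.mp (ht2 ht1)) (hwt t)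
    rw [h3, zero_mul]
  have hmemJ : ∀ t ∈ J, Function.Injective (sh H φ t) ∧ 0 < wt w t := fun t ht =>
    ⟨(mem_filter.mp (mem_filter.mp ht).1).2, (mem_filter.mp ht).2⟩
  rw [hJI (fun t => SI (sh H φ t)), hJI (fun t => (cnt (sh H φ t) x : ℝ))] at h1
  rw [hJI (fun t => (cnt (sh H φ t) x : ℝ))] at h2
  obtain ⟨G, hG, hGa, hG1, hG2⟩ := prop_genericW J
    (fun t => wt w t * SI (sh H φ t)) (fun t => wt w t * (cnt (sh H φ t) x : ℝ)) (fun t => wt w t)
    (fun t => ∀ p : ℕ, p.Prime → nuI (sh H φ t) p < p) (K := K) (ρ := ρ)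
    (X := x / Real.log x ^ r) (N := Wt) (r := (r : ℝ)) hK hρ0 hρ
    (by (clear * - hx3 hlog; positivity)) hWpos (by (clear * - hne; positivity))
    (fun t ht => mul_nonneg (hwt t) (SI_nonneg _ (hmemJ t ht).1)) (fun t _ => hwt t)
    (fun t ht hadm => by
      have h4 := hKup _ (sh H φ t) hcardI (hmemJ t ht).1 hadm x (by omega)
      have h5 := mul_le_mul_of_nonneg_left h4 (hwt t)
      refine h5.trans (le_of_eq ?_)
      ring)
    (fun t ht hadm => by
      push Not at hadm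
      obtain ⟨p, hp, hnp⟩ := hadm
      have h8 := count_inadm (sh H φ t) hp hnp x
      rw [hcardI] at h8
      rw [mul_comm]
      refine mul_le_mul_of_nonneg_right ?_ (hwt t)
      exact_mod_cast h8)
    h1 h2 (Finset.sum_le_sum_of_subset_of_nonneg (Finset.subset_univ _) fun t _ _ => hwt t) hx2 hx2'
  refine ⟨G, hG.trans (Finset.filter_subset _ _), fun t ht => ?_, ?_, ?_⟩
  · obtain ⟨hadm, h6⟩ := hGa t ht
    refine ⟨hadm, ?_⟩
    have h7 := (hmemJ t (hG ht)).2
    have h8 : wt w t * (ρ * SI (sh H φ t) * (x / Real.log x ^ r))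
        ≤ wt w t * (cnt (sh H φ t) x : ℝ) := le_trans (le_of_eq (by ring)) h6
    exact le_of_mul_le_mul_left h8 h7
  · rw [hJI]
    refine le_trans ?_ hG1
    refine mul_le_mul_of_nonneg_right ?_
      (Finset.sum_nonneg fun t ht => mul_nonneg (hwt t) (SI_nonneg _ (hmemJ t ht).1))
    exact div_le_self (by (clear * - hρ hK; positivity)) (le_max_left _ _)
  · refine le_trans ?_ hG1
    rw [div_mul_eq_mul_div, div_le_iff₀ (by (clear * -; positivity))]
    have hS0 : 0 ≤ ∑ t ∈ J, wt w t * SI (sh H φ t) :=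
      Finset.sum_nonneg fun t ht => mul_nonneg (hwt t) (SI_nonneg _ (hmemJ t ht).1)
    calc (1 - ρ) / (4 * K) * Wt
        ≤ (1 - ρ) / (4 * K) * (4 * (K + ρ) * ∑ t ∈ J, wt w t * SI (sh H φ t)) := by gcongr
      _ ≤ (1 - ρ) / (4 * K) * (max 1 (4 * (K + ρ)) * ∑ t ∈ J, wt w t * SI (sh H φ t)) := by
          gcongr
          exact le_max_right _ _
      _ = _ := by ring

end Pool.Agent.NP
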