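import Pool.Agent.Lib.NP.Defs

/-!
# Complete d-partite hypergraphs percolate

For `j0` and `a ≠ b` in `V j0` let `s j0 = Equiv.swap a b`, `s j = id` for `j ≠ j0`, and
`side j0 a = -1`, `side j0 b = 1`, all other sides `0`. An edge has only one vertex in `V j0`, so `cut` holds.
Fix `e₀`; composing these foldings over all `j0` and all `b ≠ e₀ j0` (with `a = e₀ j0`) gives the
constant map `e₀`.
-/

set_option autoImplicit false

open Finset

namespace Pool.Agent.NP

variable {d : ℕ} {V : Fin d → Type} [∀ j, Fintype (V j)] [∀ j, DecidableEq (V j)]

theorem exists_folding (e₀ : (j : Fin d) → V j) (p : Σ j, V j) (hp : p.2 ≠ e₀ p.1) :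
    ∃ f : Folding (Finset.univ : Finset ((j : Fin d) → V j)), ∀ e j,
      f.map e j = if (⟨j, e j⟩ : Σ j, V j) = p then e₀ j else e j := by
  classical
  obtain ⟨j0, b⟩ := p
  simp only at hp
  let s : (j : Fin d) → V j → V j := Function.update (fun _ => id) j0 (Equiv.swap (e₀ j0) b)
  let side : (j : Fin d) → V j → ℤ := Function.update (fun _ _ => (0 : ℤ)) j0
    (fun v => if v = e₀ j0 then -1 else if v = b then 1 else 0)
  have s1 : s j0 = Equiv.swap (e₀ j0) b := Function.update_self _ _ _
  have s2 : ∀ j, j ≠ j0 → s j = id := fun j hj => Function.update_of_ne hj _ _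
  have d1 : side j0 = fun v => if v = e₀ j0 then -1 else if v = b then 1 else 0 :=
    Function.update_self _ _ _
  have d2 : ∀ j, j ≠ j0 → side j = fun _ => (0 : ℤ) := fun j hj => Function.update_of_ne hj _ _
  let f : Folding (Finset.univ : Finset ((j : Fin d) → V j)) :=
    { s := s
      side := side
      inv := by
        intro j v
        by_cases hj : j = j0
        · subst hj
          rw [s1, Equiv.swap_apply_self]
        · rw [s2 j hj]
          rfl
      fix := by
        intro j v hv
        by_cases hj : j = j0
        · subst hj
          rw [d1] at hv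
          simp only at hv
          rw [s1]
          by_cases h1 : v = e₀ j
          · rw [if_pos h1] at hv
            norm_num at hv
          · rw [if_neg h1] at hv
            by_cases h2 : v = b
            · rw [if_pos h2] at hv
              norm_num at hv
            · exact Equiv.swap_apply_of_ne_of_ne h1 h2
        · rw [s2 j hj]
          rfl
      flip := by
        intro j v
        by_cases hj : j = j0
        · subst hj
          rw [d1, s1]
          simp only
          by_cases h1 : v = e₀ j
          · subst h1
            rw [Equiv.swap_apply_left, if_neg hp, if_pos rfl, if_pos rfl]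
            norm_num
          · by_cases h2 : v = b
            · subst h2
              rw [Equiv.swap_apply_right, if_pos rfl, if_neg hp, if_pos rfl]
            · rw [Equiv.swap_apply_of_ne_of_ne h1 h2, if_neg h1, if_neg h2]
              norm_num
        · rw [d2 j hj]
          norm_num
      three := by
        intro j v
        by_cases hj : j = j0
        · subst hj
          rw [d1]
          simp only
          split_ifs <;> simp
        · rw [d2 j hj]
          simp
      aut := fun e _ => Finset.mem_univ _
      cut := by
        intro e _ j j' h h'
        have hj : j = j0 := by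
          by_contra hj
          rw [d2 j hj] at h
          norm_num at h
        have hj' : j' = j0 := by
          by_contra hj'
          rw [d2 j' hj'] at h'
          norm_num at h'
        subst hj
        subst hj'
        rw [h] at h'
        norm_num at h' }
  refine ⟨f, fun e j => ?_⟩
  by_cases hb : e j0 = b
  · have h1 : ∃ j, side j (e j) = 1 := by
      refine ⟨j0, ?_⟩
      rw [d1]
      simp only
      rw [hb, if_neg hp, if_pos rfl]
    have h2 : f.map e = fun j => s j (e j) := if_pos h1
    rw [h2]
    by_cases hj : j = j0
    · subst hj
      rw [if_pos (by rw [hb])]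
      simp only [s1, hb, Equiv.swap_apply_right]
    · rw [if_neg (fun h => hj (congrArg Sigma.fst h))]
      simp only [s2 j hj]
      rfl
  · have h1 : ¬ ∃ j, side j (e j) = 1 := by
      rintro ⟨j, h⟩
      by_cases hj : j = j0
      · subst hj
        rw [d1] at h
        simp only at h
        rw [if_neg hb] at h
        split_ifs at h <;> norm_num at h
      · rw [d2 j hj] at h
        norm_num at h
    have h2 : f.map e = e := if_neg h1
    rw [h2, if_neg]
    intro h
    have hj : j = j0 := congrArg Sigma.fst h
    subst hj
    exact hb (eq_of_heq (Sigma.mk.inj h).2)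

theorem exists_list (e₀ : (j : Fin d) → V j) (l : List (Σ j, V j)) :
    ∃ L : List (Folding (Finset.univ : Finset ((j : Fin d) → V j))), ∀ e j,
      (L.foldr (fun f e' => f.map e') e j = e j ∨ L.foldr (fun f e' => f.map e') e j = e₀ j) ∧
      ((⟨j, e j⟩ : Σ j, V j) ∈ l → L.foldr (fun f e' => f.map e') e j = e₀ j) := by
  induction l with
  | nil => exact ⟨[], fun e j => ⟨Or.inl rfl, fun h => by simp at h⟩⟩
  | cons p l ih =>
    obtain ⟨L, hL⟩ := ih
    by_cases hp : p.2 = e₀ p.1
    · refine ⟨L, fun e j => ⟨(hL e j).1, fun h => ?_⟩⟩
      rcases List.mem_cons.1 h with h | h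
      · subst h
        rcases (hL e j).1 with h1 | h1
        · rw [h1]
          exact hp
        · exact h1
      · exact (hL e j).2 h
    · obtain ⟨f, hf⟩ := exists_folding e₀ p hp
      refine ⟨f :: L, fun e j => ?_⟩
      rw [List.foldr_cons, hf]
      set r := L.foldr (fun f e' => f.map e') e with hr
      constructor
      · split_ifs
        · exact Or.inr rfl
        · exact (hL e j).1
      · intro h
        split_ifs with hc
        · rfl
        · rcases List.mem_cons.1 h with h | h
          · rcases (hL e j).1 with h1 | h1
            · exact absurd (by rw [← h, ← h1]) hc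
            · exact h1
          · exact (hL e j).2 h

theorem percolates_complete [∀ j, Nonempty (V j)] :
    Percolates (Finset.univ : Finset ((j : Fin d) → V j)) := by
  classical
  have e₀ : (j : Fin d) → V j := fun j => Classical.arbitrary _
  obtain ⟨L, hL⟩ := exists_list e₀ (Finset.univ : Finset (Σ j, V j)).toList
  refine ⟨L, e₀, fun e _ => ?_⟩
  funext j
  exact (hL e j).2 (by simp)

end Pool.Agent.NP
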