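import Pool.Agent.Lib.HLB.T1Lower
import Pool.Agent.Lib.HLD.CLLower2

/-!
# The lower bound on average over a convex family of tuples

`I` indexes finitely many tuples `a i : ι → ℕ` with weights `w i ≥ 0`. `FirstOrder w a` is the first
order convexity inequality for the form `f ↦ ∑ i, w i * ∏ l, f (a i l)` on nonnegative functions.
-/

set_option autoImplicit false

open Finset Filter

namespace Pool.Agent.NP

open Pool.Agent.HL Pool.Agent.Lib.Sieve4 Pool.Agent.HLB Pool.Agent.HLD

/-- First order inequality for the form of the family. -/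
def FirstOrder {I ι : Type} [Fintype I] [Fintype ι] [DecidableEq ι] (w : I → ℝ)
    (a : I → ι → ℕ) : Prop :=
  ∀ f g : ℕ → ℝ, (∀ n, 0 ≤ f n) → (∀ n, 0 ≤ g n) →
    ∑ i, w i * ∑ l, f (a i l) * ∏ l' ∈ univ.erase l, g (a i l')
      ≤ ∑ i, w i * ∏ l, f (a i l)
        + ((Fintype.card ι : ℝ) - 1) * ∑ i, w i * ∏ l, g (a i l)

/-- The average of the partial singular series is at least one. -/
theorem family_posdef {I ι : Type} [Fintype I] [Fintype ι] [DecidableEq ι] (w : I → ℝ)
    (a : I → ι → ℕ) (hfo : FirstOrder w a) (z : ℕ) :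
    ∑ i, w i ≤ ∑ i, w i * SZ z (a i) := by
  classical
  set W : ℝ := ∏ p ∈ Nat.primesLE z, (p : ℝ) with hW
  have hWpos : 0 < W := primorial_pos' z
  have hcardW : (((range (∏ p ∈ Nat.primesLE z, p)).card : ℕ) : ℝ) = W := by
    rw [card_range]; push_cast; rfl
  have h : ∀ u : ℕ, ∑ i, w i * ∑ l, (ic z (u + a i l) / DZ z)
      ≤ ∑ i, w i * ∏ l, (ic z (u + a i l) / DZ z)
        + ((Fintype.card ι : ℝ) - 1) * ∑ i, w i := by
    intro u
    have h1 := hfo (fun m => ic z (u + m) / DZ z) (fun _ => 1)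
      (fun n => div_nonneg (ic_nonneg _ _) (DZ_pos z).le) (fun _ => zero_le_one)
    simpa only [Finset.prod_const_one, mul_one] using h1
  have h2 := Finset.sum_le_sum fun u (_ : u ∈ range (∏ p ∈ Nat.primesLE z, p)) => h u
  rw [Finset.sum_add_distrib, Finset.sum_const, nsmul_eq_mul, hcardW] at h2
  have e1 : ∑ u ∈ range (∏ p ∈ Nat.primesLE z, p), ∑ i, w i * ∑ l, (ic z (u + a i l) / DZ z)
      = W * ((Fintype.card ι : ℝ) * ∑ i, w i) := by
    rw [Finset.sum_comm]
    have : ∀ i, ∑ u ∈ range (∏ p ∈ Nat.primesLE z, p), w i * ∑ l, (ic z (u + a i l) / DZ z)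
        = w i * ((Fintype.card ι : ℝ) * W) := by
      intro i
      rw [← Finset.mul_sum, Finset.sum_comm]
      simp_rw [ic_avg]
      rw [Finset.sum_const, nsmul_eq_mul, Finset.card_univ]
    rw [Finset.sum_congr rfl fun i _ => this i, ← Finset.sum_mul]
    ring
  have e2 : ∑ u ∈ range (∏ p ∈ Nat.primesLE z, p), ∑ i, w i * ∏ l, (ic z (u + a i l) / DZ z)
      = W * ∑ i, w i * SZ z (a i) := by
    rw [Finset.sum_comm, Finset.mul_sum]
    refine Finset.sum_congr rfl fun i _ => ?_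
    rw [← Finset.mul_sum, SZ_avg]
    ring
  rw [e1, e2] at h2
  have h3 : W * ∑ i, w i ≤ W * ∑ i, w i * SZ z (a i) := by
    have : W * ((Fintype.card ι : ℝ) * ∑ i, w i)
        = W * (((Fintype.card ι : ℝ) - 1) * ∑ i, w i) + W * ∑ i, w i := by ring
    linarith
  exact le_of_mul_le_mul_left h3 hWpos

/-- All tuples of the family, partial singular series. -/
theorem family_lower_aux (hSW : SW) (r K0 : ℕ) (hr1 : 1 ≤ r) {ε : ℝ} (hε : 0 < ε) :
    ∀ᶠ x : ℕ in atTop, ∀ (I ι : Type) [Fintype I] [Fintype ι] [DecidableEq ι] (w : I → ℝ)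
      (a : I → ι → ℕ), Fintype.card ι = r → (∀ i, 0 ≤ w i) →
      (∀ i l, (a i l : ℝ) ≤ x * Real.log x ^ K0) → FirstOrder w a →
      (1 - ε) * ((x / Real.log x ^ r) * ∑ i, w i * SZ (zz r x) (a i))
        ≤ ∑ i, w i * (cnt (a i) x : ℝ) := by
  classical
  have hrR : (1:ℝ) ≤ (r : ℝ) := by exact_mod_cast hr1
  set R : ℝ := (r : ℝ) with hR
  have hR0 : 0 < R := by linarith
  set ε1 : ℝ := min (ε / (8 * R)) (1 / 2) with hε1
  have hε1pos : 0 < ε1 := lt_min (by positivity) (by norm_num)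
  have hε1le : ε1 ≤ ε / (8 * R) := min_le_left _ _
  have hL : ∀ᶠ x : ℕ in atTop, 8 * R / ε ≤ Real.log x :=
    (Real.tendsto_log_atTop.comp tendsto_natCast_atTop_atTop).eventually_ge_atTop _
  filter_upwards [cl_lower2 hSW r K0 hε1pos (r + 1), cl_upper r (r + 1), hL,
    eventually_ge_atTop 2] with x hx1 hx2 hx3 hx4
  intro I ι _ _ _ w a hcardI hw hax hfo
  have hxpos : (0:ℝ) < x := by exact_mod_cast (by omega : 0 < x)
  have hLpos : 0 < Real.log x := lt_of_lt_of_le (by positivity) hx3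
  set z := zz r x with hz
  set b := bb r x with hb
  set X : ℝ := x / Real.log x ^ r with hX
  have hXpos : 0 < X := by positivity
  set G : ℝ := ∑ i, w i * SZ z (a i) with hG
  set Wt : ℝ := ∑ i, w i with hWt
  have hb0 : 0 ≤ b := by
    rw [hb]; unfold bb
    exact inv_nonneg.mpr (mul_nonneg (DZ_pos _).le hLpos.le)
  have hpd : Wt ≤ G := family_posdef w a hfo z
  have hWt0 : 0 ≤ Wt := Finset.sum_nonneg fun i _ => hw i
  have hG0 : 0 ≤ G := hWt0.trans hpd
  -- the first order inequality, summed over `n`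
  have hpeel : ∑ i, w i * ∑ l, (b ^ (r - 1) * ∑ n ∈ Icc 1 x, ip (n + a i l) *
          ∏ l' ∈ univ.erase l, ic z (n + a i l'))
      ≤ ∑ i, w i * (cnt (a i) x : ℝ)
        + (R - 1) * ∑ i, w i * (b ^ r * ∑ n ∈ Icc 1 x, ∏ l, ic z (n + a i l)) := by
    have h1 : ∀ n : ℕ, ∑ i, w i * ∑ l, (ip (n + a i l) *
          ∏ l' ∈ univ.erase l, (b * ic z (n + a i l')))
        ≤ ∑ i, w i * ∏ l, ip (n + a i l)
          + ((Fintype.card ι : ℝ) - 1) * ∑ i, w i * ∏ l, (b * ic z (n + a i l)) := by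
      intro n
      exact hfo (fun m => ip (n + m)) (fun m => b * ic z (n + m)) (fun m => ip_nonneg _)
        (fun m => mul_nonneg hb0 (ic_nonneg _ _))
    have h2 := Finset.sum_le_sum fun n (_ : n ∈ Icc 1 x) => h1 n
    rw [Finset.sum_add_distrib, ← Finset.mul_sum, hcardI] at h2
    refine le_trans (le_of_eq ?_) (h2.trans (le_of_eq ?_))
    · conv_rhs => rw [Finset.sum_comm]
      refine Finset.sum_congr rfl fun i _ => ?_
      conv_rhs => rw [← Finset.mul_sum, Finset.sum_comm]
      congr 1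
      refine Finset.sum_congr rfl fun l _ => ?_
      rw [Finset.mul_sum]
      refine Finset.sum_congr rfl fun n _ => ?_
      rw [Finset.prod_mul_distrib, Finset.prod_const, Finset.card_erase_of_mem (mem_univ _),
        card_univ, hcardI]
      ring
    · congr 1
      · rw [Finset.sum_comm]
        refine Finset.sum_congr rfl fun i _ => ?_
        rw [← Finset.mul_sum, cnt_eq]
      · congr 1
        rw [Finset.sum_comm]
        refine Finset.sum_congr rfl fun i _ => ?_
        rw [← Finset.mul_sum]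
        congr 1
        rw [Finset.mul_sum]
        refine Finset.sum_congr rfl fun n _ => ?_
        rw [Finset.prod_mul_distrib, Finset.prod_const, card_univ, hcardI]
  set S0 : ℝ := ∑ i, w i * (cnt (a i) x : ℝ) with hS0
  set TT0 : ℝ := ∑ i, w i * (b ^ r * ∑ n ∈ Icc 1 x, ∏ l, ic z (n + a i l)) with hTT
  set Sd : ℝ := ∑ i, w i * ∑ l, (b ^ (r - 1) * ∑ n ∈ Icc 1 x, ip (n + a i l) *
          ∏ l' ∈ univ.erase l, ic z (n + a i l')) with hSd
  have hlow : R * ((1 - ε1) * (X * G) - x / Real.log x ^ (r + 1) * Wt) ≤ Sd := by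
    have h1 : ∀ i, R * ((1 - ε1) * X * SZ z (a i) - x / Real.log x ^ (r + 1))
        ≤ ∑ l, (b ^ (r - 1) * ∑ n ∈ Icc 1 x, ip (n + a i l) *
          ∏ l' ∈ univ.erase l, ic z (n + a i l')) := by
      intro i
      have h2 : ∀ l ∈ (univ : Finset ι), (1 - ε1) * X * SZ z (a i) - x / Real.log x ^ (r + 1)
          ≤ b ^ (r - 1) * ∑ n ∈ Icc 1 x, ip (n + a i l) *
            ∏ l' ∈ univ.erase l, ic z (n + a i l') := fun l _ =>
        hx1 ι (a i) l hcardI (hax i l)
      have h3 := Finset.sum_le_sum h2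
      rw [Finset.sum_const, card_univ, hcardI, nsmul_eq_mul] at h3
      exact h3
    have h4 : ∑ i, w i * (R * ((1 - ε1) * X * SZ z (a i) - x / Real.log x ^ (r + 1))) ≤ Sd :=
      Finset.sum_le_sum fun i _ => mul_le_mul_of_nonneg_left (h1 i) (hw i)
    refine le_trans (le_of_eq ?_) h4
    rw [hG, hWt, Finset.mul_sum, Finset.mul_sum, Finset.mul_sum, ← Finset.sum_sub_distrib,
      Finset.mul_sum]
    refine Finset.sum_congr rfl fun i _ => ?_
    ring
  have hup : TT0 ≤ X * G + x / Real.log x ^ (r + 1) * Wt := by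
    have h1 : ∀ i, b ^ r * ∑ n ∈ Icc 1 x, ∏ l, ic z (n + a i l)
        ≤ X * SZ z (a i) + x / Real.log x ^ (r + 1) := fun i => hx2 ι (a i) hcardI
    have h2 : TT0 ≤ ∑ i, w i * (X * SZ z (a i) + x / Real.log x ^ (r + 1)) :=
      Finset.sum_le_sum fun i _ => mul_le_mul_of_nonneg_left (h1 i) (hw i)
    refine h2.trans (le_of_eq ?_)
    rw [hG, hWt, Finset.mul_sum, Finset.mul_sum, ← Finset.sum_add_distrib]
    refine Finset.sum_congr rfl fun i _ => ?_
    ring
  have herr : x / Real.log x ^ (r + 1) * Wt ≤ (1 / Real.log x) * (X * G) := by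
    have e : (x:ℝ) / Real.log x ^ (r + 1) = (1 / Real.log x) * X := by
      rw [hX, pow_succ]
      field_simp
    rw [e, mul_assoc]
    gcongr
  have hlogR : 2 * R * (1 / Real.log x) ≤ ε / 4 := by
    rw [mul_one_div, div_le_iff₀ hLpos]
    have := (div_le_iff₀ hε).mp hx3
    nlinarith only [this]
  have hRε : R * (2 * ε1) ≤ ε / 4 := by
    have := mul_le_mul_of_nonneg_left hε1le (by (clear * - hr1; positivity) : 0 ≤ 2 * R)
    calc R * (2 * ε1) = 2 * R * ε1 := by ring
      _ ≤ 2 * R * (ε / (8 * R)) := this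
      _ = ε / 4 := by field_simp; ring
  have hXG : 0 ≤ X * G := by (clear * - hx4 hLpos hG0; positivity)
  have h3 : R * ((1 - ε1) * (X * G) - (1 / Real.log x) * (X * G)) ≤ Sd := by
    refine le_trans ?_ hlow
    exact mul_le_mul_of_nonneg_left (by linarith only [herr]) hR0.le
  have h4 : (R - 1) * TT0 ≤ (R - 1) * (X * G + (1 / Real.log x) * (X * G)) :=
    mul_le_mul_of_nonneg_left (by linarith only [hup, herr]) (by linarith only [hrR])
  have h5 : (1 - ε) * (X * G) ≤ R * ((1 - ε1) * (X * G) - (1 / Real.log x) * (X * G))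
      - (R - 1) * (X * G + (1 / Real.log x) * (X * G)) := by
    have h6 : R * ((1 - ε1) * (X * G) - (1 / Real.log x) * (X * G))
      - (R - 1) * (X * G + (1 / Real.log x) * (X * G))
      = (1 - R * ε1 - (2 * R - 1) * (1 / Real.log x)) * (X * G) := by ring
    rw [h6]
    refine mul_le_mul_of_nonneg_right ?_ hXG
    have h7 : (2 * R - 1) * (1 / Real.log x) ≤ 2 * R * (1 / Real.log x) := by
      have : 0 ≤ 1 / Real.log x := by (clear * - hLpos; positivity)
      nlinarith only [this]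
    have h8 : 0 ≤ R * ε1 := by (clear * - hr1 hε; positivity)
    linarith only [hε, hlogR, hRε, h7]
  linarith only [hpeel, h3, h4, h5]

end Pool.Agent.NP
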