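import Pool.Agent.Lib.NP.Defs

/-!
# Hypercubes percolate

`cubeV m 0` and `cubeV m 1` are the vertices of `{0,1}^m` of even and odd weight; the edges are the pairs
which differ in exactly one coordinate.

An edge is a word in `{0, 1, *}` with exactly one `*`. For `i ≠ i'` and `c = 0, 1` the folding `cubeFold i i' c`
maps `(x_i, x_i')` to `(x_i' + c, x_i + c)`; side `-1` is `(0, c + 1)`, side `1` is `(1, c)`. The potential
`∑ k, (m - k) * (x_k + y_k)` of the edge `(x, y)` is lowered by every folding that changes the edge, if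
`i < i'` or `c = 1`, and only the edge `0..0*` is fixed by all of them.
-/

set_option autoImplicit false

open Finset

namespace Pool.Agent.NP

/-- Percolation by a potential function. -/
theorem percolates_of_potential {d : ℕ} {V : Fin d → Type} [∀ j, Fintype (V j)]
    [∀ j, DecidableEq (V j)] {H : Finset ((j : Fin d) → V j)} (P : ((j : Fin d) → V j) → ℕ)
    (e₀ : (j : Fin d) → V j) (Fam : Set (Folding H))
    (hle : ∀ f ∈ Fam, ∀ e ∈ H, P (f.map e) ≤ P e)
    (hlt : ∀ e ∈ H, e ≠ e₀ → ∃ f ∈ Fam, P (f.map e) < P e) : Percolates H := by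
  classical
  set tot : List (Folding H) → ℕ :=
    fun L => ∑ e ∈ H, P (L.foldr (fun f e' => f.map e') e) with htot
  have hmem : ∀ (L : List (Folding H)) (e : (j : Fin d) → V j), e ∈ H →
      L.foldr (fun f e' => f.map e') e ∈ H := by
    intro L e he
    induction L with
    | nil => exact he
    | cons f L ih =>
      rw [List.foldr_cons]
      unfold Folding.map
      split_ifs
      · exact f.aut _ ih
      · exact ih
  obtain ⟨L, hL⟩ : sInf (Set.range tot) ∈ Set.range tot := Nat.sInf_mem ⟨_, Set.mem_range_self []⟩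
  have hmin : ∀ L', tot L ≤ tot L' := fun L' => by
    rw [hL]
    exact Nat.sInf_le (Set.mem_range_self L')
  refine ⟨L, e₀, fun e he => ?_⟩
  by_contra hne
  obtain ⟨f, hf, hlt'⟩ := hlt _ (hmem L e he) hne
  have h1 : tot (f :: L) < tot L :=
    Finset.sum_lt_sum (fun e' he' => hle f hf _ (hmem L e' he')) ⟨e, he, hlt'⟩
  exact absurd (hmin (f :: L)) (not_le.2 h1)

/-- Vertices of the cube of weight congruent to `j` modulo 2. -/
abbrev cubeV (m : ℕ) (j : Fin 2) : Type := {x : Fin m → Fin 2 // ∑ i, x i = j}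

/-- The hypercube graph of dimension `m`. -/
def cube (m : ℕ) : Finset ((j : Fin 2) → cubeV m j) :=
  Finset.univ.filter (fun e => (Finset.univ.filter (fun i => (e 0).1 i ≠ (e 1).1 i)).card = 1)

/-- The reflection of the vertices. -/
def cubeRef {m : ℕ} (i i' : Fin m) (c : Fin 2) (x : Fin m → Fin 2) : Fin m → Fin 2 :=
  fun k => x (Equiv.swap i i' k) + (if k = i ∨ k = i' then c else 0)

theorem cubeRef_sum {m : ℕ} {i i' : Fin m} (h : i ≠ i') (c : Fin 2) (x : Fin m → Fin 2) :
    ∑ k, cubeRef i i' c x k = ∑ k, x k := by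
  unfold cubeRef
  rw [Finset.sum_add_distrib, Equiv.sum_comp (Equiv.swap i i') x]
  have h1 : (∑ k, if k = i ∨ k = i' then c else 0) = c + c := by
    have h2 : ∀ k : Fin m, (if k = i ∨ k = i' then c else 0) =
        (if k = i then c else 0) + (if k = i' then c else 0) := by
      intro k
      by_cases h3 : k = i
      · subst h3
        simp [h]
      · simp [h3]
    rw [Finset.sum_congr rfl fun k _ => h2 k, Finset.sum_add_distrib]
    simp
  rw [h1]
  have h2 : ∀ c : Fin 2, c + c = 0 := by decide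
  rw [h2, add_zero]

theorem cubeRef_left {m : ℕ} (i i' : Fin m) (c : Fin 2) (x : Fin m → Fin 2) :
    cubeRef i i' c x i = x i' + c := by
  simp [cubeRef]

theorem cubeRef_right {m : ℕ} (i i' : Fin m) (c : Fin 2) (x : Fin m → Fin 2) :
    cubeRef i i' c x i' = x i + c := by
  simp [cubeRef]

theorem cubeRef_other {m : ℕ} {i i' k : Fin m} (h : k ≠ i) (h' : k ≠ i') (c : Fin 2)
    (x : Fin m → Fin 2) : cubeRef i i' c x k = x k := by
  simp [cubeRef, h, h', Equiv.swap_apply_of_ne_of_ne h h']

theorem cubeRef_inv {m : ℕ} (i i' : Fin m) (c : Fin 2) (x : Fin m → Fin 2) :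
    cubeRef i i' c (cubeRef i i' c x) = x := by
  have h2 : ∀ c d : Fin 2, d + c + c = d := by decide
  funext k
  by_cases h : k = i
  · subst h
    rw [cubeRef_left, cubeRef_right, h2]
  by_cases h' : k = i'
  · subst h'
    rw [cubeRef_right, cubeRef_left, h2]
  rw [cubeRef_other h h', cubeRef_other h h']

/-- The side of a vertex. -/
def cubeSide {m : ℕ} (i i' : Fin m) (c : Fin 2) (x : Fin m → Fin 2) : ℤ :=
  if x i = 0 ∧ x i' = c + 1 then -1 else if x i = 1 ∧ x i' = c then 1 else 0

/-- The folding. -/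
def cubeFold {m : ℕ} (i i' : Fin m) (h : i ≠ i') (c : Fin 2) : Folding (cube m) where
  s := fun _ x => ⟨cubeRef i i' c x.1, by rw [cubeRef_sum h]; exact x.2⟩
  side := fun _ x => cubeSide i i' c x.1
  inv := fun _ x => Subtype.ext (cubeRef_inv i i' c x.1)
  fix := by
    intro j x hx
    refine Subtype.ext (funext fun k => ?_)
    show cubeRef i i' c x.1 k = x.1 k
    have h1 : ∀ a b c : Fin 2,
        (if a = 0 ∧ b = c + 1 then (-1 : ℤ) else if a = 1 ∧ b = c then 1 else 0) = 0 →
        b + c = a ∧ a + c = b := by decide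
    have h2 := h1 _ _ _ hx
    by_cases hk : k = i
    · rw [hk, cubeRef_left]; exact h2.1
    by_cases hk' : k = i'
    · rw [hk', cubeRef_right]; exact h2.2
    exact cubeRef_other hk hk' c x.1
  flip := by
    intro j x
    show cubeSide i i' c (cubeRef i i' c x.1) = - cubeSide i i' c x.1
    unfold cubeSide
    rw [cubeRef_left, cubeRef_right]
    have h1 : ∀ a b c : Fin 2,
        (if b + c = 0 ∧ a + c = c + 1 then (-1 : ℤ) else if b + c = 1 ∧ a + c = c then 1 else 0) =
        -(if a = 0 ∧ b = c + 1 then (-1 : ℤ) else if a = 1 ∧ b = c then 1 else 0) := by decide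
    exact h1 _ _ _
  three := by
    intro j x
    show cubeSide i i' c x.1 = -1 ∨ cubeSide i i' c x.1 = 0 ∨ cubeSide i i' c x.1 = 1
    unfold cubeSide
    split_ifs
    · exact Or.inl rfl
    · exact Or.inr (Or.inr rfl)
    · exact Or.inr (Or.inl rfl)
  aut := by
    intro e he
    rw [cube, Finset.mem_filter] at he ⊢
    refine ⟨Finset.mem_univ _, Eq.trans ?_ he.2⟩
    refine Finset.card_equiv (Equiv.swap i i') fun k => ?_
    rw [Finset.mem_filter, Finset.mem_filter]
    simp only [Finset.mem_univ, true_and]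
    show cubeRef i i' c (e 0).1 k ≠ cubeRef i i' c (e 1).1 k ↔ _
    unfold cubeRef
    rw [not_iff_not]
    exact add_left_inj _
  cut := by
    intro e he j j' h1 h2
    have h3 : ∀ x : Fin m → Fin 2, cubeSide i i' c x = -1 → x i = 0 ∧ x i' = c + 1 := by
      intro x hx
      unfold cubeSide at hx
      by_contra h4
      rw [if_neg h4] at hx
      split_ifs at hx
    have h4 : ∀ x : Fin m → Fin 2, cubeSide i i' c x = 1 → x i = 1 ∧ x i' = c := by
      intro x hx
      unfold cubeSide at hx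
      by_contra h4
      rw [if_neg h4] at hx
      split_ifs at hx
      omega
    have h5 := h3 _ h1
    have h6 := h4 _ h2
    have h7 : ∀ c : Fin 2, c + 1 ≠ c := by decide
    have hjj : j ≠ j' := by
      intro hj
      subst hj
      rw [h5.1] at h6
      exact absurd h6.1 (by decide)
    have h8 : (e 0).1 i ≠ (e 1).1 i ∧ (e 0).1 i' ≠ (e 1).1 i' := by
      have h9 : ∀ j j' : Fin 2, j ≠ j' → (j = 0 ∧ j' = 1) ∨ (j = 1 ∧ j' = 0) := by decide
      rcases h9 j j' hjj with ⟨rfl, rfl⟩ | ⟨rfl, rfl⟩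
      · rw [h5.1, h6.1, h5.2, h6.2]
        exact ⟨by decide, h7 c⟩
      · rw [h5.1, h6.1, h5.2, h6.2]
        exact ⟨by decide, (h7 c).symm⟩
    rw [cube, Finset.mem_filter, Finset.card_eq_one] at he
    obtain ⟨-, k, hk⟩ := he
    have h10 : i ∈ ({k} : Finset (Fin m)) := by
      rw [← hk, Finset.mem_filter]
      exact ⟨Finset.mem_univ _, h8.1⟩
    have h11 : i' ∈ ({k} : Finset (Fin m)) := by
      rw [← hk, Finset.mem_filter]
      exact ⟨Finset.mem_univ _, h8.2⟩
    rw [Finset.mem_singleton] at h10 h11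
    exact h (h10.trans h11.symm)

/-- The potential of an edge. -/
def cubePot {m : ℕ} (e : (j : Fin 2) → cubeV m j) : ℕ :=
  ∑ k : Fin m, (m - (k : ℕ)) * (((e 0).1 k : ℕ) + ((e 1).1 k : ℕ))

theorem sum_lt_of_two {m : ℕ} {i i' : Fin m} (h : i ≠ i') (f g : Fin m → ℕ)
    (hfg : ∀ k, k ≠ i → k ≠ i' → f k = g k) (hlt : f i + f i' < g i + g i') :
    ∑ k, f k < ∑ k, g k := by
  rw [← Finset.add_sum_erase univ f (Finset.mem_univ i),
    ← Finset.add_sum_erase univ g (Finset.mem_univ i)]
  have hi' : i' ∈ univ.erase i := Finset.mem_erase.2 ⟨h.symm, Finset.mem_univ _⟩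
  rw [← Finset.add_sum_erase _ f hi', ← Finset.add_sum_erase _ g hi']
  have h1 : ∑ k ∈ (univ.erase i).erase i', f k = ∑ k ∈ (univ.erase i).erase i', g k := by
    refine Finset.sum_congr rfl fun k hk => ?_
    rw [Finset.mem_erase, Finset.mem_erase] at hk
    exact hfg k hk.2.1 hk.1
  rw [h1]
  omega

theorem cubeFold_lt {m : ℕ} {i i' : Fin m} (h : i ≠ i') (c : Fin 2) (hc : i < i' ∨ c = 1)
    (e : (j : Fin 2) → cubeV m j) (he : e ∈ cube m) (j : Fin 2) (h1 : (e j).1 i = 1)
    (h2 : (e j).1 i' = c) : cubePot ((cubeFold i i' h c).map e) < cubePot e := by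
  have hmap : (cubeFold i i' h c).map e = fun j => (cubeFold i i' h c).s j (e j) := by
    unfold Folding.map
    rw [if_pos]
    refine ⟨j, ?_⟩
    show cubeSide i i' c (e j).1 = 1
    unfold cubeSide
    rw [h1, h2]
    rw [if_neg (fun h => absurd h.1 (by decide)), if_pos ⟨rfl, rfl⟩]
  rw [hmap]
  refine sum_lt_of_two h _ _ ?_ ?_
  · intro k hk hk'
    show (m - (k : ℕ)) * ((cubeRef i i' c (e 0).1 k : ℕ) + (cubeRef i i' c (e 1).1 k : ℕ)) = _
    rw [cubeRef_other hk hk', cubeRef_other hk hk']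
  · show (m - (i : ℕ)) * ((cubeRef i i' c (e 0).1 i : ℕ) + (cubeRef i i' c (e 1).1 i : ℕ)) +
      (m - (i' : ℕ)) * ((cubeRef i i' c (e 0).1 i' : ℕ) + (cubeRef i i' c (e 1).1 i' : ℕ)) < _
    rw [cubeRef_left, cubeRef_left, cubeRef_right, cubeRef_right]
    have hnot : ¬ ((e 0).1 i ≠ (e 1).1 i ∧ (e 0).1 i' ≠ (e 1).1 i') := by
      rintro ⟨h8, h9⟩
      rw [cube, Finset.mem_filter, Finset.card_eq_one] at he
      obtain ⟨-, k, hk⟩ := he
      have h10 : i ∈ ({k} : Finset (Fin m)) := by
        rw [← hk, Finset.mem_filter]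
        exact ⟨Finset.mem_univ _, h8⟩
      have h11 : i' ∈ ({k} : Finset (Fin m)) := by
        rw [← hk, Finset.mem_filter]
        exact ⟨Finset.mem_univ _, h9⟩
      rw [Finset.mem_singleton] at h10 h11
      exact h (h10.trans h11.symm)
    have hex : ((e 0).1 i = 1 ∧ (e 0).1 i' = c) ∨ ((e 1).1 i = 1 ∧ (e 1).1 i' = c) := by
      have h9 : ∀ j : Fin 2, j = 0 ∨ j = 1 := by decide
      rcases h9 j with rfl | rfl
      · exact Or.inl ⟨h1, h2⟩
      · exact Or.inr ⟨h1, h2⟩
    have hA : 0 < m - (i : ℕ) := by have := i.2; omega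
    have hB : 0 < m - (i' : ℕ) := by have := i'.2; omega
    have hAB : c = 1 ∨ m - (i' : ℕ) < m - (i : ℕ) := by
      rcases hc with hc | hc
      · right
        have : (i : ℕ) < (i' : ℕ) := hc
        have := i'.2
        omega
      · exact Or.inl hc
    generalize m - (i : ℕ) = A at hA hAB ⊢
    generalize m - (i' : ℕ) = B at hB hAB ⊢
    generalize (e 0).1 i = a at hnot hex ⊢
    generalize (e 1).1 i = a' at hnot hex ⊢
    generalize (e 0).1 i' = b at hnot hex ⊢
    generalize (e 1).1 i' = b' at hnot hex ⊢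
    have h01 : ∀ j : Fin 2, j = 0 ∨ j = 1 := by decide
    have e00 : (((0 : Fin 2) + 0 : Fin 2) : ℕ) = 0 := rfl
    have e01 : (((0 : Fin 2) + 1 : Fin 2) : ℕ) = 1 := rfl
    have e10 : (((1 : Fin 2) + 0 : Fin 2) : ℕ) = 1 := rfl
    have e11 : (((1 : Fin 2) + 1 : Fin 2) : ℕ) = 0 := rfl
    have e0 : ((0 : Fin 2) : ℕ) = 0 := rfl
    have e1 : ((1 : Fin 2) : ℕ) = 1 := rfl
    have hz : ¬ ((0 : Fin 2) = 1) := by decide
    have hz' : ¬ ((1 : Fin 2) = 0) := by decide
    rcases h01 c with rfl | rfl <;> rcases h01 a with rfl | rfl <;> rcases h01 a' with rfl | rfl <;>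
      rcases h01 b with rfl | rfl <;> rcases h01 b' with rfl | rfl <;>
      simp only [e00, e01, e10, e11, e0, e1, hz, hz', ne_eq, not_true_eq_false, not_false_eq_true,
        and_self, and_true, and_false, or_self, or_false, false_or,
        or_true, true_or] at hnot hex hAB ⊢ <;> omega

/-- The edge `0..0*`. -/
def cubeBase (m : ℕ) (j : Fin 2) (k : Fin m) : Fin 2 := if (k : ℕ) + 1 = m then j else 0

theorem cubeBase_sum (m : ℕ) (hm : 1 ≤ m) (j : Fin 2) : ∑ k, cubeBase m j k = j := by
  unfold cubeBase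
  have h1 : ∀ k : Fin m, (if (k : ℕ) + 1 = m then j else 0) =
      if k = ⟨m - 1, by omega⟩ then j else 0 := by
    intro k
    congr 1
    rw [Fin.ext_iff, eq_iff_iff]
    show (k : ℕ) + 1 = m ↔ (k : ℕ) = m - 1
    omega
  rw [Finset.sum_congr rfl fun k _ => h1 k]
  simp

theorem percolates_cube (m : ℕ) (hm : 1 ≤ m) : Percolates (cube m) := by
  classical
  refine percolates_of_potential cubePot (fun j => ⟨cubeBase m j, cubeBase_sum m hm j⟩)
    {f | ∃ (i i' : Fin m) (h : i ≠ i') (c : Fin 2), (i < i' ∨ c = 1) ∧ f = cubeFold i i' h c} ?_ ?_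
  · rintro _ ⟨i, i', h, c, hc, rfl⟩ e he
    by_cases hex : ∃ j, (cubeFold i i' h c).side j (e j) = 1
    · obtain ⟨j, hj⟩ := hex
      have h4 : (e j).1 i = 1 ∧ (e j).1 i' = c := by
        have hx : cubeSide i i' c (e j).1 = 1 := hj
        unfold cubeSide at hx
        by_contra h4
        rw [if_neg h4] at hx
        split_ifs at hx
        omega
      exact (cubeFold_lt h c hc e he j h4.1 h4.2).le
    · unfold Folding.map
      rw [if_neg hex]
  · intro e he hne
    have he' := he
    rw [cube, Finset.mem_filter, Finset.card_eq_one] at he'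
    obtain ⟨-, q, hq⟩ := he'
    have hqd : (e 0).1 q ≠ (e 1).1 q := by
      have : q ∈ ({q} : Finset (Fin m)) := Finset.mem_singleton_self q
      rw [← hq, Finset.mem_filter] at this
      exact this.2
    have hsame : ∀ k, k ≠ q → (e 0).1 k = (e 1).1 k := by
      intro k hk
      by_contra h
      have : k ∈ ({q} : Finset (Fin m)) := by
        rw [← hq, Finset.mem_filter]
        exact ⟨Finset.mem_univ _, h⟩
      exact hk (Finset.mem_singleton.1 this)
    obtain ⟨j, hj⟩ : ∃ j : Fin 2, (e j).1 q = 1 := by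
      have h9 : ∀ a b : Fin 2, a ≠ b → a = 1 ∨ b = 1 := by decide
      rcases h9 _ _ hqd with h | h
      · exact ⟨0, h⟩
      · exact ⟨1, h⟩
    have hall : ∀ (j : Fin 2) (k : Fin m), k ≠ q → (e j).1 k = (e 0).1 k := by
      intro j k hk
      have h9 : ∀ j : Fin 2, j = 0 ∨ j = 1 := by decide
      rcases h9 j with rfl | rfl
      · rfl
      · exact (hsame k hk).symm
    by_cases h1 : ∃ k, k ≠ q ∧ (e 0).1 k = 1
    · obtain ⟨k, hk, hk1⟩ := h1
      refine ⟨cubeFold q k hk.symm 1, ⟨q, k, hk.symm, 1, Or.inr rfl, rfl⟩, ?_⟩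
      exact cubeFold_lt hk.symm 1 (Or.inr rfl) e he j hj (by rw [hall j k hk, hk1])
    · have h0 : ∀ k, k ≠ q → (e 0).1 k = 0 := by
        intro k hk
        have h9 : ∀ a : Fin 2, a ≠ 1 → a = 0 := by decide
        exact h9 _ fun h => h1 ⟨k, hk, h⟩
      by_cases h2 : (q : ℕ) + 1 = m
      · exfalso
        apply hne
        funext j
        refine Subtype.ext (funext fun k => ?_)
        show (e j).1 k = cubeBase m j k
        by_cases hk : k = q
        · subst hk
          unfold cubeBase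
          rw [if_pos h2]
          have h3 := (e j).2
          rw [← Finset.add_sum_erase univ _ (Finset.mem_univ k),
            Finset.sum_eq_zero (s := univ.erase k), add_zero] at h3
          · exact h3
          · intro k' hk'
            rw [hall j k' (Finset.ne_of_mem_erase hk'), h0 k' (Finset.ne_of_mem_erase hk')]
        · unfold cubeBase
          rw [if_neg, hall j k hk, h0 k hk]
          intro h3
          exact hk (Fin.ext (by omega))
      · have hq2 := q.2
        have hlt : q < (⟨m - 1, by omega⟩ : Fin m) := by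
          rw [Fin.lt_def]
          show (q : ℕ) < m - 1
          omega
        refine ⟨cubeFold q ⟨m - 1, by omega⟩ hlt.ne 0, ⟨_, _, hlt.ne, 0, Or.inl hlt, rfl⟩, ?_⟩
        refine cubeFold_lt hlt.ne 0 (Or.inl hlt) e he j hj ?_
        rw [hall j _ hlt.ne', h0 _ hlt.ne']

end Pool.Agent.NP
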