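import Pool.Agent.Lib.NP.Defs

/-!
# Even cycles percolate

The cycle of length `2m`: classes `V 0 = V 1 = ZMod m`, edges `(i, i)` and `(i, i + 1)`.
Positions on the cycle `Z / 2m`: `(0, i)` at `2i`, `(1, i)` at `2i - 1`; the edge with the end positions `q, q + 1`
is called `q`.

Sketch. For an integer `s` the reflection `x ↦ 2s - x` of `Z / 2m` preserves parity, fixes the positions `s` and `s + m`;
`side` is `1` on `s + 1, …, s + m - 1` and `-1` on `s - 1, …, s - m + 1` (modulo `2m`). The folding maps the edge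
`q ∈ {s, …, s + m - 1}` to `2s - 1 - q` and fixes the other edges. Folding at `s = m` maps all the edges into
`{0, …, m - 1}`; then folding at `s = n - 1` maps `{0, …, n - 1}` into `{0, …, n - 2}` for `n = m, m - 1, …, 2`.
The composition is the constant edge `0`. The case `m = 1` (one edge) is trivial.
-/

set_option autoImplicit false

open Finset

namespace Pool.Agent.NP

/-- The cycle of length `2m`. -/
def cyc (m : ℕ) [NeZero m] : Finset ((j : Fin 2) → (fun _ : Fin 2 => ZMod m) j) :=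
  Finset.univ.filter (fun e => e 1 = e 0 ∨ e 1 = e 0 + 1)

namespace CycAux

variable {m : ℕ} [NeZero m]

/-- relative position -/
def rel (m : ℕ) [NeZero m] (s : ℤ) (j : Fin 2) (v : ZMod m) : ℤ :=
  (2 * (v.val : ℤ) - ((j : ℕ) : ℤ) - s) % (2 * (m : ℤ))

/-- the side of a vertex -/
def sd (m : ℕ) [NeZero m] (s : ℤ) (j : Fin 2) (v : ZMod m) : ℤ :=
  if rel m s j v = 0 ∨ rel m s j v = m then 0 else if rel m s j v < m then 1 else -1

/-- the reflection -/
def rf (m : ℕ) [NeZero m] (s : ℤ) (j : Fin 2) (v : ZMod m) : ZMod m :=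
  (s : ZMod m) + ((j : ℕ) : ZMod m) - v

theorem mpos : (0 : ℤ) < m := by
  have := NeZero.pos m
  exact_mod_cast this

theorem val_cast (v : ZMod m) : ((v.val : ℤ) : ZMod m) = v := by
  rw [Int.cast_natCast, ZMod.natCast_zmod_val]

theorem val_congr (a : ℤ) : ∃ k : ℤ, (((a : ZMod m)).val : ℤ) = a + m * k := by
  have h : (((((a : ZMod m)).val : ℤ) : ℤ) : ZMod m) = ((a : ℤ) : ZMod m) := val_cast _
  rw [ZMod.intCast_eq_intCast_iff_dvd_sub] at h
  obtain ⟨k, hk⟩ := h
  exact ⟨-k, by linarith⟩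

theorem rf_eq (s : ℤ) (j : Fin 2) (v : ZMod m) :
    rf m s j v = ((s + ((j : ℕ) : ℤ) - (v.val : ℤ) : ℤ) : ZMod m) := by
  unfold rf
  push_cast
  rw [ZMod.natCast_zmod_val]

theorem rel_nonneg (s : ℤ) (j : Fin 2) (v : ZMod m) : 0 ≤ rel m s j v :=
  Int.emod_nonneg _ (by have := mpos (m := m); omega)

theorem rel_lt (s : ℤ) (j : Fin 2) (v : ZMod m) : rel m s j v < 2 * m :=
  Int.emod_lt_of_pos _ (by have := mpos (m := m); omega)

theorem rel_spec (s : ℤ) (j : Fin 2) (v : ZMod m) :
    ∃ k : ℤ, rel m s j v = 2 * (v.val : ℤ) - ((j : ℕ) : ℤ) - s + 2 * m * k := by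
  refine ⟨-((2 * (v.val : ℤ) - ((j : ℕ) : ℤ) - s) / (2 * m)), ?_⟩
  unfold rel
  have := Int.emod_add_mul_ediv (2 * (v.val : ℤ) - ((j : ℕ) : ℤ) - s) (2 * m)
  linarith

theorem rel_rf (s : ℤ) (j : Fin 2) (v : ZMod m) :
    ∃ k : ℤ, rel m s j (rf m s j v) + rel m s j v = 2 * m * k := by
  obtain ⟨a, ha⟩ := rel_spec s j v
  obtain ⟨b, hb⟩ := rel_spec s j (rf m s j v)
  obtain ⟨c, hc⟩ := val_congr (m := m) (s + ((j : ℕ) : ℤ) - (v.val : ℤ))
  rw [← rf_eq] at hc
  refine ⟨a + b + c, ?_⟩
  rw [ha, hb, hc]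
  ring

theorem rel_rf' (s : ℤ) (j : Fin 2) (v : ZMod m) :
    (rel m s j v = 0 ∧ rel m s j (rf m s j v) = 0) ∨
    (rel m s j v ≠ 0 ∧ rel m s j (rf m s j v) = 2 * m - rel m s j v) := by
  obtain ⟨k, hk⟩ := rel_rf s j v
  have h1 := rel_nonneg s j v
  have h2 := rel_lt s j v
  have h3 := rel_nonneg s j (rf m s j v)
  have h4 := rel_lt s j (rf m s j v)
  have hm := mpos (m := m)
  have hk0 : 0 ≤ k := by
    by_contra h
    push Not at h
    nlinarith
  have hk2 : k < 2 := by
    by_contra h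
    push Not at h
    nlinarith
  have hk' : k = 0 ∨ k = 1 := by omega
  rcases hk' with rfl | rfl
  · left
    constructor <;> linarith
  · by_cases h0 : rel m s j v = 0
    · exfalso
      rw [h0] at hk
      linarith
    · right
      exact ⟨h0, by linarith⟩

theorem rf_rf (s : ℤ) (j : Fin 2) (v : ZMod m) : rf m s j (rf m s j v) = v := by
  unfold rf
  ring

theorem sd_flip (s : ℤ) (j : Fin 2) (v : ZMod m) : sd m s j (rf m s j v) = - sd m s j v := by
  unfold sd
  have hm := mpos (m := m)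
  have h1 := rel_nonneg s j v
  have h2 := rel_lt s j v
  rcases rel_rf' s j v with ⟨h, h'⟩ | ⟨h, h'⟩
  · rw [h, h']
    simp
  · rw [h']
    generalize rel m s j v = r at *
    by_cases hb : r = m
    · rw [if_pos (Or.inr (by omega)), if_pos (Or.inr hb)]
      simp
    · by_cases hd : r < m
      · rw [if_neg (show ¬ (2 * (m : ℤ) - r = 0 ∨ 2 * (m : ℤ) - r = m) by omega),
          if_neg (show ¬ (2 * (m : ℤ) - r < m) by omega),
          if_neg (show ¬ (r = 0 ∨ r = m) by omega), if_pos hd]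
      · rw [if_neg (show ¬ (2 * (m : ℤ) - r = 0 ∨ 2 * (m : ℤ) - r = m) by omega),
          if_pos (show (2 * (m : ℤ) - r < m) by omega),
          if_neg (show ¬ (r = 0 ∨ r = m) by omega), if_neg hd]
        simp

theorem sd_fix (s : ℤ) (j : Fin 2) (v : ZMod m) (h : sd m s j v = 0) : rf m s j v = v := by
  unfold sd at h
  obtain ⟨k, hk⟩ := rel_spec s j v
  have key : ∃ c : ℤ, s + ((j : ℕ) : ℤ) - (v.val : ℤ) = (v.val : ℤ) + m * c := by
    split_ifs at h with h1 h2
    · rcases h1 with h1 | h1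
      · exact ⟨2 * k, by rw [h1] at hk; linarith⟩
      · exact ⟨2 * k - 1, by rw [h1] at hk; linarith⟩
    · exact absurd h (by decide)
  obtain ⟨c, hc⟩ := key
  rw [rf_eq, hc]
  push_cast
  rw [ZMod.natCast_zmod_val, ZMod.natCast_self, zero_mul, add_zero]

theorem sd_three (s : ℤ) (j : Fin 2) (v : ZMod m) :
    sd m s j v = -1 ∨ sd m s j v = 0 ∨ sd m s j v = 1 := by
  unfold sd
  split_ifs
  · right; left; rfl
  · right; right; rfl
  · left; rfl

theorem rf_aut (s : ℤ) (e : (j : Fin 2) → (fun _ : Fin 2 => ZMod m) j) (he : e ∈ cyc m) :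
    (fun j => rf m s j (e j)) ∈ cyc m := by
  unfold cyc at he ⊢
  simp only [mem_filter, mem_univ, true_and] at he ⊢
  unfold rf
  simp only [Fin.val_zero, Nat.cast_zero, Fin.val_one, Nat.cast_one]
  rcases he with he | he
  · right
    rw [he]
    ring
  · left
    rw [he]
    ring

theorem sd_eq_neg (s : ℤ) (j : Fin 2) (v : ZMod m) (h : sd m s j v = -1) :
    (m : ℤ) < rel m s j v ∧ rel m s j v < 2 * m := by
  have h2 := rel_lt s j v
  unfold sd at h
  split_ifs at h with h1 h3
  push Not at h1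
  constructor
  · omega
  · omega

theorem sd_eq_one_iff (s : ℤ) (j : Fin 2) (v : ZMod m) :
    sd m s j v = 1 ↔ 0 < rel m s j v ∧ rel m s j v < m := by
  have h1 := rel_nonneg s j v
  unfold sd
  split_ifs with h3 h4
  · constructor
    · intro h; omega
    · intro h; omega
  · constructor
    · intro _; omega
    · intro _; rfl
  · constructor
    · intro h; exact absurd h (by decide)
    · intro h; omega

/-- the edges have adjacent ends -/
theorem adj (e : (j : Fin 2) → (fun _ : Fin 2 => ZMod m) j) (he : e ∈ cyc m) (s : ℤ) :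
    ∃ k : ℤ, rel m s 1 (e 1) = rel m s 0 (e 0) - 1 + 2 * m * k ∨
      rel m s 1 (e 1) = rel m s 0 (e 0) + 1 + 2 * m * k := by
  unfold cyc at he
  simp only [mem_filter, mem_univ, true_and] at he
  obtain ⟨a, ha⟩ := rel_spec s 0 (e 0)
  obtain ⟨b, hb⟩ := rel_spec s 1 (e 1)
  simp only [Fin.val_zero, Nat.cast_zero, Fin.val_one, Nat.cast_one, sub_zero] at ha hb
  rcases he with he | he
  · refine ⟨b - a, Or.inl ?_⟩
    rw [ha, hb, he]
    ring
  · obtain ⟨c, hc⟩ := val_congr (m := m) (((e 0).val : ℤ) + 1)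
    have h2 : (((((e 0).val : ℤ) + 1 : ℤ)) : ZMod m) = e 1 := by
      rw [he]
      push_cast
      rw [ZMod.natCast_zmod_val]
    rw [h2] at hc
    refine ⟨b - a + c, Or.inr ?_⟩
    rw [ha, hb, hc]
    ring

theorem no_cross {m' x y k : ℤ} (hm : 0 < m') (hx : 0 < x) (hx' : x < m') (hy : m' < y)
    (hy' : y < 2 * m') (h : y = x - 1 + 2 * m' * k ∨ y = x + 1 + 2 * m' * k) : False := by
  rcases lt_trichotomy k 0 with hk | hk | hk
  · have : 2 * m' * k ≤ - (2 * m') := by nlinarith
    rcases h with h | h <;> omega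
  · subst hk
    rcases h with h | h <;> omega
  · have : 2 * m' ≤ 2 * m' * k := by nlinarith
    rcases h with h | h <;> omega

/-- the folding at `s` -/
def fo (m : ℕ) [NeZero m] (s : ℤ) : Folding (cyc m) where
  s := rf m s
  side := sd m s
  inv := rf_rf s
  fix := sd_fix s
  flip := sd_flip s
  three := sd_three s
  aut := rf_aut s
  cut := by
    intro e he j j' h1 h2
    have hm := mpos (m := m)
    obtain ⟨k, hk⟩ := adj e he s
    have a := sd_eq_neg s j (e j) h1
    have b := (sd_eq_one_iff s j' (e j')).1 h2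
    fin_cases j <;> fin_cases j'
    · simp only [Fin.zero_eta] at a b
      omega
    · simp only [Fin.zero_eta, Fin.mk_one] at a b
      refine no_cross hm b.1 b.2 a.1 a.2 (k := -k) ?_
      rcases hk with hk | hk
      · right; rw [hk]; ring
      · left; rw [hk]; ring
    · simp only [Fin.zero_eta, Fin.mk_one] at a b
      exact no_cross hm b.1 b.2 a.1 a.2 hk
    · simp only [Fin.mk_one] at a b
      omega

/-- the edge with the ends `q`, `q + 1` -/
def E (m : ℕ) [NeZero m] (q : ℤ) : (j : Fin 2) → (fun _ : Fin 2 => ZMod m) j :=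
  ![(((q + 1) / 2 : ℤ) : ZMod m), ((q / 2 + 1 : ℤ) : ZMod m)]

theorem E_mem (q : ℤ) : E m q ∈ cyc m := by
  unfold cyc E
  simp only [mem_filter, mem_univ, true_and, Matrix.cons_val_zero, Matrix.cons_val_one]
  rcases Int.even_or_odd' q with ⟨c, hc | hc⟩
  · right
    have h1 : (q + 1) / 2 = c := by omega
    have h2 : q / 2 = c := by omega
    rw [h1, h2]
    push_cast
    rfl
  · left
    have h1 : (q + 1) / 2 = c + 1 := by omega
    have h2 : q / 2 = c := by omega
    rw [h1, h2]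

theorem E_refl (s q : ℤ) : (fun j => rf m s j (E m q j)) = E m (2 * s - 1 - q) := by
  funext j
  unfold E rf
  rcases Int.even_or_odd' q with ⟨c, hc | hc⟩
  · have h1 : (q + 1) / 2 = c := by omega
    have h2 : q / 2 = c := by omega
    have h3 : (2 * s - 1 - q + 1) / 2 = s - c := by omega
    have h4 : (2 * s - 1 - q) / 2 = s - c - 1 := by omega
    rw [h1, h2, h3, h4]
    fin_cases j
    · simp
    · simp only [Fin.mk_one, Nat.cast_one, Matrix.cons_val_one, Matrix.cons_val_fin_one]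
      push_cast
      ring
  · have h1 : (q + 1) / 2 = c + 1 := by omega
    have h2 : q / 2 = c := by omega
    have h3 : (2 * s - 1 - q + 1) / 2 = s - c - 1 := by omega
    have h4 : (2 * s - 1 - q) / 2 = s - c - 1 := by omega
    rw [h1, h2, h3, h4]
    fin_cases j
    · simp only [Fin.zero_eta, Nat.cast_zero, Matrix.cons_val_zero]
      push_cast
      ring
    · simp only [Fin.mk_one, Nat.cast_one, Matrix.cons_val_one, Matrix.cons_val_fin_one]
      push_cast
      ring

theorem rel_E (s q : ℤ) : ∃ a b : ℤ,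
    (rel m s 0 (E m q 0) = q - s + 2 * m * a ∧ rel m s 1 (E m q 1) = q + 1 - s + 2 * m * b) ∨
    (rel m s 0 (E m q 0) = q + 1 - s + 2 * m * a ∧ rel m s 1 (E m q 1) = q - s + 2 * m * b) := by
  obtain ⟨a, ha⟩ := rel_spec s 0 (E m q 0)
  obtain ⟨b, hb⟩ := rel_spec s 1 (E m q 1)
  simp only [Fin.val_zero, Nat.cast_zero, Fin.val_one, Nat.cast_one, sub_zero] at ha hb
  have e0 : E m q 0 = (((q + 1) / 2 : ℤ) : ZMod m) := rfl
  have e1 : E m q 1 = ((q / 2 + 1 : ℤ) : ZMod m) := rfl
  obtain ⟨c, hc⟩ := val_congr (m := m) ((q + 1) / 2)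
  obtain ⟨d, hd⟩ := val_congr (m := m) (q / 2 + 1)
  rw [← e0] at hc
  rw [← e1] at hd
  rcases Int.even_or_odd' q with ⟨r, hr | hr⟩
  · have h1 : (q + 1) / 2 = r := by omega
    have h2 : q / 2 = r := by omega
    rw [h1] at hc
    rw [h2] at hd
    refine ⟨a + c, b + d, Or.inl ⟨?_, ?_⟩⟩
    · rw [ha, hc, hr]; ring
    · rw [hb, hd, hr]; ring
  · have h1 : (q + 1) / 2 = r + 1 := by omega
    have h2 : q / 2 = r := by omega
    rw [h1] at hc
    rw [h2] at hd
    refine ⟨a + c, b + d, Or.inr ⟨?_, ?_⟩⟩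
    · rw [ha, hc, hr]; ring
    · rw [hb, hd, hr]; ring

theorem emod_unique {m' x y k : ℤ} (hm : 0 < m') (hx : 0 ≤ x) (hx' : x < 2 * m') (hy : 0 ≤ y)
    (hy' : y < 2 * m') (h : y = x + 2 * m' * k) : y = x := by
  rcases lt_trichotomy k 0 with hk | hk | hk
  · have : 2 * m' * k ≤ - (2 * m') := by nlinarith
    omega
  · subst hk
    omega
  · have : 2 * m' ≤ 2 * m' * k := by nlinarith
    omega

/-- reflected edges -/
theorem map_hi (hm2 : 2 ≤ m) (s q : ℤ) (h1 : s ≤ q) (h2 : q ≤ s + m - 1) :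
    (fo m s).map (E m q) = E m (2 * s - 1 - q) := by
  have hm := mpos (m := m)
  have hm2' : (2 : ℤ) ≤ m := by exact_mod_cast hm2
  unfold Folding.map
  rw [if_pos]
  · exact E_refl s q
  · obtain ⟨a, b, h | h⟩ := rel_E (m := m) s q
    · have r0 := emod_unique hm (x := q - s) (by omega) (by omega) (rel_nonneg s 0 _) (rel_lt s 0 _) h.1
      have r1 := emod_unique hm (x := q + 1 - s) (by omega) (by omega) (rel_nonneg s 1 _) (rel_lt s 1 _) h.2
      by_cases hq : q = s
      · refine ⟨1, (sd_eq_one_iff s 1 _).2 ?_⟩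
        rw [r1]
        omega
      · refine ⟨0, (sd_eq_one_iff s 0 _).2 ?_⟩
        rw [r0]
        omega
    · have r0 := emod_unique hm (x := q + 1 - s) (by omega) (by omega) (rel_nonneg s 0 _) (rel_lt s 0 _) h.1
      have r1 := emod_unique hm (x := q - s) (by omega) (by omega) (rel_nonneg s 1 _) (rel_lt s 1 _) h.2
      by_cases hq : q = s
      · refine ⟨0, (sd_eq_one_iff s 0 _).2 ?_⟩
        rw [r0]
        omega
      · refine ⟨1, (sd_eq_one_iff s 1 _).2 ?_⟩
        rw [r1]
        omega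

/-- fixed edges -/
theorem map_lo (s q : ℤ) (h1 : s - m ≤ q) (h2 : q ≤ s - 1) :
    (fo m s).map (E m q) = E m q := by
  have hm := mpos (m := m)
  unfold Folding.map
  rw [if_neg]
  rintro ⟨j, hj⟩
  have hj' := (sd_eq_one_iff s j _).1 hj
  have key : ∃ x k : ℤ, rel m s j (E m q j) = x + 2 * m * k ∧ (x = q - s ∨ x = q + 1 - s) := by
    obtain ⟨a, b, h | h⟩ := rel_E (m := m) s q
    · fin_cases j
      · exact ⟨_, a, h.1, Or.inl rfl⟩
      · exact ⟨_, b, h.2, Or.inr rfl⟩
    · fin_cases j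
      · exact ⟨_, a, h.1, Or.inr rfl⟩
      · exact ⟨_, b, h.2, Or.inl rfl⟩
  obtain ⟨x, k, hx, hxx⟩ := key
  rcases lt_trichotomy k 0 with hk | hk | hk
  · have : 2 * (m : ℤ) * k ≤ - (2 * m) := by nlinarith
    rcases hxx with rfl | rfl <;> omega
  · subst hk
    rcases hxx with rfl | rfl <;> omega
  · have : 2 * (m : ℤ) ≤ 2 * m * k := by nlinarith
    rcases hxx with rfl | rfl <;> omega

theorem perc (hm2 : 2 ≤ m) (n : ℕ) (hn : n + 1 ≤ m) :
    ∃ L : List (Folding (cyc m)), ∀ q : ℤ, 0 ≤ q → q ≤ n →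
      L.foldr (fun f e' => f.map e') (E m q) = E m 0 := by
  induction n with
  | zero =>
    refine ⟨[], ?_⟩
    intro q h1 h2
    have : q = 0 := by push_cast at h2; omega
    rw [this]
    rfl
  | succ n ih =>
    obtain ⟨L, hL⟩ := ih (by omega)
    refine ⟨L ++ [fo m ((n : ℤ) + 1)], ?_⟩
    intro q h1 h2
    rw [List.foldr_append]
    simp only [List.foldr_cons, List.foldr_nil]
    push_cast at h2
    have hn' : (n : ℤ) + 1 + 1 ≤ m := by exact_mod_cast hn
    by_cases hq : q = n + 1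
    · rw [map_hi hm2 _ _ (by omega) (by omega)]
      exact hL _ (by omega) (by omega)
    · rw [map_lo _ _ (by omega) (by omega)]
      exact hL _ (by omega) (by omega)

theorem exists_E (e : (j : Fin 2) → (fun _ : Fin 2 => ZMod m) j) (he : e ∈ cyc m) :
    ∃ q : ℤ, 0 ≤ q ∧ q < 2 * m ∧ e = E m q := by
  have hm := mpos (m := m)
  have step : ∃ q : ℤ, e = E m q := by
    unfold cyc at he
    simp only [mem_filter, mem_univ, true_and] at he
    rcases he with he | he
    · refine ⟨2 * ((e 0).val : ℤ) - 1, ?_⟩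
      unfold E
      have h1 : (2 * ((e 0).val : ℤ) - 1 + 1) / 2 = ((e 0).val : ℤ) := by omega
      have h2 : (2 * ((e 0).val : ℤ) - 1) / 2 + 1 = ((e 0).val : ℤ) := by omega
      rw [h1, h2]
      funext j
      fin_cases j
      · simp
      · simp [he]
    · refine ⟨2 * ((e 0).val : ℤ), ?_⟩
      unfold E
      have h1 : (2 * ((e 0).val : ℤ) + 1) / 2 = ((e 0).val : ℤ) := by omega
      have h2 : (2 * ((e 0).val : ℤ)) / 2 + 1 = ((e 0).val : ℤ) + 1 := by omega
      rw [h1, h2]
      funext j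
      fin_cases j
      · simp
      · simp [he]
  obtain ⟨q, hq⟩ := step
  refine ⟨q % (2 * m), Int.emod_nonneg _ (by omega), Int.emod_lt_of_pos _ (by omega), ?_⟩
  rw [hq]
  obtain ⟨t, ht⟩ : ∃ t : ℤ, q = q % (2 * m) + 2 * m * t :=
    ⟨q / (2 * m), (Int.emod_add_mul_ediv q (2 * m)).symm⟩
  generalize q % (2 * m) = r at ht
  subst ht
  have h1 : (r + 2 * m * t + 1) / 2 = (r + 1) / 2 + m * t := by
    have : r + 2 * m * t + 1 = (r + 1) + 2 * (m * t) := by ring
    rw [this]
    omega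
  have h2 : (r + 2 * m * t) / 2 = r / 2 + m * t := by
    have : r + 2 * m * t = r + 2 * (m * t) := by ring
    rw [this]
    omega
  unfold E
  rw [h1, h2]
  funext j
  fin_cases j
  · simp
  · simp

end CycAux

open CycAux in
theorem percolates_cyc (m : ℕ) [NeZero m] : Percolates (cyc m) := by
  have hm := mpos (m := m)
  by_cases hm2 : 2 ≤ m
  · obtain ⟨L, hL⟩ := perc hm2 (m - 1) (by omega)
    refine ⟨L ++ [fo m (m : ℤ)], E m 0, ?_⟩
    intro e he
    obtain ⟨q, h0, h1, rfl⟩ := exists_E e he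
    rw [List.foldr_append]
    simp only [List.foldr_cons, List.foldr_nil]
    have hc : (((m - 1 : ℕ)) : ℤ) = m - 1 := by
      rw [Nat.cast_sub (by omega)]
      simp
    by_cases hq : q < m
    · rw [map_lo _ _ (by omega) (by omega)]
      exact hL _ h0 (by omega)
    · rw [map_hi hm2 _ _ (by omega) (by omega)]
      exact hL _ (by omega) (by omega)
  · have h1 : m = 1 := by omega
    subst h1
    refine ⟨[], fun _ => 0, ?_⟩
    intro e _
    simp only [List.foldr_nil]
    funext j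
    exact Subsingleton.elim (α := ZMod 1) _ _

end Pool.Agent.NP
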