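import Mathlib

/-!
# Patterns: d-partite d-uniform hypergraphs, homomorphism sums, weak norming, foldings

`V j`, `j : Fin d`, are the vertex classes, `H : Finset ((j : Fin d) → V j)` is the set of edges. An
assignment `t : (j : Fin d) → V j → X j` sends the edge `e` to the point `fun j => t j (e j)` of the
product of the `X j`.
-/

set_option autoImplicit false

open Finset

namespace Pool.Agent.NP

section

variable {d : ℕ} {V : Fin d → Type} [∀ j, Fintype (V j)] [∀ j, DecidableEq (V j)]

/-- The point of the edge `e` under the assignment `t`. -/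
def pt {X : Fin d → Type} (t : (j : Fin d) → V j → X j) (e : (j : Fin d) → V j) :
    (j : Fin d) → X j := fun j => t j (e j)

/-- Weight of an assignment. -/
def wt {X : Fin d → Type} (w : (j : Fin d) → X j → ℝ) (t : (j : Fin d) → V j → X j) : ℝ :=
  ∏ j, ∏ v, w j (t j v)

/-- Weighted homomorphism sum of `H` with one function for every edge. -/
noncomputable def homC (H : Finset ((j : Fin d) → V j)) {X : Fin d → Type} [∀ j, Fintype (X j)]
    (w : (j : Fin d) → X j → ℝ) (F : ((j : Fin d) → V j) → ((j : Fin d) → X j) → ℝ) : ℝ :=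
  ∑ t : (j : Fin d) → V j → X j, wt w t * ∏ e ∈ H, F e (pt t e)

/-- Weighted homomorphism sum of `H`. -/
noncomputable def hom (H : Finset ((j : Fin d) → V j)) {X : Fin d → Type} [∀ j, Fintype (X j)]
    (w : (j : Fin d) → X j → ℝ) (F : ((j : Fin d) → X j) → ℝ) : ℝ :=
  ∑ t : (j : Fin d) → V j → X j, wt w t * ∏ e ∈ H, F (pt t e)

/-- `H` is weakly norming (Hatami): `F ↦ hom(H, F)^(1/|H|)` satisfies the triangle inequality on the
nonnegative functions on every finite product of weighted sets. -/
def WeaklyNorming (H : Finset ((j : Fin d) → V j)) : Prop :=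
  ∀ (X : Fin d → Type) [∀ j, Fintype (X j)] (w : (j : Fin d) → X j → ℝ)
    (F G : ((j : Fin d) → X j) → ℝ), (∀ j u, 0 ≤ w j u) → (∀ u, 0 ≤ F u) → (∀ u, 0 ≤ G u) →
    hom H w (fun u => F u + G u) ^ (1 / (H.card : ℝ))
      ≤ hom H w F ^ (1 / (H.card : ℝ)) + hom H w G ^ (1 / (H.card : ℝ))

/-- The Hoelder property. -/
def Holder (H : Finset ((j : Fin d) → V j)) : Prop :=
  ∀ (X : Fin d → Type) [∀ j, Fintype (X j)] (w : (j : Fin d) → X j → ℝ)
    (F : ((j : Fin d) → V j) → ((j : Fin d) → X j) → ℝ), (∀ j u, 0 ≤ w j u) →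
    (∀ e u, 0 ≤ F e u) →
    homC H w F ≤ ∏ e ∈ H, hom H w (F e) ^ (1 / (H.card : ℝ))

/-- A folding of `H`: an involution `s` preserving the classes and the edges, and a splitting of
the vertices (`side = -1, 0, 1`) which it reverses; it fixes the vertices of side `0` and no edge
meets both other sides. -/
structure Folding (H : Finset ((j : Fin d) → V j)) where
  s : (j : Fin d) → V j → V j
  side : (j : Fin d) → V j → ℤ
  inv : ∀ j v, s j (s j v) = v
  fix : ∀ j v, side j v = 0 → s j v = v
  flip : ∀ j v, side j (s j v) = - side j v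
  three : ∀ j v, side j v = -1 ∨ side j v = 0 ∨ side j v = 1
  aut : ∀ e ∈ H, (fun j => s j (e j)) ∈ H
  cut : ∀ e ∈ H, ∀ j j', side j (e j) = -1 → side j' (e j') = 1 → False

open scoped Classical in
/-- The action of a folding on the edges: an edge meeting the side `1` is reflected. -/
noncomputable def Folding.map {H : Finset ((j : Fin d) → V j)} (f : Folding H)
    (e : (j : Fin d) → V j) : (j : Fin d) → V j :=
  if ∃ j, f.side j (e j) = 1 then fun j => f.s j (e j) else e

/-- Some composition of foldings is constant on the edges. -/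
def Percolates (H : Finset ((j : Fin d) → V j)) : Prop :=
  ∃ (L : List (Folding H)) (e₀ : (j : Fin d) → V j), ∀ e ∈ H, L.foldr (fun f e' => f.map e') e = e₀

end

end Pool.Agent.NP
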