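import Pool.Agent.Lib.NP.Defs

/-!
# Consequences of weak norming: convexity and a bound for subpatterns

Sketch. Put `R = H.card ≥ 1`, `N F = hom H w F ^ (1 / R)`. `hom H w (c • F) = c ^ R * hom H w F`, so
`N ((1-s) G + s F) ≤ N ((1-s) G) + N (s F) = (1-s) N G + s N F`; take `R`-th powers and use the
convexity of `x ^ R` on `[0, ∞)` (`convexOn_pow`). `hom_sub_le`: for `F ≥ 0` one has
`∏ e ∈ H', F ≤ ∏ e ∈ H', (1 + F) ≤ ∏ e ∈ H, (1 + F)`, and `hom_convex` with `s = 1/2` gives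
`hom (1 + F) = 2 ^ R * hom ((1 + F) / 2) ≤ 2 ^ R * (hom 1 + hom F) / 2`.
-/

set_option autoImplicit false

open Finset

namespace Pool.Agent.NP

variable {d : ℕ} {V : Fin d → Type} [∀ j, Fintype (V j)] [∀ j, DecidableEq (V j)]

theorem weakAux_wt_nonneg {X : Fin d → Type} {w : (j : Fin d) → X j → ℝ} (hw : ∀ j u, 0 ≤ w j u)
    (t : (j : Fin d) → V j → X j) : 0 ≤ wt w t :=
  Finset.prod_nonneg fun j _ => Finset.prod_nonneg fun v _ => hw j (t j v)

theorem weakAux_hom_nonneg (H : Finset ((j : Fin d) → V j)) {X : Fin d → Type} [∀ j, Fintype (X j)]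
    {w : (j : Fin d) → X j → ℝ} (hw : ∀ j u, 0 ≤ w j u) {F : ((j : Fin d) → X j) → ℝ}
    (hF : ∀ u, 0 ≤ F u) : 0 ≤ hom H w F :=
  Finset.sum_nonneg fun t _ => mul_nonneg (weakAux_wt_nonneg hw t)
    (Finset.prod_nonneg fun e _ => hF _)

theorem weakAux_hom_smul (H : Finset ((j : Fin d) → V j)) {X : Fin d → Type} [∀ j, Fintype (X j)]
    (w : (j : Fin d) → X j → ℝ) (F : ((j : Fin d) → X j) → ℝ) (c : ℝ) :
    hom H w (fun u => c * F u) = c ^ H.card * hom H w F := by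
  unfold hom
  rw [Finset.mul_sum]
  refine Finset.sum_congr rfl fun t _ => ?_
  rw [Finset.prod_mul_distrib, Finset.prod_const]
  ring

theorem hom_convex {H : Finset ((j : Fin d) → V j)} (hne : H.Nonempty) (hH : WeaklyNorming H)
    {X : Fin d → Type} [∀ j, Fintype (X j)] (w : (j : Fin d) → X j → ℝ) (hw : ∀ j u, 0 ≤ w j u)
    (F G : ((j : Fin d) → X j) → ℝ) (hF : ∀ u, 0 ≤ F u) (hG : ∀ u, 0 ≤ G u) (s : ℝ) (hs0 : 0 ≤ s)
    (hs1 : s ≤ 1) :
    hom H w (fun u => (1 - s) * G u + s * F u) ≤ (1 - s) * hom H w G + s * hom H w F := by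
  have hR : H.card ≠ 0 := (Finset.card_pos.2 hne).ne'
  have ha : 0 ≤ 1 - s := by linarith
  have h1 := hH X w (fun u => (1 - s) * G u) (fun u => s * F u) hw
    (fun u => mul_nonneg ha (hG u)) (fun u => mul_nonneg hs0 (hF u))
  have hGn := weakAux_hom_nonneg H hw hG
  have hFn := weakAux_hom_nonneg H hw hF
  have hpow : ∀ c x : ℝ, 0 ≤ c → 0 ≤ x →
      (c ^ H.card * x) ^ ((H.card : ℝ)⁻¹) = c * x ^ ((H.card : ℝ)⁻¹) := by
    intro c x hc hx
    rw [Real.mul_rpow (pow_nonneg hc _) hx, Real.pow_rpow_inv_natCast hc hR]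
  rw [one_div, weakAux_hom_smul, weakAux_hom_smul, hpow _ _ ha hGn, hpow _ _ hs0 hFn] at h1
  have hLn : 0 ≤ hom H w (fun u => (1 - s) * G u + s * F u) :=
    weakAux_hom_nonneg H hw fun u => add_nonneg (mul_nonneg ha (hG u)) (mul_nonneg hs0 (hF u))
  have h2 := pow_le_pow_left₀ (Real.rpow_nonneg hLn _) h1 H.card
  rw [Real.rpow_inv_natCast_pow hLn hR] at h2
  have h3 := (convexOn_pow (𝕜 := ℝ) H.card).2
    (show hom H w G ^ ((H.card : ℝ)⁻¹) ∈ Set.Ici (0 : ℝ) from Real.rpow_nonneg hGn _)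
    (show hom H w F ^ ((H.card : ℝ)⁻¹) ∈ Set.Ici (0 : ℝ) from Real.rpow_nonneg hFn _)
    ha hs0 (by ring)
  simp only [smul_eq_mul] at h3
  rw [Real.rpow_inv_natCast_pow hGn hR, Real.rpow_inv_natCast_pow hFn hR] at h3
  exact h2.trans h3

theorem hom_sub_le {H : Finset ((j : Fin d) → V j)} (hne : H.Nonempty) (hH : WeaklyNorming H)
    {X : Fin d → Type} [∀ j, Fintype (X j)] (w : (j : Fin d) → X j → ℝ) (hw : ∀ j u, 0 ≤ w j u)
    (F : ((j : Fin d) → X j) → ℝ) (hF : ∀ u, 0 ≤ F u) (H' : Finset ((j : Fin d) → V j))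
    (hH' : H' ⊆ H) :
    ∑ t : (j : Fin d) → V j → X j, wt w t * ∏ e ∈ H', F (pt t e)
      ≤ 2 ^ (H.card - 1) * ((∑ t : (j : Fin d) → V j → X j, wt w t) + hom H w F) := by
  have h1 : ∑ t : (j : Fin d) → V j → X j, wt w t * ∏ e ∈ H', F (pt t e) ≤
      hom H w (fun u => 1 + F u) := by
    unfold hom
    refine Finset.sum_le_sum fun t _ => mul_le_mul_of_nonneg_left ?_ (weakAux_wt_nonneg hw t)
    have h2 : ∏ e ∈ H', F (pt t e) ≤ ∏ e ∈ H', (1 + F (pt t e)) :=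
      Finset.prod_le_prod (fun e _ => hF _) fun e _ => by linarith
    have h3 : (1 : ℝ) ≤ ∏ e ∈ H \ H', (1 + F (pt t e)) := by
      calc (1 : ℝ) = ∏ e ∈ H \ H', (1 : ℝ) := by simp
        _ ≤ _ := Finset.prod_le_prod (fun _ _ => zero_le_one) fun e _ => by
          linarith [hF (pt t e)]
    have h4 : 0 ≤ ∏ e ∈ H', (1 + F (pt t e)) :=
      Finset.prod_nonneg fun e _ => by linarith [hF (pt t e)]
    rw [← Finset.prod_sdiff hH']
    calc ∏ e ∈ H', F (pt t e) ≤ 1 * ∏ e ∈ H', (1 + F (pt t e)) := by rw [one_mul]; exact h2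
      _ ≤ _ := mul_le_mul_of_nonneg_right h3 h4
  have h5 : hom H w (fun u => 1 + F u) =
      2 ^ H.card * hom H w (fun u => (1 - 1 / 2) * (fun _ => (1 : ℝ)) u + 1 / 2 * F u) := by
    rw [← weakAux_hom_smul]
    congr 1
    funext u
    ring
  have h6 := hom_convex hne hH w hw F (fun _ => (1 : ℝ)) hF (fun _ => zero_le_one) (1 / 2)
    (by norm_num) (by norm_num)
  have h7 : hom H w (fun _ => (1 : ℝ)) = ∑ t : (j : Fin d) → V j → X j, wt w t := by
    unfold hom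
    refine Finset.sum_congr rfl fun t _ => ?_
    simp
  rw [h7] at h6
  have hR : H.card = (H.card - 1) + 1 := (Nat.succ_pred_eq_of_pos (Finset.card_pos.2 hne)).symm
  have h8 : (2 : ℝ) ^ H.card = 2 ^ (H.card - 1) * 2 := by
    conv_lhs => rw [hR, pow_succ]
  calc _ ≤ _ := h1
    _ = _ := h5
    _ ≤ 2 ^ H.card * ((1 - 1 / 2) * (∑ t : (j : Fin d) → V j → X j, wt w t) +
        1 / 2 * hom H w F) := mul_le_mul_of_nonneg_left h6 (by positivity)
    _ = _ := by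
      rw [h8]
      ring

end Pool.Agent.NP
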