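import Pool.Agent.Lib.HLB.Defs
import Pool.Agent.Lib.NP.Weak

/-!
# Degenerate assignments, for every fixed `n`

Sketch. `ip` is the indicator of the primes (values 0 and 1).

`swap_sum`: for `v0 : V j0` and any `A : T → X j0 → ℝ`, `T` the assignments, write `t^u` for `t` with
the value at `(j0, v0)` replaced by `u`. The map `(t, u) ↦ (t^u, t j0 v0)` is an involution of
`T × X j0`, so `∑ t, ∑ u, A (t^u) (t j0 v0) = ∑ t, ∑ u, A t u` (`Equiv.sum_comp`, `Fintype.sum_prod_type`).
In particular `∑ t, ∑ u, B (t^u) = card (X j0) * ∑ t, B t`.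

`pair_bound`: let `e ≠ e'` in `H`, `e j0 ≠ e' j0`, `v0 = e j0` (used with `κ = 1 / (C * L ^ Δ j0)`). Then
`∑ t, [φ (pt t e) = φ (pt t e')] wt w t * ∏_{e'' ∈ H} ip (n + φ (pt t e''))
  ≤ κ * ∑ t, wt w t * ∏_{e'' ∈ H, e'' j0 ≠ v0} ip (n + φ (pt t e''))`:
drop the factors `ip ≤ 1` of the edges through `(j0, v0)`, write `wt w t = w j0 (t j0 v0) * w' t` where `w' t`
and the remaining product do not depend on `t j0 v0`, and apply `swap_sum` to both sides:
for fixed `t`, `∑ u, w j0 u * [φ (update (pt t e) j0 u) = φ (pt t e')] ≤ κ * ∑ u, w j0 u` by `hline`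
(if no `u` satisfies the equation the left side is `0`; otherwise apply `hline` to `update (pt t e) j0 u0` for
one such `u0`). Note `pt (t^u) e = update (pt t e) j0 u` and `pt (t^u) e' = pt t e'`.

Then with `F u = L * ip (n + φ u)` and `H' = {e'' ∈ H : e'' j0 ≠ v0}`, `H'.card ≥ H.card - Δ j0`, `hom_sub_le` gives
`L ^ H'.card * ∑ t, wt w t * ∏_{H'} ip ≤ 2^(R-1) * (∑ t, wt w t + L ^ R * ∑ t, wt w t * ∏_H ip)`, so
`pair_bound ≤ 2^(R-1) / C * ((∑ t, wt w t) / L^R + ∑ t, wt w t * ∏_H ip)`. Sum over the at most `R^2` pairs.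
-/

set_option autoImplicit false
set_option linter.unusedSectionVars false

open Finset

namespace Pool.Agent.NP

open Pool.Agent.HLB

variable {d : ℕ} {V : Fin d → Type} [∀ j, Fintype (V j)] [∀ j, DecidableEq (V j)]

section aux

variable {X : Fin d → Type}

/-- the assignment with the value at `(j0, v0)` replaced -/
private def upd (j0 : Fin d) (v0 : V j0) (t : (j : Fin d) → V j → X j) (u : X j0) :
    (j : Fin d) → V j → X j :=
  Function.update t j0 (Function.update (t j0) v0 u)

private theorem upd_apply (j0 : Fin d) (v0 : V j0) (t : (j : Fin d) → V j → X j) (u : X j0) :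
    upd j0 v0 t u j0 v0 = u := by
  simp [upd]

private theorem upd_upd (j0 : Fin d) (v0 : V j0) (t : (j : Fin d) → V j → X j) (u u' : X j0) :
    upd j0 v0 (upd j0 v0 t u) u' = upd j0 v0 t u' := by
  simp [upd]

private theorem upd_self (j0 : Fin d) (v0 : V j0) (t : (j : Fin d) → V j → X j) :
    upd j0 v0 t (t j0 v0) = t := by
  simp [upd]

private theorem pt_upd_eq (j0 : Fin d) (e : (j : Fin d) → V j) (t : (j : Fin d) → V j → X j)
    (u : X j0) : pt (upd j0 (e j0) t u) e = Function.update (pt t e) j0 u := by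
  funext j
  by_cases h : j = j0
  · subst h
    simp [pt, upd]
  · simp [pt, upd, h]

private theorem pt_upd_ne (j0 : Fin d) (v0 : V j0) (e : (j : Fin d) → V j) (he : e j0 ≠ v0)
    (t : (j : Fin d) → V j → X j) (u : X j0) : pt (upd j0 v0 t u) e = pt t e := by
  funext j
  by_cases h : j = j0
  · subst h
    simp [pt, upd, he]
  · simp [pt, upd, h]

private theorem wt_upd (j0 : Fin d) (v0 : V j0) (w : (j : Fin d) → X j → ℝ)
    (t : (j : Fin d) → V j → X j) (u : X j0) :
    wt w (upd j0 v0 t u) = w j0 u * ((∏ v ∈ univ.erase v0, w j0 (t j0 v)) *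
      ∏ j ∈ univ.erase j0, ∏ v, w j (t j v)) := by
  unfold wt
  rw [← Finset.mul_prod_erase univ (fun j => ∏ v, w j (upd j0 v0 t u j v)) (mem_univ j0),
    ← Finset.mul_prod_erase univ (fun v => w j0 (upd j0 v0 t u j0 v)) (mem_univ v0), upd_apply,
    mul_assoc]
  congr 2
  · refine Finset.prod_congr rfl fun v hv => ?_
    rw [mem_erase] at hv
    simp [upd, hv.1]
  · refine Finset.prod_congr rfl fun j hj => ?_
    rw [mem_erase] at hj
    simp [upd, hj.1]

private theorem swap_sum [∀ j, Fintype (X j)] (j0 : Fin d) (v0 : V j0)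
    (B : ((j : Fin d) → V j → X j) → ℝ) :
    ∑ t : (j : Fin d) → V j → X j, ∑ u : X j0, B (upd j0 v0 t u) =
      (Fintype.card (X j0) : ℝ) * ∑ t : (j : Fin d) → V j → X j, B t := by
  let E : (((j : Fin d) → V j → X j) × X j0) ≃ (((j : Fin d) → V j → X j) × X j0) :=
    { toFun := fun p => (upd j0 v0 p.1 p.2, p.1 j0 v0)
      invFun := fun p => (upd j0 v0 p.1 p.2, p.1 j0 v0)
      left_inv := fun p => by
        simp only [upd_upd, upd_self, upd_apply]
      right_inv := fun p => by
        simp only [upd_upd, upd_self, upd_apply] }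
  have h1 : ∑ p : ((j : Fin d) → V j → X j) × X j0, B (E p).1 =
      ∑ p : ((j : Fin d) → V j → X j) × X j0, B p.1 :=
    Equiv.sum_comp E (fun p => B p.1)
  rw [Fintype.sum_prod_type, Fintype.sum_prod_type] at h1
  simp only [Finset.sum_const, Finset.card_univ, nsmul_eq_mul, ← Finset.mul_sum] at h1
  exact h1

private theorem wt_nonneg {w : (j : Fin d) → X j → ℝ} (hw : ∀ j u, 0 ≤ w j u)
    (t : (j : Fin d) → V j → X j) : 0 ≤ wt w t :=
  Finset.prod_nonneg fun _ _ => Finset.prod_nonneg fun _ _ => hw _ _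

open scoped Classical in
/-- One pair of edges `e`, `e'` which differ in the coordinate `j0`. -/
theorem pair_bound {H : Finset ((j : Fin d) → V j)} (e e' : (j : Fin d) → V j) (_he : e ∈ H)
    (_he' : e' ∈ H) (j0 : Fin d) (hj : e j0 ≠ e' j0) {X : Fin d → Type}
    [∀ j, Fintype (X j)] (w : (j : Fin d) → X j → ℝ) (hw : ∀ j u, 0 ≤ w j u)
    (φ : ((j : Fin d) → X j) → ℕ) {κ : ℝ} (hk : 0 ≤ κ)
    (hline : ∀ u : (j : Fin d) → X j,
      ∑ y : X j0, (if φ (Function.update u j0 y) = φ u then w j0 y else 0)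
        ≤ κ * ∑ y : X j0, w j0 y) (n : ℕ) :
    ∑ t ∈ (univ : Finset ((j : Fin d) → V j → X j)).filter
        (fun t => φ (pt t e) = φ (pt t e')),
        wt w t * ∏ e'' ∈ H, ip (n + φ (pt t e'')) ≤
      κ * ∑ t : (j : Fin d) → V j → X j,
        wt w t * ∏ e'' ∈ H.filter (fun e'' => e'' j0 ≠ e j0), ip (n + φ (pt t e'')) := by
  rw [Finset.sum_filter]
  set P : ((j : Fin d) → V j → X j) → ℝ := fun t =>
    ∏ e'' ∈ H.filter (fun e'' => e'' j0 ≠ e j0), ip (n + φ (pt t e'')) with hP
  have hP0 : ∀ t, 0 ≤ P t := fun t => Finset.prod_nonneg fun _ _ => ip_nonneg _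
  have hPu : ∀ t u, P (upd j0 (e j0) t u) = P t := by
    intro t u
    refine Finset.prod_congr rfl fun e'' he'' => ?_
    rw [pt_upd_ne j0 (e j0) e'' (mem_filter.1 he'').2]
  -- drop factors
  have h1 : ∑ t : (j : Fin d) → V j → X j, (if φ (pt t e) = φ (pt t e') then
        wt w t * ∏ e'' ∈ H, ip (n + φ (pt t e'')) else 0) ≤
      ∑ t : (j : Fin d) → V j → X j, (if φ (pt t e) = φ (pt t e') then wt w t * P t else 0) := by
    refine Finset.sum_le_sum fun t _ => ?_
    split_ifs
    · refine mul_le_mul_of_nonneg_left ?_ (wt_nonneg hw t)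
      rw [← Finset.prod_filter_mul_prod_filter_not H (fun e'' => e'' j0 ≠ e j0)]
      exact mul_le_of_le_one_right (Finset.prod_nonneg fun _ _ => ip_nonneg _)
        (Finset.prod_le_one (fun _ _ => ip_nonneg _) (fun _ _ => ip_le_one _))
    · exact le_rfl
  refine h1.trans ?_
  rcases isEmpty_or_nonempty (X j0) with hX | hX
  · have hT : IsEmpty ((j : Fin d) → V j → X j) := ⟨fun t => hX.false (t j0 (e j0))⟩
    simp
  have hcard : (0 : ℝ) < Fintype.card (X j0) := by exact_mod_cast Fintype.card_pos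
  -- for fixed t
  have h2 : ∀ t : (j : Fin d) → V j → X j,
      ∑ u : X j0, (if φ (pt (upd j0 (e j0) t u) e) = φ (pt (upd j0 (e j0) t u) e') then
        wt w (upd j0 (e j0) t u) * P (upd j0 (e j0) t u) else 0) ≤
      κ * ∑ u : X j0, wt w (upd j0 (e j0) t u) * P (upd j0 (e j0) t u) := by
    intro t
    set W : ℝ := (∏ v ∈ univ.erase (e j0), w j0 (t j0 v)) *
      ∏ j ∈ univ.erase j0, ∏ v, w j (t j v) with hW
    have hW0 : 0 ≤ W := mul_nonneg (Finset.prod_nonneg fun _ _ => hw _ _)
      (Finset.prod_nonneg fun _ _ => Finset.prod_nonneg fun _ _ => hw _ _)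
    have e1 : ∀ u, (if φ (pt (upd j0 (e j0) t u) e) = φ (pt (upd j0 (e j0) t u) e') then
        wt w (upd j0 (e j0) t u) * P (upd j0 (e j0) t u) else 0) =
        (if φ (Function.update (pt t e) j0 u) = φ (pt t e') then w j0 u else 0) * (W * P t) := by
      intro u
      rw [pt_upd_eq, pt_upd_ne j0 (e j0) e' (Ne.symm hj), wt_upd, hPu, ← hW]
      split_ifs
      · ring
      · simp
    have e2 : ∀ u, wt w (upd j0 (e j0) t u) * P (upd j0 (e j0) t u) = w j0 u * (W * P t) := by
      intro u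
      rw [wt_upd, hPu, ← hW]; ring
    rw [Finset.sum_congr rfl (fun u _ => e1 u), Finset.sum_congr rfl (fun u _ => e2 u)]
    rw [← Finset.sum_mul, ← Finset.sum_mul, ← mul_assoc κ]
    refine mul_le_mul_of_nonneg_right ?_ (mul_nonneg hW0 (hP0 t))
    by_cases hu : ∃ u0, φ (Function.update (pt t e) j0 u0) = φ (pt t e')
    · obtain ⟨u0, hu0⟩ := hu
      have h3 := hline (Function.update (pt t e) j0 u0)
      simp only [Function.update_idem, hu0] at h3
      exact h3
    · push Not at hu
      have h4 : ∀ u, (if φ (Function.update (pt t e) j0 u) = φ (pt t e') then w j0 u else 0) = 0 :=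
        fun u => if_neg (hu u)
      simp only [h4, Finset.sum_const_zero]
      exact mul_nonneg hk (Finset.sum_nonneg fun _ _ => hw _ _)
  have h3 := Finset.sum_le_sum fun t (_ : t ∈ (univ : Finset ((j : Fin d) → V j → X j))) => h2 t
  rw [← Finset.mul_sum, swap_sum j0 (e j0) (fun t => wt w t * P t),
    swap_sum j0 (e j0) (fun t => if φ (pt t e) = φ (pt t e') then wt w t * P t else 0)] at h3
  have h4 : (Fintype.card (X j0) : ℝ) * ∑ t : (j : Fin d) → V j → X j,
      (if φ (pt t e) = φ (pt t e') then wt w t * P t else 0) ≤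
      (Fintype.card (X j0) : ℝ) * (κ * ∑ t : (j : Fin d) → V j → X j,
        wt w t * P t) := by linarith
  exact le_of_mul_le_mul_left h4 hcard

end aux

open scoped Classical in
theorem degen_pointwise {H : Finset ((j : Fin d) → V j)} (hne : H.Nonempty)
    (hH : WeaklyNorming H) (Δ : Fin d → ℕ) (hΔ : ∀ j v, (H.filter (fun e => e j = v)).card ≤ Δ j)
    {X : Fin d → Type} [∀ j, Fintype (X j)] (w : (j : Fin d) → X j → ℝ) (hw : ∀ j u, 0 ≤ w j u)
    (φ : ((j : Fin d) → X j) → ℕ) {C L : ℝ} (hC : 0 < C) (hL : 1 ≤ L)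
    (hline : ∀ (j : Fin d) (u : (j : Fin d) → X j),
      C * L ^ Δ j * ∑ y : X j, (if φ (Function.update u j y) = φ u then w j y else 0)
        ≤ ∑ y, w j y) (n : ℕ) :
    ∑ t ∈ (univ : Finset ((j : Fin d) → V j → X j)).filter
        (fun t => ¬ Function.Injective (fun e : {e // e ∈ H} => φ (pt t e.1))),
        wt w t * ∏ e ∈ H, ip (n + φ (pt t e))
      ≤ (H.card : ℝ) ^ 2 * 2 ^ (H.card - 1) / C *
        ((∑ t : (j : Fin d) → V j → X j, wt w t) / L ^ H.card
          + ∑ t : (j : Fin d) → V j → X j, wt w t * ∏ e ∈ H, ip (n + φ (pt t e))) := by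
  have hR : (0 : ℝ) < L ^ H.card := by positivity
  set A : ℝ := ∑ t : (j : Fin d) → V j → X j, wt w t with hA
  set B : ℝ := ∑ t : (j : Fin d) → V j → X j, wt w t * ∏ e ∈ H, ip (n + φ (pt t e)) with hB
  have hA0 : 0 ≤ A := Finset.sum_nonneg fun t _ => wt_nonneg hw t
  have hB0 : 0 ≤ B := Finset.sum_nonneg fun t _ => mul_nonneg (wt_nonneg hw t)
    (Finset.prod_nonneg fun _ _ => ip_nonneg _)
  -- one pair
  have hpair : ∀ e ∈ H, ∀ e' ∈ H, e ≠ e' →
      ∑ t : (j : Fin d) → V j → X j, (if φ (pt t e) = φ (pt t e') then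
        wt w t * ∏ e'' ∈ H, ip (n + φ (pt t e'')) else 0) ≤
      2 ^ (H.card - 1) / C * (A / L ^ H.card + B) := by
    intro e he e' he' hne'
    obtain ⟨j0, hj0⟩ := Function.ne_iff.1 hne'
    have hκ : 0 < C * L ^ Δ j0 := by positivity
    have h0 := pair_bound e e' he he' j0 hj0 w hw φ (κ := 1 / (C * L ^ Δ j0)) (by positivity)
      (fun u => by
        rw [one_div, ← div_eq_inv_mul, le_div_iff₀ hκ]
        have h3 := hline j0 u
        linarith) n
    rw [Finset.sum_filter] at h0
    refine h0.trans ?_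
    set H' := H.filter (fun e'' => e'' j0 ≠ e j0) with hH'
    have h1 := hom_sub_le hne hH w hw (fun u => L * ip (n + φ u))
      (fun u => mul_nonneg (by linarith) (ip_nonneg _)) H' (Finset.filter_subset _ _)
    unfold hom at h1
    simp only [Finset.prod_mul_distrib, Finset.prod_const] at h1
    have e1 : ∑ t : (j : Fin d) → V j → X j, wt w t * (L ^ H'.card *
        ∏ e ∈ H', ip (n + φ (pt t e))) = L ^ H'.card * ∑ t : (j : Fin d) → V j → X j,
        wt w t * ∏ e ∈ H', ip (n + φ (pt t e)) := by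
      rw [Finset.mul_sum]
      exact Finset.sum_congr rfl fun t _ => by ring
    have e2 : ∑ t : (j : Fin d) → V j → X j, wt w t * (L ^ H.card *
        ∏ e ∈ H, ip (n + φ (pt t e))) = L ^ H.card * B := by
      rw [hB, Finset.mul_sum]
      exact Finset.sum_congr rfl fun t _ => by ring
    rw [e1, e2, ← hA] at h1
    have hcard : H.card ≤ H'.card + Δ j0 := by
      have h2 : (H.filter (fun e'' => e'' j0 = e j0)).card + H'.card = H.card := by
        rw [hH']
        exact Finset.card_filter_add_card_filter_not (s := H) (fun e'' => e'' j0 = e j0)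
      have h3 := hΔ j0 (e j0)
      omega
    set D := ∑ t : (j : Fin d) → V j → X j, wt w t * ∏ e ∈ H', ip (n + φ (pt t e)) with hD
    have hD0 : 0 ≤ D := Finset.sum_nonneg fun t _ => mul_nonneg (wt_nonneg hw t)
      (Finset.prod_nonneg fun _ _ => ip_nonneg _)
    have h5 : L ^ H.card ≤ L ^ H'.card * L ^ Δ j0 := by
      rw [← pow_add]
      exact pow_le_pow_right₀ hL hcard
    have h6 : 1 / (C * L ^ Δ j0) * D * (C * L ^ H.card) ≤ L ^ H'.card * D := by
      have h7 : 1 / (C * L ^ Δ j0) * D * (C * L ^ H.card) = D * (L ^ H.card / L ^ Δ j0) := by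
        field_simp
      rw [h7, mul_comm]
      refine mul_le_mul_of_nonneg_right ?_ hD0
      rw [div_le_iff₀ (by positivity)]
      exact h5
    have h8 : 2 ^ (H.card - 1) / C * (A / L ^ H.card + B) =
        (2 ^ (H.card - 1) * (A + L ^ H.card * B)) / (C * L ^ H.card) := by
      field_simp
    rw [h8, le_div_iff₀ (by positivity)]
    exact h6.trans h1
  -- all pairs
  have hsum : ∑ t ∈ (univ : Finset ((j : Fin d) → V j → X j)).filter
        (fun t => ¬ Function.Injective (fun e : {e // e ∈ H} => φ (pt t e.1))),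
        wt w t * ∏ e ∈ H, ip (n + φ (pt t e)) ≤
      ∑ p ∈ (H ×ˢ H).filter (fun p => p.1 ≠ p.2), ∑ t : (j : Fin d) → V j → X j,
        (if φ (pt t p.1) = φ (pt t p.2) then
          wt w t * ∏ e'' ∈ H, ip (n + φ (pt t e'')) else 0) := by
    rw [Finset.sum_comm, Finset.sum_filter]
    refine Finset.sum_le_sum fun t _ => ?_
    have hnn : 0 ≤ wt w t * ∏ e ∈ H, ip (n + φ (pt t e)) := mul_nonneg (wt_nonneg hw t)
      (Finset.prod_nonneg fun _ _ => ip_nonneg _)
    by_cases hinj : ¬ Function.Injective (fun e : {e // e ∈ H} => φ (pt t e.1))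
    · rw [if_pos hinj]
      unfold Function.Injective at hinj
      push Not at hinj
      obtain ⟨⟨e, he⟩, ⟨e', he'⟩, h1, h2⟩ := hinj
      have h3 : e ≠ e' := fun h => h2 (Subtype.ext h)
      have h4 : (e, e') ∈ (H ×ˢ H).filter (fun p => p.1 ≠ p.2) := by
        simp [he, he', h3]
      refine le_trans ?_ (Finset.single_le_sum (f := fun p : ((j : Fin d) → V j) × ((j : Fin d) → V j) =>
        if φ (pt t p.1) = φ (pt t p.2) then wt w t * ∏ e'' ∈ H, ip (n + φ (pt t e'')) else 0)
        (fun p _ => by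
          split_ifs
          · exact hnn
          · exact le_rfl) h4)
      dsimp only
      rw [if_pos h1]
    · rw [if_neg hinj]
      exact Finset.sum_nonneg fun p _ => by
        split_ifs
        · exact hnn
        · exact le_rfl
  refine hsum.trans ?_
  have h9 : ∀ p ∈ (H ×ˢ H).filter (fun p => p.1 ≠ p.2), ∑ t : (j : Fin d) → V j → X j,
        (if φ (pt t p.1) = φ (pt t p.2) then
          wt w t * ∏ e'' ∈ H, ip (n + φ (pt t e'')) else 0) ≤
        2 ^ (H.card - 1) / C * (A / L ^ H.card + B) := by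
    intro p hp
    rw [mem_filter, mem_product] at hp
    exact hpair p.1 hp.1.1 p.2 hp.1.2 hp.2
  refine (Finset.sum_le_card_nsmul _ _ _ h9).trans ?_
  rw [nsmul_eq_mul]
  have h10 : (((H ×ˢ H).filter (fun p => p.1 ≠ p.2)).card : ℝ) ≤ (H.card : ℝ) ^ 2 := by
    have : ((H ×ˢ H).filter (fun p => p.1 ≠ p.2)).card ≤ H.card * H.card := by
      rw [← Finset.card_product]
      exact Finset.card_filter_le _ _
    rw [sq]
    exact_mod_cast this
  have h11 : 0 ≤ 2 ^ (H.card - 1) / C * (A / L ^ H.card + B) := by positivity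
  calc _ ≤ (H.card : ℝ) ^ 2 * (2 ^ (H.card - 1) / C * (A / L ^ H.card + B)) :=
        mul_le_mul_of_nonneg_right h10 h11
    _ = _ := by ring

end Pool.Agent.NP
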