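import Pool.Agent.Lib.NP.Tensor
import Pool.Agent.Lib.NP.Degen

/-!
# Degenerate assignments, sharp form
-/

set_option autoImplicit false

open Finset

namespace Pool.Agent.NP

open Pool.Agent.HLB

variable {d : ℕ} {V : Fin d → Type} [∀ j, Fintype (V j)] [∀ j, DecidableEq (V j)]

/-- Power mean inequality for a sum over `x` terms. -/
lemma sum_rpow_le {x : ℕ} (hx : 0 < x) (h : ℕ → ℝ) (hh : ∀ n, 0 ≤ h n) {θ : ℝ} (hθ0 : 0 ≤ θ)
    (hθ1 : θ ≤ 1) :
    ∑ n ∈ Icc 1 x, h n ^ θ ≤ (x : ℝ) ^ (1 - θ) * (∑ n ∈ Icc 1 x, h n) ^ θ := by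
  have hx0 : (0:ℝ) < x := by exact_mod_cast hx
  have hc := Real.concaveOn_rpow hθ0 hθ1
  have h1 := hc.le_map_sum (t := Icc 1 x) (w := fun _ => (1:ℝ) / x) (p := h)
    (fun _ _ => by positivity)
    (by rw [Finset.sum_const, Nat.card_Icc, Nat.add_sub_cancel, nsmul_eq_mul]; field_simp)
    (fun n _ => hh n)
  simp only [smul_eq_mul] at h1
  rw [← Finset.mul_sum, ← Finset.mul_sum,
    Real.mul_rpow (by positivity) (Finset.sum_nonneg fun n _ => hh n)] at h1
  have h2 : (x : ℝ) * ((1:ℝ) / x) ^ θ = (x:ℝ) ^ (1 - θ) := by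
    rw [Real.rpow_sub hx0, Real.rpow_one, one_div, Real.inv_rpow hx0.le]
    rfl
  calc ∑ n ∈ Icc 1 x, h n ^ θ = (x:ℝ) * (1 / x * ∑ n ∈ Icc 1 x, h n ^ θ) := by field_simp
    _ ≤ (x:ℝ) * (((1:ℝ) / x) ^ θ * (∑ n ∈ Icc 1 x, h n) ^ θ) :=
        mul_le_mul_of_nonneg_left h1 hx0.le
    _ = _ := by rw [← mul_assoc, h2]

open scoped Classical in
/-- Twice the degenerate part is at most the sum over the ordered pairs of coinciding edges. -/
lemma degen_union {H : Finset ((j : Fin d) → V j)} {X : Fin d → Type} [∀ j, Fintype (X j)]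
    (φ : ((j : Fin d) → X j) → ℕ) (g : ((j : Fin d) → V j → X j) → ℝ) (hg : ∀ t, 0 ≤ g t) :
    2 * ∑ t ∈ (univ : Finset ((j : Fin d) → V j → X j)).filter
        (fun t => ¬ Function.Injective (fun e : {e // e ∈ H} => φ (pt t e.1))), g t
      ≤ ∑ p ∈ H.offDiag, ∑ t ∈ (univ : Finset ((j : Fin d) → V j → X j)).filter
          (fun t => φ (pt t p.1) = φ (pt t p.2)), g t := by
  have h1 : ∑ p ∈ H.offDiag, ∑ t ∈ (univ : Finset ((j : Fin d) → V j → X j)).filter
          (fun t => φ (pt t p.1) = φ (pt t p.2)), g t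
      = ∑ t : (j : Fin d) → V j → X j,
          ((H.offDiag.filter (fun p => φ (pt t p.1) = φ (pt t p.2))).card : ℝ) * g t := by
    simp_rw [Finset.sum_filter]
    rw [Finset.sum_comm]
    refine Finset.sum_congr rfl fun t _ => ?_
    rw [← Finset.sum_filter, Finset.sum_const, nsmul_eq_mul]
  rw [h1, Finset.mul_sum, Finset.sum_filter]
  refine Finset.sum_le_sum fun t _ => ?_
  by_cases ht : ¬ Function.Injective (fun e : {e // e ∈ H} => φ (pt t e.1))
  · rw [if_pos ht]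
    refine mul_le_mul_of_nonneg_right ?_ (hg t)
    unfold Function.Injective at ht
    push Not at ht
    obtain ⟨e, e', hee, hne⟩ := ht
    have hne' : e.1 ≠ e'.1 := fun h => hne (Subtype.ext h)
    have h2 : ({(e.1, e'.1), (e'.1, e.1)} : Finset _) ⊆
        H.offDiag.filter (fun p => φ (pt t p.1) = φ (pt t p.2)) := by
      intro p hp
      rw [Finset.mem_insert, Finset.mem_singleton] at hp
      rcases hp with rfl | rfl
      · exact Finset.mem_filter.mpr ⟨Finset.mem_offDiag.mpr ⟨e.2, e'.2, hne'⟩, hee⟩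
      · exact Finset.mem_filter.mpr ⟨Finset.mem_offDiag.mpr ⟨e'.2, e.2, hne'.symm⟩, hee.symm⟩
    have h3 := Finset.card_le_card h2
    rw [Finset.card_pair (fun h => hne' (Prod.ext_iff.mp h).1)] at h3
    exact_mod_cast h3
  · rw [if_neg ht]
    exact mul_nonneg (Nat.cast_nonneg _) (hg t)

open scoped Classical in
theorem degen_sum {H : Finset ((j : Fin d) → V j)} (hne : H.Nonempty)
    (hH : WeaklyNorming H) (Δ : Fin d → ℕ) (hΔ : ∀ j v, (H.filter (fun e => e j = v)).card ≤ Δ j)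
    {X : Fin d → Type} [∀ j, Fintype (X j)] (w : (j : Fin d) → X j → ℝ) (hw : ∀ j u, 0 ≤ w j u)
    (φ : ((j : Fin d) → X j) → ℕ) {η L : ℝ} (hη : 0 ≤ η) (hL : 1 ≤ L)
    (hline : ∀ (j : Fin d) (u : (j : Fin d) → X j),
      L ^ Δ j * ∑ y : X j, (if φ (Function.update u j y) = φ u then w j y else 0)
        ≤ η * ∑ y, w j y) {x : ℕ} (hx : 0 < x) {c : ℝ} (hc0 : 0 < c) (hc1 : c ≤ 1)
    (hlow : c * (x / L ^ H.card * ∑ t : (j : Fin d) → V j → X j, wt w t)
      ≤ ∑ n ∈ Icc 1 x, hom H w (fun u => ip (n + φ u))) :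
    ∑ n ∈ Icc 1 x, ∑ t ∈ (univ : Finset ((j : Fin d) → V j → X j)).filter
        (fun t => ¬ Function.Injective (fun e : {e // e ∈ H} => φ (pt t e.1))),
        wt w t * ∏ e ∈ H, ip (n + φ (pt t e))
      ≤ (H.card : ℝ) * (H.card - 1) / 2 * (η / c) *
        ∑ n ∈ Icc 1 x, hom H w (fun u => ip (n + φ u)) := by
  set Φ : ℝ := ∑ n ∈ Icc 1 x, hom H w (fun u => ip (n + φ u)) with hΦ
  set W : ℝ := ∑ t : (j : Fin d) → V j → X j, wt w t with hW
  have hx0 : (0:ℝ) < x := by exact_mod_cast hx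
  have hL0 : 0 < L := by linarith
  have hR0 : 0 < H.card := hne.card_pos
  have hRr : (0:ℝ) < H.card := by exact_mod_cast hR0
  have hW0 : 0 ≤ W := Finset.sum_nonneg fun t _ => wt_nonneg' hw t
  have hΦ0 : 0 ≤ Φ := Finset.sum_nonneg fun n _ => hom_nonneg hw fun u => ip_nonneg _
  -- a pair of coinciding edges
  have hpair : ∀ p ∈ H.offDiag, ∑ n ∈ Icc 1 x, ∑ t ∈ (univ : Finset ((j : Fin d) → V j → X j)).filter
          (fun t => φ (pt t p.1) = φ (pt t p.2)), wt w t * ∏ e ∈ H, ip (n + φ (pt t e))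
      ≤ (η / c) * Φ := by
    rintro ⟨e, e'⟩ hp
    rw [Finset.mem_offDiag] at hp
    obtain ⟨he, he', hee⟩ := hp
    simp only at he he' hee ⊢
    obtain ⟨j0, hj0⟩ : ∃ j0, e j0 ≠ e' j0 := by
      by_contra hcon
      push Not at hcon
      exact hee (funext hcon)
    set S := H.filter (fun e'' => e'' j0 ≠ e j0) with hS
    have hSH : S ⊆ H := Finset.filter_subset _ _
    have hScard : H.card ≤ S.card + Δ j0 := by
      have h1 := Finset.card_filter_add_card_filter_not (s := H) (fun e'' => e'' j0 = e j0)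
      have h2 := hΔ j0 (e j0)
      have h3 : (H.filter (fun e'' => ¬ e'' j0 = e j0)).card = S.card := by rw [hS]
      omega
    have hSle : S.card ≤ H.card := Finset.card_le_card hSH
    set θ : ℝ := (S.card : ℝ) / H.card with hθ
    have hθ0 : 0 ≤ θ := by positivity
    have hθ1 : θ ≤ 1 := by
      rw [hθ, div_le_one hRr]
      exact_mod_cast hSle
    have hLΔ : 0 < L ^ Δ j0 := pow_pos hL0 _
    have h1 : ∀ n ∈ Icc 1 x, ∑ t ∈ (univ : Finset ((j : Fin d) → V j → X j)).filter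
          (fun t => φ (pt t e) = φ (pt t e')), wt w t * ∏ e'' ∈ H, ip (n + φ (pt t e''))
        ≤ η / L ^ Δ j0 * (W ^ (1 - θ) * hom H w (fun u => ip (n + φ u)) ^ θ) := by
      intro n _
      refine (pair_bound e e' he he' j0 hj0 w hw φ (κ := η / L ^ Δ j0) (by positivity) ?_ n).trans ?_
      · intro u
        rw [div_mul_eq_mul_div, le_div_iff₀ hLΔ, mul_comm]
        exact hline j0 u
      · refine mul_le_mul_of_nonneg_left ?_ (by positivity)
        exact hom_sub_sharp hne hH w hw (fun u => ip (n + φ u)) (fun u => ip_nonneg _) S hSH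
    refine (Finset.sum_le_sum h1).trans ?_
    rw [← Finset.mul_sum, ← Finset.mul_sum]
    have h2 := sum_rpow_le hx (fun n => hom H w (fun u => ip (n + φ u)))
      (fun n => hom_nonneg hw fun u => ip_nonneg _) hθ0 hθ1
    have h3 : W ^ (1 - θ) * ∑ n ∈ Icc 1 x, hom H w (fun u => ip (n + φ u)) ^ θ
        ≤ (x * W) ^ (1 - θ) * Φ ^ θ := by
      rw [Real.mul_rpow hx0.le hW0, mul_comm ((x:ℝ) ^ (1 - θ)), mul_assoc]
      exact mul_le_mul_of_nonneg_left h2 (Real.rpow_nonneg hW0 _)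
    have hLR : 0 < L ^ H.card := pow_pos hL0 _
    have h4 : x * W ≤ L ^ H.card * (Φ / c) := by
      have h5 : x * W = L ^ H.card * ((c * (x / L ^ H.card * W)) / c) := by
        field_simp
      rw [h5]
      gcongr
    have h6 : (x * W) ^ (1 - θ) * Φ ^ θ ≤ L ^ Δ j0 * (Φ / c) := by
      have hΦc : Φ ≤ Φ / c := by
        rw [le_div_iff₀ hc0]
        nlinarith
      have hΦc0 : 0 ≤ Φ / c := by positivity
      have h7 : (x * W) ^ (1 - θ) ≤ (L ^ H.card) ^ (1 - θ) * (Φ / c) ^ (1 - θ) := by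
        rw [← Real.mul_rpow hLR.le hΦc0]
        exact Real.rpow_le_rpow (by positivity) h4 (by linarith)
      have h8 : Φ ^ θ ≤ (Φ / c) ^ θ := Real.rpow_le_rpow hΦ0 hΦc hθ0
      have h9 : (L ^ H.card) ^ (1 - θ) ≤ L ^ Δ j0 := by
        rw [← Real.rpow_natCast L H.card, ← Real.rpow_mul hL0.le, ← Real.rpow_natCast L (Δ j0)]
        refine Real.rpow_le_rpow_of_exponent_le hL ?_
        rw [mul_sub, mul_one, hθ, mul_div_cancel₀ _ hRr.ne']
        have : (H.card : ℝ) ≤ S.card + Δ j0 := by exact_mod_cast hScard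
        linarith
      have h10 : (Φ / c) ^ (1 - θ) * (Φ / c) ^ θ = Φ / c := by
        rcases hΦc0.eq_or_lt with hz | hpos
        · rw [← hz]
          rcases hθ0.eq_or_lt with hθz | hθpos
          · rw [← hθz, sub_zero, Real.rpow_one, zero_mul]
          · rw [Real.zero_rpow hθpos.ne', mul_zero]
        · rw [← Real.rpow_add hpos, sub_add_cancel, Real.rpow_one]
      calc (x * W) ^ (1 - θ) * Φ ^ θ
          ≤ ((L ^ H.card) ^ (1 - θ) * (Φ / c) ^ (1 - θ)) * (Φ / c) ^ θ :=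
            mul_le_mul h7 h8 (Real.rpow_nonneg hΦ0 _) (by positivity)
        _ = (L ^ H.card) ^ (1 - θ) * ((Φ / c) ^ (1 - θ) * (Φ / c) ^ θ) := by ring
        _ = (L ^ H.card) ^ (1 - θ) * (Φ / c) := by rw [h10]
        _ ≤ L ^ Δ j0 * (Φ / c) := mul_le_mul_of_nonneg_right h9 hΦc0
    calc η / L ^ Δ j0 * (W ^ (1 - θ) * ∑ n ∈ Icc 1 x, hom H w (fun u => ip (n + φ u)) ^ θ)
        ≤ η / L ^ Δ j0 * (L ^ Δ j0 * (Φ / c)) :=
          mul_le_mul_of_nonneg_left (h3.trans h6) (by positivity)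
      _ = η / c * Φ := by field_simp
  -- the union bound
  have hun : 2 * ∑ n ∈ Icc 1 x, ∑ t ∈ (univ : Finset ((j : Fin d) → V j → X j)).filter
        (fun t => ¬ Function.Injective (fun e : {e // e ∈ H} => φ (pt t e.1))),
        wt w t * ∏ e ∈ H, ip (n + φ (pt t e))
      ≤ ∑ p ∈ H.offDiag, (η / c) * Φ := by
    refine le_trans ?_ (Finset.sum_le_sum hpair)
    conv_rhs => rw [Finset.sum_comm]
    rw [Finset.mul_sum]
    refine Finset.sum_le_sum fun n _ => ?_
    exact degen_union φ (fun t => wt w t * ∏ e ∈ H, ip (n + φ (pt t e)))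
      (fun t => mul_nonneg (wt_nonneg' hw t) (Finset.prod_nonneg fun _ _ => ip_nonneg _))
  rw [Finset.sum_const, Finset.offDiag_card, nsmul_eq_mul,
    Nat.cast_sub (Nat.le_mul_self _), Nat.cast_mul] at hun
  have hfin : (H.card : ℝ) * (H.card - 1) / 2 * (η / c) * Φ
      = (((H.card : ℝ) * H.card - H.card) * (η / c * Φ)) / 2 := by ring
  rw [hfin]
  linarith

end Pool.Agent.NP
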