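import Pool.Agent.Lib.NP.Defs

/-!
# Cauchy-Schwarz for a folding

Sketch. Let `f : Folding H`. `f.map'` is the mirror image of `f.map` (an edge meeting side `-1` is
reflected). Claim: for `w, F ≥ 0`,
`homC H w F ^ 2 ≤ homC H w (fun e => F (f.map e)) * homC H w (fun e => F (f.map' e))`.

Flatten the vertices: `P = Σ j, V j`. Let `A` be the functions on the vertices of side `0`, `B` the functions
on the vertices of side `-1` (values in the right `X j`). The assignments are in bijection with `A × B × B`:
`t ↦ (t` on side `0`, `t` on side `-1`, `(j, v) ↦ t j (f.s j v)` on side `-1)`; the inverse gives to a vertex of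
side `1` the value of the third component at `f.s j v`. No casts are needed since `f.s` preserves `j`.
`wt w t = α a * β b * β b'` and, since no edge meets both sides, `∏_{e ∈ H} F e (pt t e) = c a * P a b * Q a b'` with
`c` = edges inside side `0`, `P` = edges meeting side `-1`, `Q` = edges meeting side `1`. For `F ∘ map` the product
is `c a * P a b * P a b'` (the reflection is a bijection between the edges meeting `1` and the edges meeting
`-1`), for `F ∘ map'` it is `c a * Q a b * Q a b'`. So with `p a = ∑ b, β b * P a b`, `q a = ∑ b, β b * Q a b`: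
`homC F = ∑ a, α a c a p a q a`, `homC (F ∘ map) = ∑ a, α a c a p a ^ 2`, `homC (F ∘ map') = ∑ a, α a c a q a ^ 2`
(`Finset.sum_mul_sq_le_sq_mul_sq` or `Finset.inner_mul_le_norm_mul_norm`).

An alternative which avoids the mirror map: state it for the reflected folding (`side` negated).
-/

set_option autoImplicit false

open Finset

namespace Pool.Agent.NP

variable {d : ℕ} {V : Fin d → Type} [∀ j, Fintype (V j)] [∀ j, DecidableEq (V j)]

/-- The same folding with the two sides exchanged. -/
def Folding.symm {H : Finset ((j : Fin d) → V j)} (f : Folding H) : Folding H where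
  s := f.s
  side := fun j v => - f.side j v
  inv := f.inv
  fix := fun j v h => f.fix j v (by simpa using h)
  flip := fun j v => by rw [f.flip]
  three := fun j v => by rcases f.three j v with h | h | h <;> simp [h]
  aut := f.aut
  cut := fun e he j j' h h' => f.cut e he j' j (by linarith) (by linarith)

namespace FoldCSAux

set_option linter.unusedSectionVars false

variable {H : Finset ((j : Fin d) → V j)} (f : Folding H) {X : Fin d → Type}

/-- Values on the vertices of side `0`. -/
abbrev FA (f : Folding H) (X : Fin d → Type) : Type :=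
  (j : Fin d) → {v : V j // f.side j v = 0} → X j

/-- Values on the vertices of side `-1`. -/
abbrev FB (f : Folding H) (X : Fin d → Type) : Type :=
  (j : Fin d) → {v : V j // f.side j v = -1} → X j

theorem side_one {j : Fin d} {v : V j} (h0 : f.side j v ≠ 0) (h1 : f.side j v ≠ -1) :
    f.side j v = 1 := by
  rcases f.three j v with h | h | h
  · exact absurd h h1
  · exact absurd h h0
  · exact h

theorem side_s {j : Fin d} {v : V j} (h0 : f.side j v ≠ 0) (h1 : f.side j v ≠ -1) :
    f.side j (f.s j v) = -1 := by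
  rw [f.flip, side_one f h0 h1]

/-- The assignment with given values. -/
def join (a : FA f X) (b b' : FB f X) : (j : Fin d) → V j → X j := fun j v =>
  if h : f.side j v = 0 then a j ⟨v, h⟩
  else if h' : f.side j v = -1 then b j ⟨v, h'⟩
  else b' j ⟨f.s j v, side_s f h h'⟩

theorem join_zero (a : FA f X) (b b' : FB f X) {j : Fin d} {v : V j} (h : f.side j v = 0) :
    join f a b b' j v = a j ⟨v, h⟩ := dif_pos h

theorem join_neg (a : FA f X) (b b' : FB f X) {j : Fin d} {v : V j} (h : f.side j v = -1) :
    join f a b b' j v = b j ⟨v, h⟩ := by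
  unfold join
  rw [dif_neg (by rw [h]; decide), dif_pos h]

theorem join_pos (a : FA f X) (b b' : FB f X) {j : Fin d} {v : V j} (h : f.side j v = 1) :
    join f a b b' j v = b' j ⟨f.s j v, by rw [f.flip, h]⟩ := by
  unfold join
  rw [dif_neg (by rw [h]; decide), dif_neg (by rw [h]; decide)]

theorem join_refl (a : FA f X) (b : FB f X) (j : Fin d) (v : V j) :
    join f a b b j (f.s j v) = join f a b b j v := by
  rcases f.three j v with h | h | h
  · rw [join_neg f a b b h, join_pos f a b b (v := f.s j v) (by rw [f.flip, h]; rfl)]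
    congr 1
    exact Subtype.ext (f.inv j v)
  · rw [f.fix j v h]
  · rw [join_pos f a b b h, join_neg f a b b (v := f.s j v) (by rw [f.flip, h])]

/-- The splitting of the assignments. -/
def spl (f : Folding H) (X : Fin d → Type) :
    ((j : Fin d) → V j → X j) ≃ FA f X × FB f X × FB f X where
  toFun t := (fun j v => t j v, fun j v => t j v, fun j v => t j (f.s j v))
  invFun p := join f p.1 p.2.1 p.2.2
  left_inv t := by
    funext j v
    rcases f.three j v with h | h | h
    · exact join_neg f _ _ _ h
    · exact join_zero f _ _ _ h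
    · refine (join_pos f _ _ _ h).trans ?_
      simp only [f.inv]
  right_inv p := by
    obtain ⟨a, b, b'⟩ := p
    refine Prod.ext ?_ (Prod.ext ?_ ?_)
    · funext j v
      exact join_zero f _ _ _ v.2
    · funext j v
      exact join_neg f _ _ _ v.2
    · funext j v
      change join f a b b' j (f.s j v) = b' j v
      rw [join_pos f a b b' (v := f.s j v) (by rw [f.flip, v.2]; rfl)]
      congr 1
      exact Subtype.ext (f.inv j v)

/-- Weight of the values on side `0`. -/
def al (w : (j : Fin d) → X j → ℝ) (a : FA f X) : ℝ := ∏ j, ∏ v, w j (a j v)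

/-- Weight of the values on side `-1`. -/
def be (w : (j : Fin d) → X j → ℝ) (b : FB f X) : ℝ := ∏ j, ∏ v, w j (b j v)

theorem wt_join (w : (j : Fin d) → X j → ℝ) (a : FA f X) (b b' : FB f X) :
    wt w (join f a b b') = al f w a * be f w b * be f w b' := by
  unfold wt al be
  rw [← Finset.prod_mul_distrib, ← Finset.prod_mul_distrib]
  refine Finset.prod_congr rfl fun j _ => ?_
  rw [← Finset.prod_filter_mul_prod_filter_not univ (fun v => f.side j v = 0),
    ← Finset.prod_filter_mul_prod_filter_not (univ.filter (fun v => ¬ f.side j v = 0))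
      (fun v => f.side j v = -1), mul_assoc]
  congr 1
  · rw [Finset.prod_subtype (p := fun v => f.side j v = 0) _ (by simp)]
    exact Finset.prod_congr rfl fun v _ => by rw [join_zero f a b b' v.2]
  congr 1
  · rw [Finset.prod_subtype (p := fun v => f.side j v = -1) _ (by
      intro v
      simp only [mem_filter, mem_univ, true_and]
      constructor
      · exact fun h => h.2
      · intro h
        exact ⟨by rw [h]; decide, h⟩)]
    exact Finset.prod_congr rfl fun v _ => by rw [join_neg f a b b' v.2]
  · rw [Finset.prod_bij' (t := univ.filter (fun v => f.side j v = -1))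
      (g := fun v => w j (join f a b b' j (f.s j v))) (fun v _ => f.s j v) (fun v _ => f.s j v)]
    · rw [Finset.prod_subtype (p := fun v => f.side j v = -1) _ (by simp)]
      refine Finset.prod_congr rfl fun v _ => ?_
      rw [join_pos f a b b' (v := f.s j v) (by rw [f.flip, v.2]; rfl)]
      congr 2
      exact Subtype.ext (f.inv j v)
    · intro v hv
      simp only [mem_filter, mem_univ, true_and] at hv ⊢
      exact side_s f hv.1 hv.2
    · intro v hv
      simp only [mem_filter, mem_univ, true_and] at hv ⊢
      rw [f.flip, hv]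
      decide
    · intro v _
      exact f.inv j v
    · intro v _
      exact f.inv j v
    · intro v _
      rw [f.inv]

open scoped Classical in
/-- edges inside side `0` -/
noncomputable def He0 (f : Folding H) : Finset ((j : Fin d) → V j) :=
  H.filter (fun e => ∀ j, f.side j (e j) = 0)

open scoped Classical in
/-- edges meeting side `-1` -/
noncomputable def Hem (f : Folding H) : Finset ((j : Fin d) → V j) :=
  H.filter (fun e => ∃ j, f.side j (e j) = -1)

open scoped Classical in
/-- edges meeting side `1` -/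
noncomputable def Hep (f : Folding H) : Finset ((j : Fin d) → V j) :=
  H.filter (fun e => ∃ j, f.side j (e j) = 1)

theorem mem_He0 {e : (j : Fin d) → V j} : e ∈ He0 f ↔ e ∈ H ∧ ∀ j, f.side j (e j) = 0 := by
  unfold He0
  rw [mem_filter]

theorem mem_Hem {e : (j : Fin d) → V j} : e ∈ Hem f ↔ e ∈ H ∧ ∃ j, f.side j (e j) = -1 := by
  unfold Hem
  rw [mem_filter]

theorem mem_Hep {e : (j : Fin d) → V j} : e ∈ Hep f ↔ e ∈ H ∧ ∃ j, f.side j (e j) = 1 := by
  unfold Hep
  rw [mem_filter]

theorem prod_split (g : ((j : Fin d) → V j) → ℝ) :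
    ∏ e ∈ H, g e = (∏ e ∈ He0 f, g e) * ((∏ e ∈ Hem f, g e) * ∏ e ∈ Hep f, g e) := by
  classical
  have h0 : H.filter (fun e => ∀ j, f.side j (e j) = 0) = He0 f := by
    ext e
    rw [mem_He0, mem_filter]
  have h1 : (H.filter (fun e => ¬ ∀ j, f.side j (e j) = 0)).filter
      (fun e => ∃ j, f.side j (e j) = -1) = Hem f := by
    ext e
    rw [mem_Hem, mem_filter, mem_filter]
    constructor
    · exact fun h => ⟨h.1.1, h.2⟩
    · rintro ⟨h1, j, hj⟩
      refine ⟨⟨h1, fun h => ?_⟩, j, hj⟩
      have := h j
      omega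
  have h2 : (H.filter (fun e => ¬ ∀ j, f.side j (e j) = 0)).filter
      (fun e => ¬ ∃ j, f.side j (e j) = -1) = Hep f := by
    ext e
    rw [mem_Hep, mem_filter, mem_filter]
    constructor
    · rintro ⟨⟨h1, h2⟩, h3⟩
      refine ⟨h1, ?_⟩
      by_contra hc
      apply h2
      intro j
      rcases f.three j (e j) with h | h | h
      · exact absurd ⟨j, h⟩ h3
      · exact h
      · exact absurd ⟨j, h⟩ hc
    · rintro ⟨h1, j, hj⟩
      refine ⟨⟨h1, fun h => ?_⟩, ?_⟩
      · have := h j
        omega
      · rintro ⟨j', hj'⟩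
        exact f.cut e h1 j' j hj' hj
  rw [← Finset.prod_filter_mul_prod_filter_not H (fun e => ∀ j, f.side j (e j) = 0) g,
    ← Finset.prod_filter_mul_prod_filter_not (H.filter (fun e => ¬ ∀ j, f.side j (e j) = 0))
      (fun e => ∃ j, f.side j (e j) = -1) g, h0, h1, h2]

theorem pt_zero (a : FA f X) (b b' : FB f X) {e : (j : Fin d) → V j}
    (he : ∀ j, f.side j (e j) = 0) : pt (join f a b b') e = fun j => a j ⟨e j, he j⟩ := by
  funext j
  exact join_zero f a b b' (he j)

theorem pt_neg (a : FA f X) (b b' : FB f X) {e : (j : Fin d) → V j} (he : e ∈ Hem f) :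
    pt (join f a b b') e = pt (join f a b b) e := by
  obtain ⟨h1, j', hj'⟩ := (mem_Hem f).1 he
  funext j
  rcases f.three j (e j) with h | h | h
  · exact (join_neg f a b b' h).trans (join_neg f a b b h).symm
  · exact (join_zero f a b b' h).trans (join_zero f a b b h).symm
  · exact absurd (f.cut e h1 j' j hj' h) id

theorem pt_pos (a : FA f X) (b b' : FB f X) {e : (j : Fin d) → V j} (he : e ∈ Hep f) :
    pt (join f a b b') e = pt (join f a b' b') e := by
  obtain ⟨h1, j', hj'⟩ := (mem_Hep f).1 he
  funext j
  rcases f.three j (e j) with h | h | h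
  · exact absurd (f.cut e h1 j j' h hj') id
  · exact (join_zero f a b b' h).trans (join_zero f a b' b' h).symm
  · exact (join_pos f a b b' h).trans (join_pos f a b' b' h).symm

theorem pt_refl (a : FA f X) (b : FB f X) (e : (j : Fin d) → V j) :
    pt (join f a b b) (fun j => f.s j (e j)) = pt (join f a b b) e := by
  funext j
  exact join_refl f a b j (e j)

/-- factor of the edges inside side `0` -/
noncomputable def cF (F : ((j : Fin d) → V j) → ((j : Fin d) → X j) → ℝ) (a : FA f X) : ℝ :=
  ∏ e ∈ (He0 f).attach, F e.1 (fun j => a j ⟨e.1 j, ((mem_He0 f).1 e.2).2 j⟩)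

/-- factor of the edges meeting side `-1` -/
noncomputable def pF (F : ((j : Fin d) → V j) → ((j : Fin d) → X j) → ℝ) (a : FA f X)
    (b : FB f X) : ℝ := ∏ e ∈ Hem f, F e (pt (join f a b b) e)

/-- factor of the edges meeting side `1` -/
noncomputable def qF (F : ((j : Fin d) → V j) → ((j : Fin d) → X j) → ℝ) (a : FA f X)
    (b : FB f X) : ℝ := ∏ e ∈ Hep f, F e (pt (join f a b b) e)

variable [∀ j, Fintype (X j)]

theorem homC_eq (w : (j : Fin d) → X j → ℝ)
    (F : ((j : Fin d) → V j) → ((j : Fin d) → X j) → ℝ) :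
    homC H w F = ∑ a : FA f X, al f w a * cF f F a *
      ((∑ b : FB f X, be f w b * pF f F a b) * (∑ b : FB f X, be f w b * qF f F a b)) := by
  unfold homC
  rw [← (spl f X).symm.sum_comp, Fintype.sum_prod_type]
  refine Finset.sum_congr rfl fun a _ => ?_
  rw [Fintype.sum_prod_type, Finset.sum_mul_sum, Finset.mul_sum]
  refine Finset.sum_congr rfl fun b _ => ?_
  rw [Finset.mul_sum]
  refine Finset.sum_congr rfl fun b' _ => ?_
  change wt w (join f a b b') * ∏ e ∈ H, F e (pt (join f a b b') e) = _
  rw [wt_join, prod_split f]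
  have e1 : ∏ e ∈ He0 f, F e (pt (join f a b b') e) = cF f F a := by
    unfold cF
    rw [← Finset.prod_attach]
    exact Finset.prod_congr rfl fun e _ => by rw [pt_zero f a b b' ((mem_He0 f).1 e.2).2]
  have e2 : ∏ e ∈ Hem f, F e (pt (join f a b b') e) = pF f F a b :=
    Finset.prod_congr rfl fun e he => by rw [pt_neg f a b b' he]
  have e3 : ∏ e ∈ Hep f, F e (pt (join f a b b') e) = qF f F a b' :=
    Finset.prod_congr rfl fun e he => by rw [pt_pos f a b b' he]
  rw [e1, e2, e3]
  ring

omit [∀ j, Fintype (X j)] in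
theorem map_zero {e : (j : Fin d) → V j} (he : e ∈ He0 f) : f.map e = e := by
  unfold Folding.map
  rw [if_neg]
  rintro ⟨j, hj⟩
  have := ((mem_He0 f).1 he).2 j
  omega

omit [∀ j, Fintype (X j)] in
theorem map_neg {e : (j : Fin d) → V j} (he : e ∈ Hem f) : f.map e = e := by
  unfold Folding.map
  rw [if_neg]
  rintro ⟨j, hj⟩
  obtain ⟨h1, j', hj'⟩ := (mem_Hem f).1 he
  exact f.cut e h1 j' j hj' hj

omit [∀ j, Fintype (X j)] in
theorem map_pos {e : (j : Fin d) → V j} (he : e ∈ Hep f) :
    f.map e = fun j => f.s j (e j) := by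
  unfold Folding.map
  rw [if_pos ((mem_Hep f).1 he).2]

omit [∀ j, Fintype (X j)] in
theorem symm_map_zero {e : (j : Fin d) → V j} (he : e ∈ He0 f) : f.symm.map e = e := by
  unfold Folding.map
  rw [if_neg]
  rintro ⟨j, hj⟩
  have h1 := ((mem_He0 f).1 he).2 j
  have h2 : - f.side j (e j) = 1 := hj
  omega

omit [∀ j, Fintype (X j)] in
theorem symm_map_pos {e : (j : Fin d) → V j} (he : e ∈ Hep f) : f.symm.map e = e := by
  unfold Folding.map
  rw [if_neg]
  rintro ⟨j, hj⟩
  obtain ⟨h1, j', hj'⟩ := (mem_Hep f).1 he
  have h2 : - f.side j (e j) = 1 := hj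
  exact f.cut e h1 j j' (by omega) hj'

omit [∀ j, Fintype (X j)] in
theorem symm_map_neg {e : (j : Fin d) → V j} (he : e ∈ Hem f) :
    f.symm.map e = fun j => f.s j (e j) := by
  unfold Folding.map
  obtain ⟨h1, j, hj⟩ := (mem_Hem f).1 he
  rw [if_pos]
  · rfl
  · refine ⟨j, ?_⟩
    change - f.side j (e j) = 1
    omega

/-- the reflection is a bijection between the edges meeting the two sides -/
theorem prod_refl (g : ((j : Fin d) → V j) → ℝ) :
    ∏ e ∈ Hep f, g (fun j => f.s j (e j)) = ∏ e ∈ Hem f, g e := by
  refine Finset.prod_bij' (fun e _ => fun j => f.s j (e j)) (fun e _ => fun j => f.s j (e j))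
    ?_ ?_ ?_ ?_ ?_
  · intro e he
    obtain ⟨h1, j, hj⟩ := (mem_Hep f).1 he
    exact (mem_Hem f).2 ⟨f.aut e h1, j, by rw [f.flip, hj]⟩
  · intro e he
    obtain ⟨h1, j, hj⟩ := (mem_Hem f).1 he
    exact (mem_Hep f).2 ⟨f.aut e h1, j, by rw [f.flip, hj]; rfl⟩
  · intro e _
    funext j
    exact f.inv j (e j)
  · intro e _
    funext j
    exact f.inv j (e j)
  · intro e _
    rfl

theorem prod_refl' (g : ((j : Fin d) → V j) → ℝ) :
    ∏ e ∈ Hem f, g (fun j => f.s j (e j)) = ∏ e ∈ Hep f, g e := by
  rw [← prod_refl f (fun e => g (fun j => f.s j (e j)))]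
  refine Finset.prod_congr rfl fun e _ => ?_
  congr 1
  funext j
  exact f.inv j (e j)

end FoldCSAux

open FoldCSAux in

theorem fold_cs {H : Finset ((j : Fin d) → V j)} (f : Folding H) {X : Fin d → Type}
    [∀ j, Fintype (X j)] (w : (j : Fin d) → X j → ℝ) (hw : ∀ j u, 0 ≤ w j u)
    (F : ((j : Fin d) → V j) → ((j : Fin d) → X j) → ℝ) (hF : ∀ e u, 0 ≤ F e u) :
    homC H w F ^ 2 ≤ homC H w (fun e => F (f.map e)) * homC H w (fun e => F (f.symm.map e)) := by
  have c1 : ∀ a : FA f X, cF f (fun e => F (f.map e)) a = cF f F a := fun a =>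
    Finset.prod_congr rfl fun e _ => by
      show F (f.map e.1) _ = _
      rw [map_zero f e.2]
  have c2 : ∀ a : FA f X, cF f (fun e => F (f.symm.map e)) a = cF f F a := fun a =>
    Finset.prod_congr rfl fun e _ => by
      show F (f.symm.map e.1) _ = _
      rw [symm_map_zero f e.2]
  have p1 : ∀ (a : FA f X) (b : FB f X), pF f (fun e => F (f.map e)) a b = pF f F a b :=
    fun a b => Finset.prod_congr rfl fun e he => by
      show F (f.map e) _ = _
      rw [map_neg f he]
  have q1 : ∀ (a : FA f X) (b : FB f X), qF f (fun e => F (f.map e)) a b = pF f F a b := by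
    intro a b
    unfold pF
    rw [← prod_refl f]
    refine Finset.prod_congr rfl fun e he => ?_
    show F (f.map e) _ = _
    rw [map_pos f he, pt_refl]
  have q2 : ∀ (a : FA f X) (b : FB f X), qF f (fun e => F (f.symm.map e)) a b = qF f F a b :=
    fun a b => Finset.prod_congr rfl fun e he => by
      show F (f.symm.map e) _ = _
      rw [symm_map_pos f he]
  have p2 : ∀ (a : FA f X) (b : FB f X), pF f (fun e => F (f.symm.map e)) a b = qF f F a b := by
    intro a b
    unfold qF
    rw [← prod_refl' f]
    refine Finset.prod_congr rfl fun e he => ?_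
    show F (f.symm.map e) _ = _
    rw [symm_map_neg f he, pt_refl]
  rw [homC_eq f, homC_eq f w (fun e => F (f.map e)), homC_eq f w (fun e => F (f.symm.map e))]
  simp only [c1, c2, p1, q1, p2, q2]
  have ha : ∀ a : FA f X, 0 ≤ al f w a * cF f F a := fun a =>
    mul_nonneg (Finset.prod_nonneg fun j _ => Finset.prod_nonneg fun v _ => hw _ _)
      (Finset.prod_nonneg fun e _ => hF _ _)
  apply Finset.sum_sq_le_sum_mul_sum_of_sq_le_mul
  · intro a _
    exact mul_nonneg (ha a) (mul_self_nonneg _)
  · intro a _
    exact mul_nonneg (ha a) (mul_self_nonneg _)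
  · intro a _
    exact le_of_eq (by ring)

end Pool.Agent.NP
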