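import Pool.Agent.Lib.NP.FoldCS

/-!
# Percolating foldings give the Hoelder property

Sketch. Fix `w`, `F ≥ 0`, `R = H.card ≥ 1`. For numbers `lam e > 0` (`e ∈ H`) consider the finitely many
colourings `c` of the edges by edges and the values `T c = homC H w (fun e u => lam (c e) * F (c e) u)`. Let `M` be
the maximum over `c`. If `M = 0` then `homC H w F = 0` and we are done. If `T c = M > 0` then by `fold_cs`
`M ^ 2 ≤ T (c ∘ f.map) * T (c ∘ f.symm.map) ≤ T (c ∘ f.map) * M`, so `T (c ∘ f.map) = M`. By induction on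
the list, `T (fun e => c (L.foldr (fun f e' => f.map e') e)) = M`, and this colouring is the constant `c e₀`.
Then choose `lam e = (hom H w (F e) + δ) ^ (-1/R)` and let `δ → 0`.
-/

set_option autoImplicit false

open Finset Filter

namespace Pool.Agent.NP

variable {d : ℕ} {V : Fin d → Type} [∀ j, Fintype (V j)] [∀ j, DecidableEq (V j)]

theorem fm_map_mem {H : Finset ((j : Fin d) → V j)} (f : Folding H) {e : (j : Fin d) → V j}
    (he : e ∈ H) : f.map e ∈ H := by
  unfold Folding.map
  split_ifs
  · exact f.aut e he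
  · exact he

theorem fm_homC_nonneg (H : Finset ((j : Fin d) → V j)) {X : Fin d → Type}
    [∀ j, Fintype (X j)] (w : (j : Fin d) → X j → ℝ) (hw : ∀ j u, 0 ≤ w j u)
    (F : ((j : Fin d) → V j) → ((j : Fin d) → X j) → ℝ) (hF : ∀ e u, 0 ≤ F e u) :
    0 ≤ homC H w F :=
  Finset.sum_nonneg fun t _ => mul_nonneg
    (Finset.prod_nonneg fun j _ => Finset.prod_nonneg fun v _ => hw j _)
    (Finset.prod_nonneg fun e _ => hF e _)

/-- The maximum over the colourings is attained at a constant colouring. -/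
theorem fm_homC_le_const {H : Finset ((j : Fin d) → V j)} (hne : H.Nonempty)
    (hH : Percolates H) {X : Fin d → Type}
    [∀ j, Fintype (X j)] (w : (j : Fin d) → X j → ℝ) (hw : ∀ j u, 0 ≤ w j u)
    (G : ((j : Fin d) → V j) → ((j : Fin d) → X j) → ℝ) (hG : ∀ e u, 0 ≤ G e u) :
    ∃ e₁ ∈ H, homC H w G ≤ hom H w (G e₁) := by
  classical
  obtain ⟨L, e₀, hL⟩ := hH
  obtain ⟨e', he'⟩ := hne
  set T : (((j : Fin d) → V j) → ((j : Fin d) → V j)) → ℝ := fun c => homC H w (fun e => G (c e))
    with hT
  set C : Finset (((j : Fin d) → V j) → ((j : Fin d) → V j)) :=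
    univ.filter (fun c => ∀ e ∈ H, c e ∈ H) with hC
  have hCne : C.Nonempty := ⟨id, by simp [hC]⟩
  obtain ⟨c, hcC, hmax⟩ := Finset.exists_max_image C T hCne
  have hid : T id ≤ T c := hmax id (by simp [hC])
  have hT0 : ∀ c, 0 ≤ T c := fun c => fm_homC_nonneg H w hw _ (fun e u => hG (c e) u)
  rcases (hT0 c).lt_or_eq with hpos | hzero
  · have key : ∀ (L : List (Folding H)) (c' : ((j : Fin d) → V j) → ((j : Fin d) → V j)),
        c' ∈ C → T c' = T c → (fun e => c' (L.foldr (fun f e' => f.map e') e)) ∈ C ∧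
          T (fun e => c' (L.foldr (fun f e' => f.map e') e)) = T c := by
      intro L
      induction L with
      | nil => intro c' h1 h2; exact ⟨h1, h2⟩
      | cons f L ih =>
        intro c' h1 h2
        have hm : ∀ g : Folding H, (fun e => c' (g.map e)) ∈ C := by
          intro g
          rw [hC, Finset.mem_filter] at h1 ⊢
          exact ⟨Finset.mem_univ _, fun e he => h1.2 _ (fm_map_mem g he)⟩
        have h3 : T c' ^ 2 ≤ T (fun e => c' (f.map e)) * T (fun e => c' (f.symm.map e)) :=
          fold_cs f w hw (fun e => G (c' e)) (fun e u => hG _ _)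
        have h4 := hmax _ (hm f)
        have h5 := hmax _ (hm f.symm)
        have h6 : T (fun e => c' (f.map e)) = T c := by
          refine le_antisymm h4 ?_
          rw [h2] at h3
          have h7 : T (fun e => c' (f.map e)) * T (fun e => c' (f.symm.map e)) ≤
              T (fun e => c' (f.map e)) * T c := mul_le_mul_of_nonneg_left h5 (hT0 _)
          nlinarith
        exact ih (fun e => c' (f.map e)) (hm f) h6
    obtain ⟨h1, h2⟩ := key L c hcC rfl
    rw [hC, Finset.mem_filter] at h1
    have h3 := h1.2 e' he'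
    simp only [hL e' he'] at h3
    refine ⟨c e₀, h3, ?_⟩
    have h4 : T (fun e => c (L.foldr (fun f e' => f.map e') e)) = hom H w (G (c e₀)) := by
      simp only [hT, homC, hom]
      refine Finset.sum_congr rfl fun t _ => ?_
      congr 1
      refine Finset.prod_congr rfl fun e he => ?_
      rw [hL e he]
    rw [← h4, h2]
    exact hid
  · refine ⟨e', he', ?_⟩
    have h1 : homC H w G ≤ 0 := by rw [hzero]; exact hid
    exact h1.trans (fm_homC_nonneg H w hw (fun _ => G e') (fun _ u => hG e' u))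

theorem fm_homC_smul (H : Finset ((j : Fin d) → V j)) {X : Fin d → Type}
    [∀ j, Fintype (X j)] (w : (j : Fin d) → X j → ℝ)
    (F : ((j : Fin d) → V j) → ((j : Fin d) → X j) → ℝ) (lam : ((j : Fin d) → V j) → ℝ) :
    homC H w (fun e u => lam e * F e u) = (∏ e ∈ H, lam e) * homC H w F := by
  unfold homC
  rw [Finset.mul_sum]
  refine Finset.sum_congr rfl fun t _ => ?_
  rw [Finset.prod_mul_distrib]
  ring

theorem fm_hom_smul (H : Finset ((j : Fin d) → V j)) {X : Fin d → Type}
    [∀ j, Fintype (X j)] (w : (j : Fin d) → X j → ℝ) (F : ((j : Fin d) → X j) → ℝ) (c : ℝ) :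
    hom H w (fun u => c * F u) = c ^ H.card * hom H w F := by
  have h := fm_homC_smul H w (fun _ => F) (fun _ => c)
  rw [Finset.prod_const] at h
  exact h

theorem holder_of_percolates {H : Finset ((j : Fin d) → V j)} (hne : H.Nonempty)
    (hH : Percolates H) : Holder H := by
  intro X _ w F hw hF
  have hR : 0 < H.card := hne.card_pos
  have hR0 : (0 : ℝ) < (H.card : ℝ) := by exact_mod_cast hR
  have hh0 : ∀ e, 0 ≤ hom H w (F e) := fun e => fm_homC_nonneg H w hw (fun _ => F e) (fun _ u => hF e u)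
  have key : ∀ δ : ℝ, 0 < δ → homC H w F ≤ ∏ e ∈ H, (hom H w (F e) + δ) ^ (1 / (H.card : ℝ)) := by
    intro δ hδ
    set lam : ((j : Fin d) → V j) → ℝ := fun e => (hom H w (F e) + δ) ^ (-(1 / (H.card : ℝ)))
      with hlam
    have hpos : ∀ e, 0 < hom H w (F e) + δ := fun e => by linarith [hh0 e]
    have hl0 : ∀ e, 0 < lam e := fun e => Real.rpow_pos_of_pos (hpos e) _
    obtain ⟨e₁, -, he⟩ := fm_homC_le_const hne hH w hw (fun e u => lam e * F e u)
      (fun e u => mul_nonneg (hl0 e).le (hF e u))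
    rw [fm_homC_smul, fm_hom_smul] at he
    have h1 : lam e₁ ^ H.card * hom H w (F e₁) ≤ 1 := by
      have h2 : lam e₁ ^ H.card = (hom H w (F e₁) + δ)⁻¹ := by
        rw [hlam]
        show ((hom H w (F e₁) + δ) ^ (-(1 / (H.card : ℝ)))) ^ H.card = _
        rw [← Real.rpow_natCast, ← Real.rpow_mul (hpos e₁).le]
        have : -(1 / (H.card : ℝ)) * (H.card : ℝ) = -1 := by field_simp
        rw [this, Real.rpow_neg_one]
      rw [h2, inv_mul_le_iff₀ (hpos e₁)]
      linarith
    have h2 : (∏ e ∈ H, lam e) * homC H w F ≤ 1 := he.trans h1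
    have h3 : ∏ e ∈ H, lam e = (∏ e ∈ H, (hom H w (F e) + δ) ^ (1 / (H.card : ℝ)))⁻¹ := by
      rw [← Finset.prod_inv_distrib]
      refine Finset.prod_congr rfl fun e _ => ?_
      rw [hlam]
      exact Real.rpow_neg (hpos e).le _
    rw [h3, inv_mul_le_iff₀ (Finset.prod_pos fun e _ => Real.rpow_pos_of_pos (hpos e) _),
      mul_one] at h2
    exact h2
  have hcont : Tendsto (fun δ : ℝ => ∏ e ∈ H, (hom H w (F e) + δ) ^ (1 / (H.card : ℝ)))
      (nhdsWithin 0 (Set.Ioi 0)) (nhds (∏ e ∈ H, (hom H w (F e)) ^ (1 / (H.card : ℝ)))) := by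
    have hc : Continuous (fun δ : ℝ => ∏ e ∈ H, (hom H w (F e) + δ) ^ (1 / (H.card : ℝ))) := by
      refine continuous_finset_prod _ fun e _ => ?_
      refine (continuous_const.add continuous_id).rpow_const fun x => Or.inr ?_
      positivity
    have h := (hc.tendsto 0).mono_left (nhdsWithin_le_nhds (s := Set.Ioi (0 : ℝ)))
    simpa only [add_zero] using h
  refine ge_of_tendsto hcont ?_
  filter_upwards [self_mem_nhdsWithin] with δ hδ
  exact key δ hδ

end Pool.Agent.NP
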