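import Pool.Agent.Lib.NP.Weak

/-!
# The Hoelder property implies weak norming

Sketch. Put `R = H.card ≥ 1`, `N F = hom H w F ^ (1/R) ≥ 0`. Expand (`Finset.prod_add`)
`∏_{e ∈ H} (F + G) (pt t e) = ∑_{S ⊆ H} ∏_{e ∈ S} F (pt t e) * ∏_{e ∈ H \ S} G (pt t e)`, so
`hom H w (F + G) = ∑_{S ∈ H.powerset} homC H w (fun e => if e ∈ S then F else G)
  ≤ ∑_{S ∈ H.powerset} N F ^ |S| * N G ^ (R - |S|) = (N F + N G) ^ R`
(`Finset.sum_pow_mul_eq_add_pow`). Take `R`-th roots (`Real.rpow_le_rpow`,
`Real.pow_rpow_inv_natCast`).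
-/

set_option autoImplicit false

open Finset

namespace Pool.Agent.NP

variable {d : ℕ} {V : Fin d → Type} [∀ j, Fintype (V j)] [∀ j, DecidableEq (V j)]

namespace HolderAux

omit [∀ j, DecidableEq (V j)] in
theorem wt_nonneg {X : Fin d → Type} {w : (j : Fin d) → X j → ℝ} (hw : ∀ j u, 0 ≤ w j u)
    (t : (j : Fin d) → V j → X j) : 0 ≤ wt w t :=
  Finset.prod_nonneg fun j _ => Finset.prod_nonneg fun v _ => hw j (t j v)

theorem hom_nonneg (H : Finset ((j : Fin d) → V j)) {X : Fin d → Type} [∀ j, Fintype (X j)]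
    {w : (j : Fin d) → X j → ℝ} {F : ((j : Fin d) → X j) → ℝ} (hw : ∀ j u, 0 ≤ w j u)
    (hF : ∀ u, 0 ≤ F u) : 0 ≤ hom H w F :=
  Finset.sum_nonneg fun t _ => mul_nonneg (wt_nonneg hw t)
    (Finset.prod_nonneg fun _ _ => hF _)

omit [∀ j, Fintype (V j)] in
theorem prod_split (H S : Finset ((j : Fin d) → V j)) (hS : S ⊆ H)
    (a b : ((j : Fin d) → V j) → ℝ) :
    (∏ e ∈ H, if e ∈ S then a e else b e) = (∏ e ∈ S, a e) * ∏ e ∈ H \ S, b e := by
  rw [← Finset.prod_sdiff hS, mul_comm]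
  congr 1
  · exact Finset.prod_congr rfl fun e he => if_pos he
  · exact Finset.prod_congr rfl fun e he => if_neg (Finset.mem_sdiff.1 he).2

theorem hom_add (H : Finset ((j : Fin d) → V j)) {X : Fin d → Type} [∀ j, Fintype (X j)]
    (w : (j : Fin d) → X j → ℝ) (F G : ((j : Fin d) → X j) → ℝ) :
    hom H w (fun u => F u + G u) =
      ∑ S ∈ H.powerset, homC H w (fun e => if e ∈ S then F else G) := by
  unfold hom homC
  rw [Finset.sum_comm]
  refine Finset.sum_congr rfl fun t _ => ?_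
  rw [← Finset.mul_sum]
  congr 1
  rw [Finset.prod_add]
  refine Finset.sum_congr rfl fun S hS => ?_
  rw [← prod_split H S (Finset.mem_powerset.1 hS)]
  refine Finset.prod_congr rfl fun e _ => ?_
  by_cases h : e ∈ S
  · simp only [if_pos h]
  · simp only [if_neg h]

end HolderAux

open HolderAux

theorem weaklyNorming_of_holder {H : Finset ((j : Fin d) → V j)} (hne : H.Nonempty)
    (hH : Holder H) : WeaklyNorming H := by
  intro X _ w F G hw hF hG
  have hR : H.card ≠ 0 := Finset.card_ne_zero.2 hne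
  set NF : ℝ := hom H w F ^ (1 / (H.card : ℝ)) with hNF
  set NG : ℝ := hom H w G ^ (1 / (H.card : ℝ)) with hNG
  have hF0 := hom_nonneg H hw hF
  have hG0 := hom_nonneg H hw hG
  have hNF0 : 0 ≤ NF := Real.rpow_nonneg hF0 _
  have hNG0 : 0 ≤ NG := Real.rpow_nonneg hG0 _
  have key : hom H w (fun u => F u + G u) ≤ (NF + NG) ^ H.card := by
    rw [hom_add, ← Finset.sum_pow_mul_eq_add_pow]
    refine Finset.sum_le_sum fun S hS => ?_
    have hS' := Finset.mem_powerset.1 hS
    refine (hH X w (fun e => if e ∈ S then F else G) hw ?_).trans (le_of_eq ?_)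
    · intro e u
      by_cases h : e ∈ S
      · simp only [if_pos h]
        exact hF u
      · simp only [if_neg h]
        exact hG u
    · have e1 : ∀ e ∈ H, hom H w (if e ∈ S then F else G) ^ (1 / (H.card : ℝ)) =
          if e ∈ S then NF else NG := by
        intro e _
        split_ifs <;> rfl
      rw [Finset.prod_congr rfl e1, prod_split H S hS', Finset.prod_const, Finset.prod_const,
        Finset.card_sdiff_of_subset hS']
  have h1 := Real.rpow_le_rpow (hom_nonneg H hw (fun u => add_nonneg (hF u) (hG u))) key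
    (by positivity : (0 : ℝ) ≤ 1 / (H.card : ℝ))
  have h2 : ((NF + NG) ^ H.card) ^ (1 / (H.card : ℝ)) = NF + NG := by
    rw [one_div]
    exact Real.pow_rpow_inv_natCast (add_nonneg hNF0 hNG0) hR
  rw [h2] at h1
  exact h1

end Pool.Agent.NP
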