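import Pool.Agent.Lib.NP.Tensor

/-!
# Density of copies in a host of given edge density (the Sidorenko property of weakly norming patterns)
-/

set_option autoImplicit false

open Finset

namespace Pool.Agent.NP

variable {d : ℕ} {V : Fin d → Type} [∀ j, Fintype (V j)] [∀ j, DecidableEq (V j)]

lemma sum_wt_eq {X : Fin d → Type} [∀ j, Fintype (X j)] (w : (j : Fin d) → X j → ℝ) :
    ∑ t : (j : Fin d) → V j → X j, wt w t = ∏ j, (∑ y, w j y) ^ Fintype.card (V j) := by
  unfold wt
  have h1 := Finset.prod_univ_sum (fun j : Fin d => (univ : Finset (V j → X j)))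
    (fun j f => ∏ v, w j (f v))
  rw [Fintype.piFinset_univ] at h1
  rw [← h1]
  refine Finset.prod_congr rfl fun j _ => ?_
  have h2 := Finset.prod_univ_sum (fun _ : V j => (univ : Finset (X j))) (fun _ y => w j y)
  rw [Fintype.piFinset_univ, Finset.prod_const, Finset.card_univ] at h2
  exact h2.symm

/-- One coordinate fixed. -/
lemma sum_fixed {U Y : Type} [Fintype U] [DecidableEq U] [Fintype Y] [DecidableEq Y] (v0 : U)
    (w : Y → ℝ) (y : Y) :
    ∑ s : U → Y, (if s v0 = y then ∏ v, w (s v) else 0)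
      = w y * (∑ z, w z) ^ (Fintype.card U - 1) := by
  have h1 : ∀ s : U → Y, (if s v0 = y then ∏ v, w (s v) else 0)
      = ∏ v, (if v = v0 then (if s v = y then w (s v) else 0) else w (s v)) := by
    intro s
    rw [← Finset.mul_prod_erase univ
      (fun v => if v = v0 then (if s v = y then w (s v) else 0) else w (s v)) (mem_univ v0),
      if_pos rfl, ← Finset.mul_prod_erase univ (fun v => w (s v)) (mem_univ v0)]
    have h2 : ∏ v ∈ univ.erase v0, (if v = v0 then (if s v = y then w (s v) else 0) else w (s v))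
        = ∏ v ∈ univ.erase v0, w (s v) :=
      Finset.prod_congr rfl fun v hv => if_neg (Finset.ne_of_mem_erase hv)
    rw [h2]
    split_ifs
    · rfl
    · rw [zero_mul]
  rw [Finset.sum_congr rfl fun s _ => h1 s]
  have h3 := Finset.prod_univ_sum (fun _ : U => (univ : Finset Y))
    (fun v z => if v = v0 then (if z = y then w z else 0) else w z)
  rw [Fintype.piFinset_univ] at h3
  rw [← h3, ← Finset.mul_prod_erase univ _ (mem_univ v0)]
  have h4 : ∑ z, (if v0 = v0 then (if z = y then w z else 0) else w z) = w y := by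
    simp
  rw [h4]
  congr 1
  have h5 : ∀ v ∈ univ.erase v0, ∑ z, (if v = v0 then (if z = y then w z else 0) else w z)
      = ∑ z, w z := fun v hv =>
    Finset.sum_congr rfl fun z _ => if_neg (Finset.ne_of_mem_erase hv)
  rw [Finset.prod_congr rfl h5, Finset.prod_const, Finset.card_erase_of_mem (mem_univ _),
    Finset.card_univ]

open scoped Classical in
/-- The marginal of one edge. -/
lemma marginal {X : Fin d → Type} [∀ j, Fintype (X j)] (w : (j : Fin d) → X j → ℝ)
    (h : ((j : Fin d) → X j) → ℝ) (e : (j : Fin d) → V j) :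
    (∏ j, ∑ y, w j y) * ∑ t : (j : Fin d) → V j → X j, wt w t * h (pt t e)
      = (∑ t : (j : Fin d) → V j → X j, wt w t) * ∑ u : (j : Fin d) → X j, (∏ j, w j (u j)) * h u := by
  have hV : ∀ j, 0 < Fintype.card (V j) := fun j => Fintype.card_pos_iff.mpr ⟨e j⟩
  have h1 : ∑ t : (j : Fin d) → V j → X j, wt w t * h (pt t e)
      = ∑ u : (j : Fin d) → X j, h u * ∏ j, (w j (u j) * (∑ y, w j y) ^ (Fintype.card (V j) - 1)) := by
    have h2 : ∀ t : (j : Fin d) → V j → X j, wt w t * h (pt t e)
        = ∑ u : (j : Fin d) → X j, h u * ∏ j, (if t j (e j) = u j then ∏ v, w j (t j v) else 0) := by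
      intro t
      rw [Finset.sum_eq_single (pt t e)]
      · have h3 : ∏ j, (if t j (e j) = pt t e j then ∏ v, w j (t j v) else 0) = wt w t :=
          Finset.prod_congr rfl fun j _ => if_pos rfl
        rw [h3, mul_comm]
      · intro u _ hu
        have h4 : ∃ j, t j (e j) ≠ u j := by
          by_contra hcon
          push Not at hcon
          exact hu (funext fun j => (hcon j).symm)
        obtain ⟨j, hj⟩ := h4
        rw [Finset.prod_eq_zero (mem_univ j) (if_neg hj), mul_zero]
      · intro h5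
        exact absurd (mem_univ _) h5
    rw [Finset.sum_congr rfl fun t _ => h2 t, Finset.sum_comm]
    refine Finset.sum_congr rfl fun u _ => ?_
    rw [← Finset.mul_sum]
    congr 1
    have h6 := Finset.prod_univ_sum (fun j : Fin d => (univ : Finset (V j → X j)))
      (fun j s => if s (e j) = u j then ∏ v, w j (s v) else 0)
    rw [Fintype.piFinset_univ] at h6
    rw [← h6]
    refine Finset.prod_congr rfl fun j _ => ?_
    exact sum_fixed (e j) (w j) (u j)
  rw [h1, sum_wt_eq, Finset.mul_sum, Finset.mul_sum]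
  refine Finset.sum_congr rfl fun u _ => ?_
  have h7 : ∏ j, (∑ y, w j y) ^ Fintype.card (V j)
      = (∏ j, ∑ y, w j y) * ∏ j, (∑ y, w j y) ^ (Fintype.card (V j) - 1) := by
    rw [← Finset.prod_mul_distrib]
    refine Finset.prod_congr rfl fun j _ => ?_
    have := hV j
    rw [← pow_succ']
    congr 1
    omega
  rw [h7, Finset.prod_mul_distrib]
  ring

/-- Weakly norming patterns have the Sidorenko property. -/
theorem host_density {H : Finset ((j : Fin d) → V j)} (hne : H.Nonempty) (hH : WeaklyNorming H)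
    {X : Fin d → Type} [∀ j, Fintype (X j)] (w : (j : Fin d) → X j → ℝ) (hw : ∀ j u, 0 ≤ w j u)
    (h : ((j : Fin d) → X j) → ℝ) (hh : ∀ u, 0 ≤ h u) {q : ℝ} (hq : 0 ≤ q)
    (hdens : q * ∏ j, ∑ y, w j y ≤ ∑ u : (j : Fin d) → X j, (∏ j, w j (u j)) * h u) :
    q ^ H.card * ∑ t : (j : Fin d) → V j → X j, wt w t ≤ hom H w h := by
  classical
  obtain ⟨e, he⟩ := hne
  have hne : H.Nonempty := ⟨e, he⟩
  set W : ℝ := ∑ t : (j : Fin d) → V j → X j, wt w t with hW
  have hW0 : 0 ≤ W := Finset.sum_nonneg fun t _ => wt_nonneg' hw t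
  have hB0 : 0 ≤ hom H w h := hom_nonneg hw hh
  have hRpos : 0 < H.card := hne.card_pos
  have hR : (0:ℝ) < H.card := by exact_mod_cast hRpos
  rcases hW0.eq_or_lt with hWz | hWpos
  · rw [← hWz, mul_zero]
    exact hB0
  have hP : 0 < ∏ j, ∑ y, w j y := by
    have h0 : ∀ j, 0 ≤ ∑ y, w j y := fun j => Finset.sum_nonneg fun y _ => hw j y
    refine Finset.prod_pos fun j _ => lt_of_le_of_ne (h0 j) fun hz => ?_
    rw [hW, sum_wt_eq] at hWpos
    have hcard : Fintype.card (V j) ≠ 0 := (Fintype.card_pos_iff.mpr ⟨e j⟩).ne'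
    rw [Finset.prod_eq_zero (mem_univ j) (by rw [← hz]; exact zero_pow hcard)] at hWpos
    exact lt_irrefl _ hWpos
  -- the single edge
  have h1 : q * W ≤ hom {e} w h := by
    have h2 := marginal w h e
    have h3 : hom {e} w h = ∑ t : (j : Fin d) → V j → X j, wt w t * h (pt t e) := by
      unfold hom
      simp
    rw [← h3, ← hW] at h2
    have h4 : (∏ j, ∑ y, w j y) * (q * W) ≤ (∏ j, ∑ y, w j y) * hom {e} w h := by
      rw [h2]
      calc (∏ j, ∑ y, w j y) * (q * W) = W * (q * ∏ j, ∑ y, w j y) := by ring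
        _ ≤ _ := mul_le_mul_of_nonneg_left hdens hW0
    exact le_of_mul_le_mul_left h4 hP
  have h5 := hom_sub_sharp hne hH w hw h hh {e} (Finset.singleton_subset_iff.mpr he)
  rw [← hW, Finset.card_singleton, Nat.cast_one] at h5
  have h6 : q * W ≤ W ^ (1 - 1 / (H.card : ℝ)) * hom H w h ^ (1 / (H.card : ℝ)) := h1.trans h5
  have h7 : (q * W) ^ H.card ≤ (W ^ (1 - 1 / (H.card : ℝ)) * hom H w h ^ (1 / (H.card : ℝ)))
      ^ H.card := pow_le_pow_left₀ (by positivity) h6 _
  have h8 : (W ^ (1 - 1 / (H.card : ℝ)) * hom H w h ^ (1 / (H.card : ℝ))) ^ H.card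
      = W ^ (H.card - 1) * hom H w h := by
    rw [mul_pow, ← Real.rpow_natCast, ← Real.rpow_natCast, ← Real.rpow_mul hW0,
      ← Real.rpow_mul hB0, one_div_mul_cancel hR.ne', Real.rpow_one, ← Real.rpow_natCast W]
    congr 2
    rw [sub_mul, one_mul, one_div_mul_cancel hR.ne', Nat.cast_sub hRpos, Nat.cast_one]
  rw [h8, mul_pow] at h7
  have h9 : W ^ H.card = W ^ (H.card - 1) * W := by
    rw [← pow_succ]
    congr 1
    omega
  rw [h9] at h7
  have h10 : W ^ (H.card - 1) * (q ^ H.card * W) ≤ W ^ (H.card - 1) * hom H w h := by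
    linarith
  exact le_of_mul_le_mul_left h10 (pow_pos hWpos _)

end Pool.Agent.NP
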