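import Pool.Agent.Lib.NP.HostPair
import Pool.Agent.Lib.NP.HostDensity
import Pool.Agent.Lib.NP.Prop

/-!
# The lower bound on average over the copies of a weakly norming pattern in a labelled host hypergraph

`h` is the weight function of the host on the cells of `∏ X j`, `φ` the labelling of the cells by shifts.
-/

set_option autoImplicit false

open Finset Filter

namespace Pool.Agent.NP

open Pool.Agent.HL Pool.Agent.Lib.Sieve4 Pool.Agent.HLB Pool.Agent.HLD

variable {d : ℕ} {V : Fin d → Type} [∀ j, Fintype (V j)] [∀ j, DecidableEq (V j)]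

/-- Weight of a copy in the host. -/
noncomputable def hwt (H : Finset ((j : Fin d) → V j)) {X : Fin d → Type}
    (w : (j : Fin d) → X j → ℝ) (h : ((j : Fin d) → X j) → ℝ) (t : (j : Fin d) → V j → X j) : ℝ :=
  wt w t * ∏ e ∈ H, h (pt t e)

omit [∀ j, DecidableEq (V j)] in
lemma hwt_nonneg (H : Finset ((j : Fin d) → V j)) {X : Fin d → Type}
    {w : (j : Fin d) → X j → ℝ} (hw : ∀ j u, 0 ≤ w j u) {h : ((j : Fin d) → X j) → ℝ}
    (hh : ∀ u, 0 ≤ h u) (t : (j : Fin d) → V j → X j) : 0 ≤ hwt H w h t :=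
  mul_nonneg (wt_nonneg' hw t) (Finset.prod_nonneg fun _ _ => hh _)

lemma firstOrder_host {H : Finset ((j : Fin d) → V j)} (hne : H.Nonempty)
    (hH : WeaklyNorming H) {X : Fin d → Type} [∀ j, Fintype (X j)] (w : (j : Fin d) → X j → ℝ)
    (hw : ∀ j u, 0 ≤ w j u) (h : ((j : Fin d) → X j) → ℝ) (hh : ∀ u, 0 ≤ h u)
    (φ : ((j : Fin d) → X j) → ℕ) :
    FirstOrder (fun t : (j : Fin d) → V j → X j => hwt H w h t) (sh H φ) := by
  refine firstOrder_of_convex _ _ fun f g hf hg s hs0 hs1 => ?_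
  have h0 := hom_convex hne hH w hw (fun u => h u * f (φ u)) (fun u => h u * g (φ u))
    (fun u => mul_nonneg (hh u) (hf _)) (fun u => mul_nonneg (hh u) (hg _)) s hs0 hs1
  have e : ∀ k : ℕ → ℝ, ∑ t : (j : Fin d) → V j → X j, hwt H w h t * ∏ l, k (sh H φ t l)
      = hom H w (fun u => h u * k (φ u)) := by
    intro k
    unfold hom hwt
    refine Finset.sum_congr rfl fun t _ => ?_
    rw [Finset.prod_mul_distrib, ← mul_assoc]
    congr 1
    exact Finset.prod_coe_sort H (fun e => k (φ (pt t e)))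
  have e1 := e (fun m => (1 - s) * g m + s * f m)
  have e2 := e f
  have e3 := e g
  rw [e1, e2, e3]
  refine le_trans (le_of_eq ?_) h0
  congr 1
  funext u
  ring

open scoped Classical in
theorem host_lower (hSW : SW) {H : Finset ((j : Fin d) → V j)} (hne : H.Nonempty)
    (hH : WeaklyNorming H) (Δ : Fin d → ℕ) (hΔ : ∀ j v, (H.filter (fun e => e j = v)).card ≤ Δ j)
    {ε : ℝ} (hε : 0 < ε) (K0 : ℕ) :
    ∀ᶠ x : ℕ in atTop, ∀ (X : Fin d → Type) [∀ j, Fintype (X j)]
      (w : (j : Fin d) → X j → ℝ) (h : ((j : Fin d) → X j) → ℝ) (φ : ((j : Fin d) → X j) → ℕ),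
      (∀ j u, 0 ≤ w j u) → (∀ u, 0 ≤ h u ∧ h u ≤ 1) →
      (∀ u, (φ u : ℝ) ≤ x * Real.log x ^ K0) → ∀ q η : ℝ, 0 < q → q ≤ 1 → 0 ≤ η →
      q * ∏ j, ∑ y, w j y ≤ ∑ u : (j : Fin d) → X j, (∏ j, w j (u j)) * h u →
      (∀ (j : Fin d) (u : (j : Fin d) → X j), 0 < h u →
        (Real.log x / q) ^ Δ j * ∑ y : X j, (if φ (Function.update u j y) = φ u ∧
          0 < h (Function.update u j y) then w j y else 0) ≤ η * ∑ y, w j y) →
      (1 - ε - (H.card : ℝ) * (H.card - 1) / 2 * η) * ((x / Real.log x ^ H.card) *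
          ∑ t ∈ (univ : Finset ((j : Fin d) → V j → X j)).filter
            (fun t => Function.Injective (sh H φ t)), hwt H w h t * SI (sh H φ t))
        ≤ ∑ t ∈ (univ : Finset ((j : Fin d) → V j → X j)).filter
            (fun t => Function.Injective (sh H φ t)), hwt H w h t * (cnt (sh H φ t) x : ℝ) ∧
      (1 - ε - (H.card : ℝ) * (H.card - 1) / 2 * η) *
          ((x / Real.log x ^ H.card) * ∑ t : (j : Fin d) → V j → X j, hwt H w h t)
        ≤ ∑ t ∈ (univ : Finset ((j : Fin d) → V j → X j)).filter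
            (fun t => Function.Injective (sh H φ t)), hwt H w h t * (cnt (sh H φ t) x : ℝ) := by
  set r : ℕ := H.card with hr
  have hr1 : 1 ≤ r := hne.card_pos
  have hrR : (1:ℝ) ≤ (r : ℝ) := by exact_mod_cast hr1
  set c : ℝ := 1 - min (ε / 8) (1 / 2) with hc
  have hm0 : 0 < min (ε / 8) (1 / 2 : ℝ) := by positivity
  have hm1 : min (ε / 8) (1 / 2 : ℝ) ≤ ε / 8 := min_le_left _ _
  have hm2 : min (ε / 8) (1 / 2 : ℝ) ≤ 1 / 2 := min_le_right _ _
  have hc0 : 0 < c := by linarith
  have hc1 : c ≤ 1 := by linarith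
  filter_upwards [family_lower_aux hSW r K0 hr1 (ε := min (ε / 8) (1 / 2)) hm0,
    sing_tail3 r r K0 hr1 (ε := ε / 4) (by positivity), eventually_ge_atTop 3]
    with x hx1 hx3 hx4
  intro X _ w h φ hw hh hφ q η hq0 hq1 hη hdens hline
  have hx3R : (3:ℝ) ≤ x := by exact_mod_cast hx4
  have hxpos : (0:ℝ) < x := by linarith
  have hL1 : 1 ≤ Real.log x := by
    rw [Real.le_log_iff_exp_le hxpos]
    have := Real.exp_one_lt_d9
    linarith
  have hLpos : 0 < Real.log x := by linarith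
  have hh0 : ∀ u, 0 ≤ h u := fun u => (hh u).1
  have hcardI : Fintype.card {e // e ∈ H} = r := Fintype.card_coe H
  have hwt0 : ∀ t : (j : Fin d) → V j → X j, 0 ≤ hwt H w h t := hwt_nonneg H hw hh0
  have hfo := firstOrder_host hne hH w hw h hh0 φ
  have h1 := hx1 ((j : Fin d) → V j → X j) {e // e ∈ H} (fun t => hwt H w h t) (sh H φ) hcardI
    hwt0 (fun t e => hφ _) hfo
  have hpd := family_posdef (fun t : (j : Fin d) → V j → X j => hwt H w h t) (sh H φ) hfo (zz r x)
  rw [← hc] at h1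
  set z := zz r x with hz
  set Xx : ℝ := x / Real.log x ^ r with hX
  have hXpos : 0 < Xx := by positivity
  set G : ℝ := ∑ t : (j : Fin d) → V j → X j, hwt H w h t * SZ z (sh H φ t) with hG
  set Wt : ℝ := ∑ t : (j : Fin d) → V j → X j, hwt H w h t with hWt
  set I := (univ : Finset ((j : Fin d) → V j → X j)).filter
    (fun t => Function.Injective (sh H φ t)) with hI
  set Φ : ℝ := ∑ t : (j : Fin d) → V j → X j, hwt H w h t * (cnt (sh H φ t) x : ℝ) with hΦ
  have hWt0 : 0 ≤ Wt := Finset.sum_nonneg fun t _ => hwt0 t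
  have hG0 : 0 ≤ G := hWt0.trans hpd
  have hXG : 0 ≤ Xx * G := by positivity
  set B : ℝ := (r : ℝ) * (r - 1) / 2 * η with hB
  have hB0 : 0 ≤ B := by
    have : 0 ≤ (r : ℝ) - 1 := by linarith
    positivity
  have ecnt : ∀ A : Finset ((j : Fin d) → V j → X j),
      ∑ n ∈ Icc 1 x, ∑ t ∈ A, wt w t * ∏ e ∈ H, (h (pt t e) * ip (n + φ (pt t e)))
      = ∑ t ∈ A, hwt H w h t * (cnt (sh H φ t) x : ℝ) := by
    intro A
    rw [Finset.sum_comm]
    refine Finset.sum_congr rfl fun t _ => ?_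
    rw [← Finset.mul_sum, cnt_eq, hwt, mul_assoc]
    congr 1
    rw [Finset.mul_sum]
    refine Finset.sum_congr rfl fun n _ => ?_
    rw [Finset.prod_mul_distrib]
    congr 1
    exact (Finset.prod_coe_sort H (fun e => ip (n + φ (pt t e)))).symm
  have eΦ : ∑ n ∈ Icc 1 x, hom H w (fun u => h u * ip (n + φ u)) = Φ := ecnt univ
  -- the degenerate assignments
  have hdeg : ∑ t ∈ (univ : Finset ((j : Fin d) → V j → X j)).filter
        (fun t => ¬ Function.Injective (sh H φ t)), hwt H w h t * (cnt (sh H φ t) x : ℝ)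
      ≤ B / c * Φ := by
    have hM1 : 1 ≤ Real.log x / q := by
      rw [le_div_iff₀ hq0]
      linarith
    have h2 := degen_sumF hne hH Δ hΔ w hw φ (fun n u => h u * ip (n + φ u))
      (fun n u => mul_nonneg (hh0 u) (ip_nonneg _))
      (fun n u => mul_le_one₀ (hh u).2 (ip_nonneg _) (ip_le_one _)) hη hM1 (by
        intro n j u hu
        have hu0 : 0 < h u := by
          rcases (hh0 u).eq_or_lt with hz0 | hpos
          · rw [← hz0, zero_mul] at hu
            exact absurd hu (lt_irrefl _)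
          · exact hpos
        refine le_trans (mul_le_mul_of_nonneg_left ?_ (by positivity)) (hline j u hu0)
        refine Finset.sum_le_sum fun y _ => ?_
        by_cases hy : φ (Function.update u j y) = φ u ∧
          0 < h (Function.update u j y) * ip (n + φ (Function.update u j y))
        · have hy2 : 0 < h (Function.update u j y) := by
            rcases (hh0 (Function.update u j y)).eq_or_lt with hz0 | hpos
            · have hy3 := hy.2
              rw [← hz0, zero_mul] at hy3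
              exact absurd hy3 (lt_irrefl _)
            · exact hpos
          rw [if_pos hy, if_pos ⟨hy.1, hy2⟩]
        · rw [if_neg hy]
          split_ifs
          · exact hw j y
          · exact le_refl _) (x := x) (by omega) hc0 hc1 (by
      rw [eΦ]
      refine le_trans ?_ h1
      refine mul_le_mul_of_nonneg_left ?_ hc0.le
      have h3 := host_density hne hH w hw h hh0 hq0.le hdens
      have h4 : Wt = hom H w h := rfl
      calc x / (Real.log x / q) ^ H.card * ∑ t : (j : Fin d) → V j → X j, wt w t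
          = Xx * (q ^ H.card * ∑ t : (j : Fin d) → V j → X j, wt w t) := by
            rw [hX, hr, div_pow]
            field_simp
        _ ≤ Xx * Wt := by
            rw [h4]
            exact mul_le_mul_of_nonneg_left h3 hXpos.le
        _ ≤ Xx * G := mul_le_mul_of_nonneg_left hpd hXpos.le)
    rw [eΦ, ecnt] at h2
    refine h2.trans (le_of_eq ?_)
    rw [hB, hr]
    ring
  have hΦ0 : 0 ≤ Φ := le_trans (by positivity) h1
  have hsplit : Φ
      = ∑ t ∈ I, hwt H w h t * (cnt (sh H φ t) x : ℝ)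
        + ∑ t ∈ (univ : Finset ((j : Fin d) → V j → X j)).filter
            (fun t => ¬ Function.Injective (sh H φ t)), hwt H w h t * (cnt (sh H φ t) x : ℝ) := by
    rw [hI, hΦ, Finset.sum_filter_add_sum_filter_not]
  have hI0 : 0 ≤ ∑ t ∈ I, hwt H w h t * (cnt (sh H φ t) x : ℝ) :=
    Finset.sum_nonneg fun t _ => mul_nonneg (hwt0 t) (Nat.cast_nonneg _)
  have hinjG : ∑ t ∈ I, hwt H w h t * SI (sh H φ t) ≤ (1 + ε / 4) * G := by
    have h3 : ∑ t ∈ I, hwt H w h t * SI (sh H φ t)
        ≤ ∑ t ∈ I, hwt H w h t * ((1 + ε / 4) * SZ z (sh H φ t)) := by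
      refine Finset.sum_le_sum fun t ht => mul_le_mul_of_nonneg_left ?_ (hwt0 t)
      rw [hI, mem_filter] at ht
      exact hx3 {e // e ∈ H} (sh H φ t) hcardI ht.2 (fun e => hφ _)
    refine h3.trans ?_
    have h4 : ∑ t ∈ I, hwt H w h t * ((1 + ε / 4) * SZ z (sh H φ t))
        = (1 + ε / 4) * ∑ t ∈ I, hwt H w h t * SZ z (sh H φ t) := by
      rw [Finset.mul_sum]
      exact Finset.sum_congr rfl fun t _ => by ring
    rw [h4]
    refine mul_le_mul_of_nonneg_left ?_ (by positivity)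
    exact Finset.sum_le_sum_of_subset_of_nonneg (Finset.filter_subset _ _)
      fun t _ _ => mul_nonneg (hwt0 t) (SZ_nonneg _ _)
  rcases le_or_gt (1 - ε - B) 0 with hneg | hpos'
  · constructor
    · refine le_trans (mul_nonpos_of_nonpos_of_nonneg hneg (mul_nonneg hXpos.le ?_)) hI0
      refine Finset.sum_nonneg fun t ht => mul_nonneg (hwt0 t) (SI_nonneg _ ?_)
      rw [hI, mem_filter] at ht
      exact ht.2
    · exact le_trans (mul_nonpos_of_nonpos_of_nonneg hneg (by positivity)) hI0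
  · have hmainI : (c - B) * (Xx * G) ≤ ∑ t ∈ I, hwt H w h t * (cnt (sh H φ t) x : ℝ) := by
      have h5 : (1 - B / c) * Φ ≤ ∑ t ∈ I, hwt H w h t * (cnt (sh H φ t) x : ℝ) := by linarith
      have hBc : 0 ≤ 1 - B / c := by
        rw [sub_nonneg, div_le_one hc0]
        linarith
      have h6 : (1 - B / c) * (c * (Xx * G)) ≤ (1 - B / c) * Φ :=
        mul_le_mul_of_nonneg_left h1 hBc
      have h7 : (1 - B / c) * (c * (Xx * G)) = (c - B) * (Xx * G) := by
        field_simp
      linarith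
    constructor
    · calc (1 - ε - B) * (Xx * ∑ t ∈ I, hwt H w h t * SI (sh H φ t))
          ≤ (1 - ε - B) * (Xx * ((1 + ε / 4) * G)) := by gcongr
        _ = ((1 - ε - B) * (1 + ε / 4)) * (Xx * G) := by ring
        _ ≤ (c - B) * (Xx * G) := by
            refine mul_le_mul_of_nonneg_right ?_ (by positivity)
            nlinarith
        _ ≤ _ := hmainI
    · calc (1 - ε - B) * (Xx * Wt) ≤ (1 - ε - B) * (Xx * G) := by gcongr
        _ ≤ (c - B) * (Xx * G) := by
            refine mul_le_mul_of_nonneg_right (by linarith) (by positivity)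
        _ ≤ _ := hmainI

open scoped Classical in
/-- Positive proportion for hosts. -/
theorem host_proportion (hSW : SW) {H : Finset ((j : Fin d) → V j)} (hne : H.Nonempty)
    (hH : WeaklyNorming H) (Δ : Fin d → ℕ) (hΔ : ∀ j v, (H.filter (fun e => e j = v)).card ≤ Δ j)
    {ρ : ℝ} (hρ0 : 0 < ρ) (hρ : ρ < 1) :
    ∃ C δ : ℝ, 0 < C ∧ 0 < δ ∧ ∀ K0 : ℕ, ∀ᶠ x : ℕ in atTop,
      ∀ (X : Fin d → Type) [∀ j, Fintype (X j)]
      (w : (j : Fin d) → X j → ℝ) (h : ((j : Fin d) → X j) → ℝ) (φ : ((j : Fin d) → X j) → ℕ),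
      (∀ j u, 0 ≤ w j u) → (∀ u, 0 ≤ h u ∧ h u ≤ 1) →
      (∀ u, (φ u : ℝ) ≤ x * Real.log x ^ K0) → ∀ q : ℝ, 0 < q → q ≤ 1 →
      q * ∏ j, ∑ y, w j y ≤ ∑ u : (j : Fin d) → X j, (∏ j, w j (u j)) * h u →
      (∀ (j : Fin d) (u : (j : Fin d) → X j), 0 < h u →
        C * (Real.log x / q) ^ Δ j * ∑ y : X j, (if φ (Function.update u j y) = φ u ∧
          0 < h (Function.update u j y) then w j y else 0) ≤ ∑ y, w j y) →
      ∃ G ⊆ (univ : Finset ((j : Fin d) → V j → X j)).filter
            (fun t => Function.Injective (sh H φ t)),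
        (∀ t ∈ G, (∀ p : ℕ, p.Prime → nuI (sh H φ t) p < p) ∧
          ρ * SI (sh H φ t) * (x / Real.log x ^ H.card) ≤ cnt (sh H φ t) x) ∧
        δ * ∑ t ∈ (univ : Finset ((j : Fin d) → V j → X j)).filter
            (fun t => Function.Injective (sh H φ t)), hwt H w h t * SI (sh H φ t)
          ≤ ∑ t ∈ G, hwt H w h t * SI (sh H φ t) ∧
        δ * ∑ t : (j : Fin d) → V j → X j, hwt H w h t
          ≤ ∑ t ∈ G, hwt H w h t * SI (sh H φ t) := by
  set r : ℕ := H.card with hr
  have hr1 : 1 ≤ r := hne.card_pos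
  obtain ⟨K, hK, hKup⟩ := tuple_upperI r hr1
  have hρ' : 0 < 1 - ρ := by linarith
  have hrR : (1:ℝ) ≤ (r : ℝ) := by exact_mod_cast hr1
  set C : ℝ := 4 * (r : ℝ) ^ 2 / (1 - ρ) with hCdef
  have hC : 0 < C := by positivity
  have hmain := host_lower hSW hne hH Δ hΔ (ε := (1 - ρ) / 8) (by linarith)
  refine ⟨C, (1 - ρ) / (4 * K) / max 1 (4 * (K + ρ)), hC, by positivity, fun K0 => ?_⟩
  filter_upwards [hmain K0, (tendsto_x_div_log_pow r).eventually_ge_atTop (8 * r / (1 - ρ)),
    (tendsto_x_div_log_pow r).eventually_ge_atTop (4 * r), eventually_ge_atTop 3]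
    with x hx1 hx2 hx2' hx3
  intro X _ w h φ hw hh hφ q hq0 hq1 hdens hline
  have hx3R : (3:ℝ) ≤ x := by exact_mod_cast hx3
  have hlog : 0 < Real.log x := Real.log_pos (by linarith)
  have hxpos : (0:ℝ) < x := by linarith
  have hwt0 : ∀ t : (j : Fin d) → V j → X j, 0 ≤ hwt H w h t := hwt_nonneg H hw fun u => (hh u).1
  have hcardI : Fintype.card {e // e ∈ H} = r := Fintype.card_coe H
  obtain ⟨h1, h2⟩ := hx1 X w h φ hw hh hφ q (1 / C) hq0 hq1 (by positivity) hdens (by
    intro j u hu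
    have h := hline j u hu
    rw [one_div, inv_mul_eq_div, le_div_iff₀ hC]
    linarith)
  have hfac : 1 - (1 - ρ) / 4 ≤ 1 - (1 - ρ) / 8 - (r : ℝ) * (r - 1) / 2 * (1 / C) := by
    have h3 : (r : ℝ) * (r - 1) / 2 * (1 / C) ≤ (1 - ρ) / 8 := by
      rw [hCdef, one_div_div]
      have h4 : (r : ℝ) * (r - 1) / 2 * ((1 - ρ) / (4 * (r : ℝ) ^ 2))
          = (1 - ρ) / 8 * ((r - 1) / r) := by
        field_simp
        ring
      rw [h4]
      have h5 : ((r : ℝ) - 1) / r ≤ 1 := by
        rw [div_le_one (by positivity)]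
        linarith
      have h6 : (0:ℝ) ≤ (1 - ρ) / 8 := by linarith
      calc (1 - ρ) / 8 * ((r - 1) / r) ≤ (1 - ρ) / 8 * 1 := mul_le_mul_of_nonneg_left h5 h6
        _ = _ := mul_one _
    linarith
  replace h1 := le_trans (mul_le_mul_of_nonneg_right hfac (by
    refine mul_nonneg (by positivity) (Finset.sum_nonneg fun t ht => mul_nonneg (hwt0 t)
      (SI_nonneg _ (mem_filter.mp ht).2)))) h1
  replace h2 := le_trans (mul_le_mul_of_nonneg_right hfac (by
    refine mul_nonneg (by positivity) (Finset.sum_nonneg fun t _ => hwt0 t))) h2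
  set I := (univ : Finset ((j : Fin d) → V j → X j)).filter
    (fun t => Function.Injective (sh H φ t)) with hI
  set Wt : ℝ := ∑ t : (j : Fin d) → V j → X j, hwt H w h t with hWt
  have hWt0 : 0 ≤ Wt := Finset.sum_nonneg fun t _ => hwt0 t
  rcases hWt0.eq_or_lt with hW0 | hWpos
  · -- all weights vanish
    have hz : ∀ t : (j : Fin d) → V j → X j, hwt H w h t = 0 := fun t =>
      (Finset.sum_eq_zero_iff_of_nonneg fun t _ => hwt0 t).mp (hWt ▸ hW0.symm) t (mem_univ t)
    refine ⟨∅, Finset.empty_subset _, fun t ht => absurd ht (Finset.notMem_empty t), ?_, ?_⟩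
    · rw [Finset.sum_empty, Finset.sum_eq_zero fun t _ => by rw [hz t, zero_mul], mul_zero]
    · rw [← hW0, mul_zero, Finset.sum_empty]
  set J := I.filter (fun t => 0 < hwt H w h t) with hJ
  have hJI : ∀ f : ((j : Fin d) → V j → X j) → ℝ,
      ∑ t ∈ I, hwt H w h t * f t = ∑ t ∈ J, hwt H w h t * f t := by
    intro f
    refine (Finset.sum_subset (Finset.filter_subset _ _) fun t ht1 ht2 => ?_).symm
    rw [mem_filter, not_and] at ht2
    have h3 : hwt H w h t = 0 := le_antisymm (not_lt.mp (ht2 ht1)) (hwt0 t)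
    rw [h3, zero_mul]
  have hmemJ : ∀ t ∈ J, Function.Injective (sh H φ t) ∧ 0 < hwt H w h t := fun t ht =>
    ⟨(mem_filter.mp (mem_filter.mp ht).1).2, (mem_filter.mp ht).2⟩
  rw [hJI (fun t => SI (sh H φ t)), hJI (fun t => (cnt (sh H φ t) x : ℝ))] at h1
  rw [hJI (fun t => (cnt (sh H φ t) x : ℝ))] at h2
  obtain ⟨G, hG, hGa, hG1, hG2⟩ := prop_genericW J
    (fun t => hwt H w h t * SI (sh H φ t)) (fun t => hwt H w h t * (cnt (sh H φ t) x : ℝ))
    (fun t => hwt H w h t)
    (fun t => ∀ p : ℕ, p.Prime → nuI (sh H φ t) p < p) (K := K) (ρ := ρ)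
    (X := x / Real.log x ^ r) (N := Wt) (r := (r : ℝ)) hK hρ0 hρ
    (by positivity) hWpos (by positivity)
    (fun t ht => mul_nonneg (hwt0 t) (SI_nonneg _ (hmemJ t ht).1)) (fun t _ => hwt0 t)
    (fun t ht hadm => by
      have h4 := hKup _ (sh H φ t) hcardI (hmemJ t ht).1 hadm x (by omega)
      have h5 := mul_le_mul_of_nonneg_left h4 (hwt0 t)
      refine h5.trans (le_of_eq ?_)
      ring)
    (fun t ht hadm => by
      push Not at hadm
      obtain ⟨p, hp, hnp⟩ := hadm
      have h8 := count_inadm (sh H φ t) hp hnp x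
      rw [hcardI] at h8
      rw [mul_comm]
      refine mul_le_mul_of_nonneg_right ?_ (hwt0 t)
      exact_mod_cast h8)
    h1 h2 (Finset.sum_le_sum_of_subset_of_nonneg (Finset.subset_univ _) fun t _ _ => hwt0 t) hx2 hx2'
  refine ⟨G, hG.trans (Finset.filter_subset _ _), fun t ht => ?_, ?_, ?_⟩
  · obtain ⟨hadm, h6⟩ := hGa t ht
    refine ⟨hadm, ?_⟩
    have h7 := (hmemJ t (hG ht)).2
    have h8 : hwt H w h t * (ρ * SI (sh H φ t) * (x / Real.log x ^ r))
        ≤ hwt H w h t * (cnt (sh H φ t) x : ℝ) := le_trans (le_of_eq (by ring)) h6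
    exact le_of_mul_le_mul_left h8 h7
  · rw [hJI]
    refine le_trans ?_ hG1
    refine mul_le_mul_of_nonneg_right ?_
      (Finset.sum_nonneg fun t ht => mul_nonneg (hwt0 t) (SI_nonneg _ (hmemJ t ht).1))
    exact div_le_self (by positivity) (le_max_left _ _)
  · refine le_trans ?_ hG1
    rw [div_mul_eq_mul_div, div_le_iff₀ (by positivity)]
    have hS0 : 0 ≤ ∑ t ∈ J, hwt H w h t * SI (sh H φ t) :=
      Finset.sum_nonneg fun t ht => mul_nonneg (hwt0 t) (SI_nonneg _ (hmemJ t ht).1)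
    calc (1 - ρ) / (4 * K) * Wt
        ≤ (1 - ρ) / (4 * K) * (4 * (K + ρ) * ∑ t ∈ J, hwt H w h t * SI (sh H φ t)) := by gcongr
      _ ≤ (1 - ρ) / (4 * K) * (max 1 (4 * (K + ρ)) *
          ∑ t ∈ J, hwt H w h t * SI (sh H φ t)) := by
          gcongr
          exact le_max_right _ _
      _ = _ := by ring

end Pool.Agent.NP
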