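import Pool.Agent.Lib.NP.Degen2

/-!
# Degenerate assignments in a host hypergraph
-/

set_option autoImplicit false

open Finset

namespace Pool.Agent.NP

open Pool.Agent.HLB

variable {d : ℕ} {V : Fin d → Type} [∀ j, Fintype (V j)] [∀ j, DecidableEq (V j)]

section aux

variable {X : Fin d → Type}

/-- the assignment with the value at `(j0, v0)` replaced -/
def updH (j0 : Fin d) (v0 : V j0) (t : (j : Fin d) → V j → X j) (u : X j0) :
    (j : Fin d) → V j → X j :=
  Function.update t j0 (Function.update (t j0) v0 u)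

omit [∀ j, Fintype (V j)] in
theorem updH_apply (j0 : Fin d) (v0 : V j0) (t : (j : Fin d) → V j → X j) (u : X j0) :
    updH j0 v0 t u j0 v0 = u := by
  simp [updH]

omit [∀ j, Fintype (V j)] in
theorem updH_updH (j0 : Fin d) (v0 : V j0) (t : (j : Fin d) → V j → X j) (u u' : X j0) :
    updH j0 v0 (updH j0 v0 t u) u' = updH j0 v0 t u' := by
  simp [updH]

omit [∀ j, Fintype (V j)] in
theorem updH_self (j0 : Fin d) (v0 : V j0) (t : (j : Fin d) → V j → X j) :
    updH j0 v0 t (t j0 v0) = t := by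
  simp [updH]

omit [∀ j, Fintype (V j)] in
theorem pt_updH_eq (j0 : Fin d) (e : (j : Fin d) → V j) (t : (j : Fin d) → V j → X j)
    (u : X j0) : pt (updH j0 (e j0) t u) e = Function.update (pt t e) j0 u := by
  funext j
  by_cases h : j = j0
  · subst h
    simp [pt, updH]
  · simp [pt, updH, h]

omit [∀ j, Fintype (V j)] in
theorem pt_updH_ne (j0 : Fin d) (v0 : V j0) (e : (j : Fin d) → V j) (he : e j0 ≠ v0)
    (t : (j : Fin d) → V j → X j) (u : X j0) : pt (updH j0 v0 t u) e = pt t e := by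
  funext j
  by_cases h : j = j0
  · subst h
    simp [pt, updH, he]
  · simp [pt, updH, h]

theorem wt_updH (j0 : Fin d) (v0 : V j0) (w : (j : Fin d) → X j → ℝ)
    (t : (j : Fin d) → V j → X j) (u : X j0) :
    wt w (updH j0 v0 t u) = w j0 u * ((∏ v ∈ univ.erase v0, w j0 (t j0 v)) *
      ∏ j ∈ univ.erase j0, ∏ v, w j (t j v)) := by
  unfold wt
  rw [← Finset.mul_prod_erase univ (fun j => ∏ v, w j (updH j0 v0 t u j v)) (mem_univ j0),
    ← Finset.mul_prod_erase univ (fun v => w j0 (updH j0 v0 t u j0 v)) (mem_univ v0), updH_apply,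
    mul_assoc]
  congr 2
  · refine Finset.prod_congr rfl fun v hv => ?_
    rw [mem_erase] at hv
    simp [updH, hv.1]
  · refine Finset.prod_congr rfl fun j hj => ?_
    rw [mem_erase] at hj
    simp [updH, hj.1]

theorem swap_sumH [∀ j, Fintype (X j)] (j0 : Fin d) (v0 : V j0)
    (B : ((j : Fin d) → V j → X j) → ℝ) :
    ∑ t : (j : Fin d) → V j → X j, ∑ u : X j0, B (updH j0 v0 t u) =
      (Fintype.card (X j0) : ℝ) * ∑ t : (j : Fin d) → V j → X j, B t := by
  let E : (((j : Fin d) → V j → X j) × X j0) ≃ (((j : Fin d) → V j → X j) × X j0) :=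
    { toFun := fun p => (updH j0 v0 p.1 p.2, p.1 j0 v0)
      invFun := fun p => (updH j0 v0 p.1 p.2, p.1 j0 v0)
      left_inv := fun p => by
        simp only [updH_updH, updH_self, updH_apply]
      right_inv := fun p => by
        simp only [updH_updH, updH_self, updH_apply] }
  have h1 : ∑ p : ((j : Fin d) → V j → X j) × X j0, B (E p).1 =
      ∑ p : ((j : Fin d) → V j → X j) × X j0, B p.1 :=
    Equiv.sum_comp E (fun p => B p.1)
  rw [Fintype.sum_prod_type, Fintype.sum_prod_type] at h1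
  simp only [Finset.sum_const, Finset.card_univ, nsmul_eq_mul, ← Finset.mul_sum] at h1
  exact h1

open scoped Classical in
/-- One pair of edges `e`, `e'` which differ in the coordinate `j0`. -/
theorem pair_boundF {H : Finset ((j : Fin d) → V j)} (e e' : (j : Fin d) → V j) (he : e ∈ H)
    (j0 : Fin d) (hj : e j0 ≠ e' j0)
    [∀ j, Fintype (X j)] (w : (j : Fin d) → X j → ℝ) (hw : ∀ j u, 0 ≤ w j u)
    (φ : ((j : Fin d) → X j) → ℕ) (F : ((j : Fin d) → X j) → ℝ) (hF0 : ∀ u, 0 ≤ F u)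
    (hF1 : ∀ u, F u ≤ 1) {κ : ℝ} (hk : 0 ≤ κ)
    (hline : ∀ u : (j : Fin d) → X j, 0 < F u →
      ∑ y : X j0, (if φ (Function.update u j0 y) = φ u ∧ 0 < F (Function.update u j0 y)
        then w j0 y else 0) ≤ κ * ∑ y : X j0, w j0 y) :
    ∑ t ∈ (univ : Finset ((j : Fin d) → V j → X j)).filter
        (fun t => φ (pt t e) = φ (pt t e')),
        wt w t * ∏ e'' ∈ H, F (pt t e'') ≤
      κ * ∑ t : (j : Fin d) → V j → X j,
        wt w t * ∏ e'' ∈ H.filter (fun e'' => e'' j0 ≠ e j0), F (pt t e'') := by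
  rw [Finset.sum_filter]
  set P : ((j : Fin d) → V j → X j) → ℝ := fun t =>
    ∏ e'' ∈ H.filter (fun e'' => e'' j0 ≠ e j0), F (pt t e'') with hP
  have hP0 : ∀ t, 0 ≤ P t := fun t => Finset.prod_nonneg fun _ _ => hF0 _
  have hPu : ∀ t u, P (updH j0 (e j0) t u) = P t := by
    intro t u
    refine Finset.prod_congr rfl fun e'' he'' => ?_
    rw [pt_updH_ne j0 (e j0) e'' (mem_filter.1 he'').2]
  -- drop factors
  have h1 : ∑ t : (j : Fin d) → V j → X j, (if φ (pt t e) = φ (pt t e') then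
        wt w t * ∏ e'' ∈ H, F (pt t e'') else 0) ≤
      ∑ t : (j : Fin d) → V j → X j, (if φ (pt t e) = φ (pt t e') ∧ 0 < F (pt t e)
        then wt w t * P t else 0) := by
    refine Finset.sum_le_sum fun t _ => ?_
    by_cases h : φ (pt t e) = φ (pt t e')
    · rw [if_pos h]
      by_cases h2 : 0 < F (pt t e)
      · rw [if_pos ⟨h, h2⟩]
        refine mul_le_mul_of_nonneg_left ?_ (wt_nonneg' hw t)
        rw [← Finset.prod_filter_mul_prod_filter_not H (fun e'' => e'' j0 ≠ e j0)]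
        exact mul_le_of_le_one_right (Finset.prod_nonneg fun _ _ => hF0 _)
          (Finset.prod_le_one (fun _ _ => hF0 _) (fun _ _ => hF1 _))
      · rw [if_neg (fun h3 => h2 h3.2)]
        have h3 : F (pt t e) = 0 := le_antisymm (not_lt.mp h2) (hF0 _)
        rw [Finset.prod_eq_zero he h3, mul_zero]
    · rw [if_neg h, if_neg (fun h3 => h h3.1)]
  refine h1.trans ?_
  rcases isEmpty_or_nonempty (X j0) with hX | hX
  · have hT : IsEmpty ((j : Fin d) → V j → X j) := ⟨fun t => hX.false (t j0 (e j0))⟩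
    simp
  have hcard : (0 : ℝ) < Fintype.card (X j0) := by exact_mod_cast Fintype.card_pos
  -- for fixed t
  have h2 : ∀ t : (j : Fin d) → V j → X j,
      ∑ u : X j0, (if φ (pt (updH j0 (e j0) t u) e) = φ (pt (updH j0 (e j0) t u) e') ∧
          0 < F (pt (updH j0 (e j0) t u) e) then
        wt w (updH j0 (e j0) t u) * P (updH j0 (e j0) t u) else 0) ≤
      κ * ∑ u : X j0, wt w (updH j0 (e j0) t u) * P (updH j0 (e j0) t u) := by
    intro t
    set W : ℝ := (∏ v ∈ univ.erase (e j0), w j0 (t j0 v)) *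
      ∏ j ∈ univ.erase j0, ∏ v, w j (t j v) with hW
    have hW0 : 0 ≤ W := mul_nonneg (Finset.prod_nonneg fun _ _ => hw _ _)
      (Finset.prod_nonneg fun _ _ => Finset.prod_nonneg fun _ _ => hw _ _)
    have e1 : ∀ u, (if φ (pt (updH j0 (e j0) t u) e) = φ (pt (updH j0 (e j0) t u) e') ∧
          0 < F (pt (updH j0 (e j0) t u) e) then
        wt w (updH j0 (e j0) t u) * P (updH j0 (e j0) t u) else 0) =
        (if φ (Function.update (pt t e) j0 u) = φ (pt t e') ∧
          0 < F (Function.update (pt t e) j0 u) then w j0 u else 0) * (W * P t) := by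
      intro u
      rw [pt_updH_eq, pt_updH_ne j0 (e j0) e' (Ne.symm hj), wt_updH, hPu, ← hW]
      split_ifs
      · ring
      · simp
    have e2 : ∀ u, wt w (updH j0 (e j0) t u) * P (updH j0 (e j0) t u) = w j0 u * (W * P t) := by
      intro u
      rw [wt_updH, hPu, ← hW]; ring
    rw [Finset.sum_congr rfl (fun u _ => e1 u), Finset.sum_congr rfl (fun u _ => e2 u)]
    rw [← Finset.sum_mul, ← Finset.sum_mul, ← mul_assoc κ]
    refine mul_le_mul_of_nonneg_right ?_ (mul_nonneg hW0 (hP0 t))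
    by_cases hu : ∃ u0, φ (Function.update (pt t e) j0 u0) = φ (pt t e') ∧
        0 < F (Function.update (pt t e) j0 u0)
    · obtain ⟨u0, hu0, hu1⟩ := hu
      have h3 := hline (Function.update (pt t e) j0 u0) hu1
      simp only [Function.update_idem, hu0] at h3
      exact h3
    · push Not at hu
      have h4 : ∀ u, (if φ (Function.update (pt t e) j0 u) = φ (pt t e') ∧
          0 < F (Function.update (pt t e) j0 u) then w j0 u else 0) = 0 :=
        fun u => if_neg (fun h5 => absurd h5.2 (not_lt.mpr (hu u h5.1)))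
      simp only [h4, Finset.sum_const_zero]
      exact mul_nonneg hk (Finset.sum_nonneg fun _ _ => hw _ _)
  have h3 := Finset.sum_le_sum fun t (_ : t ∈ (univ : Finset ((j : Fin d) → V j → X j))) => h2 t
  rw [← Finset.mul_sum, swap_sumH j0 (e j0) (fun t => wt w t * P t),
    swap_sumH j0 (e j0) (fun t => if φ (pt t e) = φ (pt t e') ∧ 0 < F (pt t e)
      then wt w t * P t else 0)] at h3
  have h4 : (Fintype.card (X j0) : ℝ) * ∑ t : (j : Fin d) → V j → X j,
      (if φ (pt t e) = φ (pt t e') ∧ 0 < F (pt t e) then wt w t * P t else 0) ≤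
      (Fintype.card (X j0) : ℝ) * (κ * ∑ t : (j : Fin d) → V j → X j,
        wt w t * P t) := by linarith
  exact le_of_mul_le_mul_left h4 hcard

end aux

open scoped Classical in
theorem degen_sumF {H : Finset ((j : Fin d) → V j)} (hne : H.Nonempty)
    (hH : WeaklyNorming H) (Δ : Fin d → ℕ) (hΔ : ∀ j v, (H.filter (fun e => e j = v)).card ≤ Δ j)
    {X : Fin d → Type} [∀ j, Fintype (X j)] (w : (j : Fin d) → X j → ℝ) (hw : ∀ j u, 0 ≤ w j u)
    (φ : ((j : Fin d) → X j) → ℕ) (F : ℕ → ((j : Fin d) → X j) → ℝ) (hF0 : ∀ n u, 0 ≤ F n u)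
    (hF1 : ∀ n u, F n u ≤ 1) {η L : ℝ} (hη : 0 ≤ η) (hL : 1 ≤ L)
    (hline : ∀ (n : ℕ) (j : Fin d) (u : (j : Fin d) → X j), 0 < F n u →
      L ^ Δ j * ∑ y : X j, (if φ (Function.update u j y) = φ u ∧ 0 < F n (Function.update u j y)
        then w j y else 0) ≤ η * ∑ y, w j y) {x : ℕ} (hx : 0 < x) {c : ℝ} (hc0 : 0 < c)
    (hc1 : c ≤ 1) (hlow : c * (x / L ^ H.card * ∑ t : (j : Fin d) → V j → X j, wt w t)
      ≤ ∑ n ∈ Icc 1 x, hom H w (F n)) :
    ∑ n ∈ Icc 1 x, ∑ t ∈ (univ : Finset ((j : Fin d) → V j → X j)).filter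
        (fun t => ¬ Function.Injective (fun e : {e // e ∈ H} => φ (pt t e.1))),
        wt w t * ∏ e ∈ H, F n (pt t e)
      ≤ (H.card : ℝ) * (H.card - 1) / 2 * (η / c) * ∑ n ∈ Icc 1 x, hom H w (F n) := by
  set Φ : ℝ := ∑ n ∈ Icc 1 x, hom H w (F n) with hΦ
  set W : ℝ := ∑ t : (j : Fin d) → V j → X j, wt w t with hW
  have hx0 : (0:ℝ) < x := by exact_mod_cast hx
  have hL0 : 0 < L := by linarith
  have hR0 : 0 < H.card := hne.card_pos
  have hRr : (0:ℝ) < H.card := by exact_mod_cast hR0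
  have hW0 : 0 ≤ W := Finset.sum_nonneg fun t _ => wt_nonneg' hw t
  have hΦ0 : 0 ≤ Φ := Finset.sum_nonneg fun n _ => hom_nonneg hw (hF0 n)
  -- a pair of coinciding edges
  have hpair : ∀ p ∈ H.offDiag, ∑ n ∈ Icc 1 x, ∑ t ∈ (univ : Finset ((j : Fin d) → V j → X j)).filter
          (fun t => φ (pt t p.1) = φ (pt t p.2)), wt w t * ∏ e ∈ H, F n (pt t e)
      ≤ (η / c) * Φ := by
    rintro ⟨e, e'⟩ hp
    rw [Finset.mem_offDiag] at hp
    obtain ⟨he, he', hee⟩ := hp
    simp only at he he' hee ⊢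
    obtain ⟨j0, hj0⟩ : ∃ j0, e j0 ≠ e' j0 := by
      by_contra hcon
      push Not at hcon
      exact hee (funext hcon)
    set S := H.filter (fun e'' => e'' j0 ≠ e j0) with hS
    have hSH : S ⊆ H := Finset.filter_subset _ _
    have hScard : H.card ≤ S.card + Δ j0 := by
      have h1 := Finset.card_filter_add_card_filter_not (s := H) (fun e'' => e'' j0 = e j0)
      have h2 := hΔ j0 (e j0)
      have h3 : (H.filter (fun e'' => ¬ e'' j0 = e j0)).card = S.card := by rw [hS]
      omega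
    have hSle : S.card ≤ H.card := Finset.card_le_card hSH
    set θ : ℝ := (S.card : ℝ) / H.card with hθ
    have hθ0 : 0 ≤ θ := by positivity
    have hθ1 : θ ≤ 1 := by
      rw [hθ, div_le_one hRr]
      exact_mod_cast hSle
    have hLΔ : 0 < L ^ Δ j0 := pow_pos hL0 _
    have h1 : ∀ n ∈ Icc 1 x, ∑ t ∈ (univ : Finset ((j : Fin d) → V j → X j)).filter
          (fun t => φ (pt t e) = φ (pt t e')), wt w t * ∏ e'' ∈ H, F n (pt t e'')
        ≤ η / L ^ Δ j0 * (W ^ (1 - θ) * hom H w (F n) ^ θ) := by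
      intro n _
      refine (pair_boundF e e' he j0 hj0 w hw φ (F n) (hF0 n) (hF1 n) (κ := η / L ^ Δ j0)
        (by positivity) ?_).trans ?_
      · intro u hu
        rw [div_mul_eq_mul_div, le_div_iff₀ hLΔ, mul_comm]
        exact hline n j0 u hu
      · refine mul_le_mul_of_nonneg_left ?_ (by positivity)
        exact hom_sub_sharp hne hH w hw (F n) (hF0 n) S hSH
    refine (Finset.sum_le_sum h1).trans ?_
    rw [← Finset.mul_sum, ← Finset.mul_sum]
    have h2 := sum_rpow_le hx (fun n => hom H w (F n))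
      (fun n => hom_nonneg hw (hF0 n)) hθ0 hθ1
    have h3 : W ^ (1 - θ) * ∑ n ∈ Icc 1 x, hom H w (F n) ^ θ
        ≤ (x * W) ^ (1 - θ) * Φ ^ θ := by
      rw [Real.mul_rpow hx0.le hW0, mul_comm ((x:ℝ) ^ (1 - θ)), mul_assoc]
      exact mul_le_mul_of_nonneg_left h2 (Real.rpow_nonneg hW0 _)
    have hLR : 0 < L ^ H.card := pow_pos hL0 _
    have h4 : x * W ≤ L ^ H.card * (Φ / c) := by
      have h5 : x * W = L ^ H.card * ((c * (x / L ^ H.card * W)) / c) := by
        field_simp
      rw [h5]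
      gcongr
    have h6 : (x * W) ^ (1 - θ) * Φ ^ θ ≤ L ^ Δ j0 * (Φ / c) := by
      have hΦc : Φ ≤ Φ / c := by
        rw [le_div_iff₀ hc0]
        nlinarith
      have hΦc0 : 0 ≤ Φ / c := by positivity
      have h7 : (x * W) ^ (1 - θ) ≤ (L ^ H.card) ^ (1 - θ) * (Φ / c) ^ (1 - θ) := by
        rw [← Real.mul_rpow hLR.le hΦc0]
        exact Real.rpow_le_rpow (by positivity) h4 (by linarith)
      have h8 : Φ ^ θ ≤ (Φ / c) ^ θ := Real.rpow_le_rpow hΦ0 hΦc hθ0
      have h9 : (L ^ H.card) ^ (1 - θ) ≤ L ^ Δ j0 := by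
        rw [← Real.rpow_natCast L H.card, ← Real.rpow_mul hL0.le, ← Real.rpow_natCast L (Δ j0)]
        refine Real.rpow_le_rpow_of_exponent_le hL ?_
        rw [mul_sub, mul_one, hθ, mul_div_cancel₀ _ hRr.ne']
        have : (H.card : ℝ) ≤ S.card + Δ j0 := by exact_mod_cast hScard
        linarith
      have h10 : (Φ / c) ^ (1 - θ) * (Φ / c) ^ θ = Φ / c := by
        rcases hΦc0.eq_or_lt with hz | hpos
        · rw [← hz]
          rcases hθ0.eq_or_lt with hθz | hθpos
          · rw [← hθz, sub_zero, Real.rpow_one, zero_mul]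
          · rw [Real.zero_rpow hθpos.ne', mul_zero]
        · rw [← Real.rpow_add hpos, sub_add_cancel, Real.rpow_one]
      calc (x * W) ^ (1 - θ) * Φ ^ θ
          ≤ ((L ^ H.card) ^ (1 - θ) * (Φ / c) ^ (1 - θ)) * (Φ / c) ^ θ :=
            mul_le_mul h7 h8 (Real.rpow_nonneg hΦ0 _) (by positivity)
        _ = (L ^ H.card) ^ (1 - θ) * ((Φ / c) ^ (1 - θ) * (Φ / c) ^ θ) := by ring
        _ = (L ^ H.card) ^ (1 - θ) * (Φ / c) := by rw [h10]
        _ ≤ L ^ Δ j0 * (Φ / c) := mul_le_mul_of_nonneg_right h9 hΦc0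
    calc η / L ^ Δ j0 * (W ^ (1 - θ) * ∑ n ∈ Icc 1 x, hom H w (F n) ^ θ)
        ≤ η / L ^ Δ j0 * (L ^ Δ j0 * (Φ / c)) :=
          mul_le_mul_of_nonneg_left (h3.trans h6) (by positivity)
      _ = η / c * Φ := by field_simp
  -- the union bound
  have hun : 2 * ∑ n ∈ Icc 1 x, ∑ t ∈ (univ : Finset ((j : Fin d) → V j → X j)).filter
        (fun t => ¬ Function.Injective (fun e : {e // e ∈ H} => φ (pt t e.1))),
        wt w t * ∏ e ∈ H, F n (pt t e)
      ≤ ∑ p ∈ H.offDiag, (η / c) * Φ := by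
    refine le_trans ?_ (Finset.sum_le_sum hpair)
    conv_rhs => rw [Finset.sum_comm]
    rw [Finset.mul_sum]
    refine Finset.sum_le_sum fun n _ => ?_
    exact degen_union φ (fun t => wt w t * ∏ e ∈ H, F n (pt t e))
      (fun t => mul_nonneg (wt_nonneg' hw t) (Finset.prod_nonneg fun _ _ => hF0 n _))
  rw [Finset.sum_const, Finset.offDiag_card, nsmul_eq_mul,
    Nat.cast_sub (Nat.le_mul_self _), Nat.cast_mul] at hun
  have hfin : (H.card : ℝ) * (H.card - 1) / 2 * (η / c) * Φ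
      = (((H.card : ℝ) * H.card - H.card) * (η / c * Φ)) / 2 := by ring
  rw [hfin]
  linarith

end Pool.Agent.NP
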