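import Pool.Agent.Lib.HLD.SingTail2
import Pool.Agent.Lib.NP.Convex
import Pool.Agent.Lib.NP.Degen2

/-!
# The lower bound on average over the copies of a weakly norming pattern in an array of shifts
-/

set_option autoImplicit false

open Finset Filter

namespace Pool.Agent.NP

open Pool.Agent.HL Pool.Agent.Lib.Sieve4 Pool.Agent.HLB Pool.Agent.HLD

variable {d : ℕ} {V : Fin d → Type} [∀ j, Fintype (V j)] [∀ j, DecidableEq (V j)]

/-- The tuple of shifts of the assignment `t`. -/
def sh (H : Finset ((j : Fin d) → V j)) {X : Fin d → Type} (φ : ((j : Fin d) → X j) → ℕ)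
    (t : (j : Fin d) → V j → X j) : {e // e ∈ H} → ℕ := fun e => φ (pt t e.1)

lemma firstOrder_array {H : Finset ((j : Fin d) → V j)} (hne : H.Nonempty)
    (hH : WeaklyNorming H) {X : Fin d → Type} [∀ j, Fintype (X j)] (w : (j : Fin d) → X j → ℝ)
    (hw : ∀ j u, 0 ≤ w j u) (φ : ((j : Fin d) → X j) → ℕ) :
    FirstOrder (fun t : (j : Fin d) → V j → X j => wt w t) (sh H φ) := by
  refine firstOrder_of_convex _ _ fun f g hf hg s hs0 hs1 => ?_
  have h := hom_convex hne hH w hw (fun u => f (φ u)) (fun u => g (φ u)) (fun u => hf _)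
    (fun u => hg _) s hs0 hs1
  have e : ∀ k : ℕ → ℝ, ∑ t : (j : Fin d) → V j → X j, wt w t * ∏ l, k (sh H φ t l)
      = hom H w (fun u => k (φ u)) := by
    intro k
    unfold hom
    refine Finset.sum_congr rfl fun t _ => ?_
    congr 1
    exact Finset.prod_coe_sort H (fun e => k (φ (pt t e)))
  have e1 := e (fun m => (1 - s) * g m + s * f m)
  have e2 := e f
  have e3 := e g
  rw [e1, e2, e3]
  exact h

open scoped Classical in
theorem array_lower (hSW : SW) {H : Finset ((j : Fin d) → V j)} (hne : H.Nonempty)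
    (hH : WeaklyNorming H) (Δ : Fin d → ℕ) (hΔ : ∀ j v, (H.filter (fun e => e j = v)).card ≤ Δ j)
    {ε : ℝ} (hε : 0 < ε) (K0 : ℕ) :
    ∀ᶠ x : ℕ in atTop, ∀ (X : Fin d → Type) [∀ j, Fintype (X j)]
      (w : (j : Fin d) → X j → ℝ) (φ : ((j : Fin d) → X j) → ℕ), (∀ j u, 0 ≤ w j u) →
      (∀ u, (φ u : ℝ) ≤ x * Real.log x ^ K0) → ∀ η : ℝ, 0 ≤ η →
      (∀ (j : Fin d) (u : (j : Fin d) → X j),
        Real.log x ^ Δ j * ∑ y : X j, (if φ (Function.update u j y) = φ u then w j y else 0)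
          ≤ η * ∑ y, w j y) →
      (1 - ε - (H.card : ℝ) * (H.card - 1) / 2 * η) * ((x / Real.log x ^ H.card) *
          ∑ t ∈ (univ : Finset ((j : Fin d) → V j → X j)).filter
            (fun t => Function.Injective (sh H φ t)), wt w t * SI (sh H φ t))
        ≤ ∑ t ∈ (univ : Finset ((j : Fin d) → V j → X j)).filter
            (fun t => Function.Injective (sh H φ t)), wt w t * (cnt (sh H φ t) x : ℝ) ∧
      (1 - ε - (H.card : ℝ) * (H.card - 1) / 2 * η) *
          ((x / Real.log x ^ H.card) * ∑ t : (j : Fin d) → V j → X j, wt w t)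
        ≤ ∑ t ∈ (univ : Finset ((j : Fin d) → V j → X j)).filter
            (fun t => Function.Injective (sh H φ t)), wt w t * (cnt (sh H φ t) x : ℝ) := by
  set r : ℕ := H.card with hr
  have hr1 : 1 ≤ r := hne.card_pos
  have hrR : (1:ℝ) ≤ (r : ℝ) := by exact_mod_cast hr1
  set c : ℝ := 1 - min (ε / 8) (1 / 2) with hc
  have hm0 : 0 < min (ε / 8) (1 / 2 : ℝ) := by positivity
  have hm1 : min (ε / 8) (1 / 2 : ℝ) ≤ ε / 8 := min_le_left _ _
  have hm2 : min (ε / 8) (1 / 2 : ℝ) ≤ 1 / 2 := min_le_right _ _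
  have hc0 : 0 < c := by linarith
  have hc1 : c ≤ 1 := by linarith
  filter_upwards [family_lower_aux hSW r K0 hr1 (ε := min (ε / 8) (1 / 2)) hm0,
    sing_tail3 r r K0 hr1 (ε := ε / 4) (by positivity), eventually_ge_atTop 3]
    with x hx1 hx3 hx4
  intro X _ w φ hw hφ η hη hline
  have hx3R : (3:ℝ) ≤ x := by exact_mod_cast hx4
  have hxpos : (0:ℝ) < x := by linarith
  have hL1 : 1 ≤ Real.log x := by
    rw [Real.le_log_iff_exp_le hxpos]
    have := Real.exp_one_lt_d9
    linarith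
  have hLpos : 0 < Real.log x := by linarith
  have hcardI : Fintype.card {e // e ∈ H} = r := Fintype.card_coe H
  have hwt : ∀ t : (j : Fin d) → V j → X j, 0 ≤ wt w t := wt_nonneg' hw
  have hfo := firstOrder_array hne hH w hw φ
  have h1 := hx1 ((j : Fin d) → V j → X j) {e // e ∈ H} (fun t => wt w t) (sh H φ) hcardI hwt
    (fun t e => hφ _) hfo
  have hpd := family_posdef (fun t : (j : Fin d) → V j → X j => wt w t) (sh H φ) hfo (zz r x)
  rw [← hc] at h1
  set z := zz r x with hz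
  set Xx : ℝ := x / Real.log x ^ r with hX
  have hXpos : 0 < Xx := by positivity
  set G : ℝ := ∑ t : (j : Fin d) → V j → X j, wt w t * SZ z (sh H φ t) with hG
  set Wt : ℝ := ∑ t : (j : Fin d) → V j → X j, wt w t with hWt
  set I := (univ : Finset ((j : Fin d) → V j → X j)).filter
    (fun t => Function.Injective (sh H φ t)) with hI
  set Φ : ℝ := ∑ t : (j : Fin d) → V j → X j, wt w t * (cnt (sh H φ t) x : ℝ) with hΦ
  have hWt0 : 0 ≤ Wt := Finset.sum_nonneg fun t _ => hwt t
  have hG0 : 0 ≤ G := hWt0.trans hpd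
  have hXG : 0 ≤ Xx * G := by positivity
  set B : ℝ := (r : ℝ) * (r - 1) / 2 * η with hB
  have hB0 : 0 ≤ B := by
    have : 0 ≤ (r : ℝ) - 1 := by linarith
    positivity
  have ecnt : ∀ A : Finset ((j : Fin d) → V j → X j),
      ∑ n ∈ Icc 1 x, ∑ t ∈ A, wt w t * ∏ e ∈ H, ip (n + φ (pt t e))
      = ∑ t ∈ A, wt w t * (cnt (sh H φ t) x : ℝ) := by
    intro A
    rw [Finset.sum_comm]
    refine Finset.sum_congr rfl fun t _ => ?_
    rw [← Finset.mul_sum, cnt_eq]
    congr 1
    refine Finset.sum_congr rfl fun n _ => ?_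
    exact (Finset.prod_coe_sort H (fun e => ip (n + φ (pt t e)))).symm
  have eΦ : ∑ n ∈ Icc 1 x, hom H w (fun u => ip (n + φ u)) = Φ := ecnt univ
  -- the degenerate assignments
  have hdeg : ∑ t ∈ (univ : Finset ((j : Fin d) → V j → X j)).filter
        (fun t => ¬ Function.Injective (sh H φ t)), wt w t * (cnt (sh H φ t) x : ℝ)
      ≤ B / c * Φ := by
    have h2 := degen_sum hne hH Δ hΔ w hw φ hη hL1 hline (x := x) (by omega) hc0 hc1 (by
      rw [eΦ]
      refine le_trans ?_ h1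
      gcongr)
    rw [eΦ, ecnt] at h2
    refine h2.trans (le_of_eq ?_)
    rw [hB, hr]
    ring
  have hΦ0 : 0 ≤ Φ := le_trans (by positivity) h1
  have hsplit : Φ
      = ∑ t ∈ I, wt w t * (cnt (sh H φ t) x : ℝ)
        + ∑ t ∈ (univ : Finset ((j : Fin d) → V j → X j)).filter
            (fun t => ¬ Function.Injective (sh H φ t)), wt w t * (cnt (sh H φ t) x : ℝ) := by
    rw [hI, hΦ, Finset.sum_filter_add_sum_filter_not]
  have hI0 : 0 ≤ ∑ t ∈ I, wt w t * (cnt (sh H φ t) x : ℝ) :=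
    Finset.sum_nonneg fun t _ => mul_nonneg (hwt t) (Nat.cast_nonneg _)
  have hinjG : ∑ t ∈ I, wt w t * SI (sh H φ t) ≤ (1 + ε / 4) * G := by
    have h3 : ∑ t ∈ I, wt w t * SI (sh H φ t)
        ≤ ∑ t ∈ I, wt w t * ((1 + ε / 4) * SZ z (sh H φ t)) := by
      refine Finset.sum_le_sum fun t ht => mul_le_mul_of_nonneg_left ?_ (hwt t)
      rw [hI, mem_filter] at ht
      exact hx3 {e // e ∈ H} (sh H φ t) hcardI ht.2 (fun e => hφ _)
    refine h3.trans ?_
    have h4 : ∑ t ∈ I, wt w t * ((1 + ε / 4) * SZ z (sh H φ t))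
        = (1 + ε / 4) * ∑ t ∈ I, wt w t * SZ z (sh H φ t) := by
      rw [Finset.mul_sum]
      exact Finset.sum_congr rfl fun t _ => by ring
    rw [h4]
    refine mul_le_mul_of_nonneg_left ?_ (by positivity)
    exact Finset.sum_le_sum_of_subset_of_nonneg (Finset.filter_subset _ _)
      fun t _ _ => mul_nonneg (hwt t) (SZ_nonneg _ _)
  rcases le_or_gt (1 - ε - B) 0 with hneg | hpos'
  · constructor
    · refine le_trans (mul_nonpos_of_nonpos_of_nonneg hneg (mul_nonneg hXpos.le ?_)) hI0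
      refine Finset.sum_nonneg fun t ht => mul_nonneg (hwt t) (SI_nonneg _ ?_)
      rw [hI, mem_filter] at ht
      exact ht.2
    · exact le_trans (mul_nonpos_of_nonpos_of_nonneg hneg (by positivity)) hI0
  · have hmainI : (c - B) * (Xx * G) ≤ ∑ t ∈ I, wt w t * (cnt (sh H φ t) x : ℝ) := by
      have h5 : (1 - B / c) * Φ ≤ ∑ t ∈ I, wt w t * (cnt (sh H φ t) x : ℝ) := by linarith
      have hBc : 0 ≤ 1 - B / c := by
        rw [sub_nonneg, div_le_one hc0]
        linarith
      have h6 : (1 - B / c) * (c * (Xx * G)) ≤ (1 - B / c) * Φ :=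
        mul_le_mul_of_nonneg_left h1 hBc
      have h7 : (1 - B / c) * (c * (Xx * G)) = (c - B) * (Xx * G) := by
        field_simp
      linarith
    constructor
    · calc (1 - ε - B) * (Xx * ∑ t ∈ I, wt w t * SI (sh H φ t))
          ≤ (1 - ε - B) * (Xx * ((1 + ε / 4) * G)) := by gcongr
        _ = ((1 - ε - B) * (1 + ε / 4)) * (Xx * G) := by ring
        _ ≤ (c - B) * (Xx * G) := by
            refine mul_le_mul_of_nonneg_right ?_ (by positivity)
            nlinarith
        _ ≤ _ := hmainI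
    · calc (1 - ε - B) * (Xx * Wt) ≤ (1 - ε - B) * (Xx * G) := by gcongr
        _ ≤ (c - B) * (Xx * G) := by
            refine mul_le_mul_of_nonneg_right (by linarith) (by positivity)
        _ ≤ _ := hmainI

end Pool.Agent.NP
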