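import Pool.Agent.Lib.NP.Weak

/-!
# The Hoelder inequality for subpatterns of weakly norming patterns, by tensor powers
-/

set_option autoImplicit false

open Finset Filter

namespace Pool.Agent.NP

variable {d : ℕ} {V : Fin d → Type} [∀ j, Fintype (V j)] [∀ j, DecidableEq (V j)]

omit [∀ j, DecidableEq (V j)] in
lemma wt_nonneg' {X : Fin d → Type} {w : (j : Fin d) → X j → ℝ} (hw : ∀ j u, 0 ≤ w j u)
    (t : (j : Fin d) → V j → X j) : 0 ≤ wt w t :=
  Finset.prod_nonneg fun j _ => Finset.prod_nonneg fun _ _ => hw j _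

lemma hom_nonneg {S : Finset ((j : Fin d) → V j)} {X : Fin d → Type} [∀ j, Fintype (X j)]
    {w : (j : Fin d) → X j → ℝ} (hw : ∀ j u, 0 ≤ w j u) {F : ((j : Fin d) → X j) → ℝ}
    (hF : ∀ u, 0 ≤ F u) : 0 ≤ hom S w F :=
  Finset.sum_nonneg fun t _ => mul_nonneg (wt_nonneg' hw t) (Finset.prod_nonneg fun _ _ => hF _)

lemma hom_one' (S : Finset ((j : Fin d) → V j)) {X : Fin d → Type} [∀ j, Fintype (X j)]
    (w : (j : Fin d) → X j → ℝ) :
    hom S w (fun _ => 1) = ∑ t : (j : Fin d) → V j → X j, wt w t := by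
  unfold hom
  simp

lemma hom_smul' (S : Finset ((j : Fin d) → V j)) {X : Fin d → Type} [∀ j, Fintype (X j)]
    (w : (j : Fin d) → X j → ℝ) (F : ((j : Fin d) → X j) → ℝ) (c : ℝ) :
    hom S w (fun u => c * F u) = c ^ S.card * hom S w F := by
  unfold hom
  rw [Finset.mul_sum]
  refine Finset.sum_congr rfl fun t _ => ?_
  rw [Finset.prod_mul_distrib, Finset.prod_const]
  ring

/-- Homomorphism sums of tensor powers. -/
lemma hom_tensor (S : Finset ((j : Fin d) → V j)) {X : Fin d → Type} [∀ j, Fintype (X j)]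
    (w : (j : Fin d) → X j → ℝ) (F : ((j : Fin d) → X j) → ℝ) (m : ℕ) :
    hom (X := fun j => Fin m → X j) S (fun j u => ∏ i, w j (u i))
      (fun u => ∏ i, F (fun j => u j i)) = hom S w F ^ m := by
  unfold hom
  rw [Fintype.sum_pow]
  let E : ((j : Fin d) → V j → Fin m → X j) ≃ (Fin m → (j : Fin d) → V j → X j) :=
    { toFun := fun t i j v => t j v i
      invFun := fun t j v i => t i j v
      left_inv := fun t => rfl
      right_inv := fun t => rfl }
  refine Fintype.sum_equiv E _ _ fun t => ?_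
  rw [Finset.prod_mul_distrib]
  congr 1
  · unfold wt
    rw [Finset.prod_comm]
    refine Finset.prod_congr rfl fun j _ => ?_
    rw [Finset.prod_comm]
    rfl
  · rw [Finset.prod_comm]
    rfl

/-- If `a ^ m ≤ K * (b ^ m + c ^ m)` for all `m ≥ 1` then `a ≤ max b c`. -/
lemma le_max_of_pow_le {a b c K : ℝ} (ha : 0 ≤ a) (hb : 0 ≤ b) (hc : 0 ≤ c)
    (h : ∀ m : ℕ, a ^ m ≤ K * (b ^ m + c ^ m)) : a ≤ max b c := by
  by_contra hlt
  push Not at hlt
  set M : ℝ := max b c with hM
  have hM0 : 0 ≤ M := hb.trans (le_max_left _ _)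
  have ha0 : 0 < a := lt_of_le_of_lt hM0 hlt
  have hK : 0 ≤ K := by
    have := h 0
    norm_num at this
    linarith
  have h1 : ∀ m : ℕ, 1 ≤ 2 * K * (M / a) ^ m := by
    intro m
    have h2 := h m
    have h3 : b ^ m ≤ M ^ m := pow_le_pow_left₀ hb (le_max_left _ _) m
    have h4 : c ^ m ≤ M ^ m := pow_le_pow_left₀ hc (le_max_right _ _) m
    have h5 : a ^ m ≤ 2 * K * M ^ m := by
      refine h2.trans ?_
      have : K * (b ^ m + c ^ m) ≤ K * (M ^ m + M ^ m) :=
        mul_le_mul_of_nonneg_left (add_le_add h3 h4) hK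
      linarith
    rw [div_pow, mul_div_assoc']
    rw [le_div_iff₀ (pow_pos ha0 m), one_mul]
    exact h5
  have h6 : Tendsto (fun m : ℕ => 2 * K * (M / a) ^ m) atTop (nhds (2 * K * 0)) :=
    (tendsto_pow_atTop_nhds_zero_of_lt_one (div_nonneg hM0 ha) (by
      rw [div_lt_one ha0]; exact hlt)).const_mul _
  have h7 := ge_of_tendsto' h6 h1
  norm_num at h7

/-- The Hoelder inequality for subpatterns. -/
theorem hom_sub_sharp {H : Finset ((j : Fin d) → V j)} (hne : H.Nonempty) (hH : WeaklyNorming H)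
    {X : Fin d → Type} [∀ j, Fintype (X j)] (w : (j : Fin d) → X j → ℝ) (hw : ∀ j u, 0 ≤ w j u)
    (F : ((j : Fin d) → X j) → ℝ) (hF : ∀ u, 0 ≤ F u) (S : Finset ((j : Fin d) → V j))
    (hS : S ⊆ H) :
    hom S w F ≤ (∑ t : (j : Fin d) → V j → X j, wt w t) ^ (1 - (S.card : ℝ) / H.card)
      * hom H w F ^ ((S.card : ℝ) / H.card) := by
  classical
  set W : ℝ := ∑ t : (j : Fin d) → V j → X j, wt w t with hW
  set A : ℝ := hom S w F with hA
  set B : ℝ := hom H w F with hB
  have hW0 : 0 ≤ W := Finset.sum_nonneg fun t _ => wt_nonneg' hw t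
  have hA0 : 0 ≤ A := hom_nonneg hw hF
  have hB0 : 0 ≤ B := hom_nonneg hw hF
  have hR : 0 < H.card := hne.card_pos
  have hRr : (0:ℝ) < H.card := by exact_mod_cast hR
  have hSR : S.card ≤ H.card := Finset.card_le_card hS
  -- the scaled inequality
  have key : ∀ c : ℝ, 0 ≤ c → c ^ S.card * A ≤ max W (c ^ H.card * B) := by
    intro c hc
    refine le_max_of_pow_le (K := 2 ^ (H.card - 1)) (by positivity) hW0 (by positivity) fun m => ?_
    have h1 := hom_sub_le hne hH (X := fun j => Fin m → X j) (fun j u => ∏ i, w j (u i))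
      (fun j u => Finset.prod_nonneg fun i _ => hw j _)
      (fun u => ∏ i, (c * F (fun j => u j i)))
      (fun u => Finset.prod_nonneg fun i _ => mul_nonneg hc (hF _)) S hS
    have e1 := hom_tensor S w (fun u => c * F u) m
    have e2 := hom_tensor H w (fun u => c * F u) m
    have e3 := hom_tensor S w (fun _ => (1:ℝ)) m
    rw [hom_smul'] at e1 e2
    rw [hom_one'] at e3
    simp only [Finset.prod_const_one] at e3
    rw [hom_one'] at e3
    change hom (X := fun j => Fin m → X j) S (fun j u => ∏ i, w j (u i))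
      (fun u => ∏ i, (c * F (fun j => u j i))) ≤ _ at h1
    rw [e1, e2, e3] at h1
    exact h1
  rcases hW0.eq_or_lt with hWz | hWpos
  · -- total weight zero
    have hwz : ∀ t : (j : Fin d) → V j → X j, wt w t = 0 := fun t =>
      (Finset.sum_eq_zero_iff_of_nonneg fun t _ => wt_nonneg' hw t).mp (hW ▸ hWz.symm) t
        (mem_univ t)
    have hAz : A = 0 := by
      rw [hA]
      unfold hom
      exact Finset.sum_eq_zero fun t _ => by rw [hwz t, zero_mul]
    rw [hAz]
    positivity
  rcases hB0.eq_or_lt with hBz | hBpos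
  · -- `B = 0`
    rcases Nat.eq_zero_or_pos S.card with hS0 | hSpos
    · have hSe : S = ∅ := Finset.card_eq_zero.mp hS0
      have hAW : A = W := by
        rw [hA, hSe]
        unfold hom
        simp [hW]
      rw [hAW, hS0]
      simp
    · have hAz : A = 0 := by
        by_contra hne0
        have hApos : 0 < A := lt_of_le_of_ne hA0 (Ne.symm hne0)
        have h2 := key (max 1 (2 * W / A)) (by positivity)
        rw [← hBz, mul_zero, max_eq_left hW0] at h2
        have h3 : max 1 (2 * W / A) ≤ max 1 (2 * W / A) ^ S.card :=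
          le_self_pow₀ (le_max_left _ _) hSpos.ne'
        have h4 : 2 * W / A * A ≤ max 1 (2 * W / A) ^ S.card * A :=
          mul_le_mul_of_nonneg_right ((le_max_right _ _).trans h3) hA0
        rw [div_mul_cancel₀ _ hne0] at h4
        linarith
      rw [hAz]
      positivity
  · -- the generic case
    set c : ℝ := (W / B) ^ (1 / (H.card : ℝ)) with hc
    have hWB : 0 < W / B := div_pos hWpos hBpos
    have hc0 : 0 < c := Real.rpow_pos_of_pos hWB _
    have hcR : c ^ H.card = W / B := by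
      rw [hc, ← Real.rpow_natCast, ← Real.rpow_mul hWB.le, one_div_mul_cancel hRr.ne', Real.rpow_one]
    have hcS : c ^ S.card = (W / B) ^ ((S.card : ℝ) / H.card) := by
      rw [hc, ← Real.rpow_natCast, ← Real.rpow_mul hWB.le]
      congr 1
      ring
    have h2 := key c hc0.le
    rw [hcR, div_mul_cancel₀ _ hBpos.ne', max_self, hcS, Real.div_rpow hWpos.le hBpos.le] at h2
    have hBp : 0 < B ^ ((S.card : ℝ) / H.card) := Real.rpow_pos_of_pos hBpos _
    have hWp : 0 < W ^ ((S.card : ℝ) / H.card) := Real.rpow_pos_of_pos hWpos _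
    rw [Real.rpow_sub hWpos, Real.rpow_one]
    rw [div_mul_eq_mul_div, div_le_iff₀ hBp] at h2
    rw [div_mul_eq_mul_div, le_div_iff₀ hWp]
    linarith

end Pool.Agent.NP
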